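import Pool.Agent.H.MP_20495c_lc.S.S1

/-!
# MP_20495c, block S (the step), part 1b: existence of the data of a step
-/

set_option autoImplicit false
set_option linter.unusedSectionVars false

namespace Pool.Agent.H.MP_20495c_lc

open Pool.Agent.H.MP_a163f2_lc Pool.Agent.H.MP_07d118_lc

universe u v w

section

theorem S1b_xr_iff {Y : Set Fs} {i j : ℕ} : xr Y i = j ↔
    ([i, j] ∈ Y ∧ ∀ j' : ℕ, j' < j → [i, j'] ∉ Y) ∨ ((∀ j' : ℕ, [i, j'] ∉ Y) ∧ j = 0) := by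
  classical
  unfold xr
  by_cases h : ∃ j, [i, j] ∈ Y
  · rw [dif_pos h]
    constructor
    · rintro rfl
      exact Or.inl ⟨Nat.find_spec h, fun j' hj' => Nat.find_min h hj'⟩
    · rintro (⟨h1, h2⟩ | ⟨h1, -⟩)
      · exact (Nat.find_eq_iff h).2 ⟨h1, fun j' hj' => h2 j' hj'⟩
      · obtain ⟨j', hj'⟩ := h
        exact absurd hj' (h1 j')
  · rw [dif_neg h]
    constructor
    · rintro rfl
      exact Or.inr ⟨fun j' hj' => h ⟨j', hj'⟩, rfl⟩
    · rintro (⟨h1, -⟩ | ⟨-, h1⟩)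
      · exact absurd ⟨j, h1⟩ h
      · exact h1.symm

theorem S1b_lab (h : Hc) (x : ℕ → ℕ) (n : ℕ) :
    lab h x n = if n = 0 then 1 else if n = 1 then Encodable.encode h else x (n - 2) := by
  unfold lab
  rcases n with _ | _ | n
  · rfl
  · rfl
  · rfl

variable {M : Type u} [SetStr M] [ZFC M] [Std M] {W : Type v} [LinearOrder W] [Cd M W] [Om1 M W]
variable {c : W × Hc → ℕ → ℕ} [hL : Fact (Luz M W c)]
variable {T : Type w} [Cd M T]

theorem S1b_mem {f : T → Pl M W} (hf : IF M f) {v : T → W} (hv : IF M v) {m : T → Fs}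
    (hm : IF M m) : Good c f (fun t G => m t ∈ yy G (v t)) := by
  have h1 : Good c f (fun t G => ∃ p : Cond W, p ∈ G ∧ (v t, m t) ∈ p.1) := by
    refine Good.ex (Q := fun (t : T) (p : Cond W) G => p ∈ G ∧ (v t, m t) ∈ p.1) ?_
    refine Good.and (Good.mem (IF.comp hf IF.fst) IF.snd) (Good.of_in ?_)
    exact In.fmem ((IF.comp hv IF.fst).pair (IF.comp hm IF.fst)) (IF.comp IF.fst IF.snd)
  exact h1.congr fun t G _ => Iff.rfl

theorem S1b_pr : IF M (fun y : ℕ × ℕ => ([y.1, y.2] : Fs)) := by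
  refine IF.prim ?_
  exact Primrec.list_cons.comp Primrec.fst (Primrec.list_cons.comp Primrec.snd (Primrec.const []))

theorem S1b_pr' {a b : T → ℕ} (ha : IF M a) (hb : IF M b) : IF M (fun t => ([a t, b t] : Fs)) :=
  IF.comp2 (F := fun a b : ℕ => ([a, b] : Fs)) S1b_pr ha hb

theorem S1b_xr {f : T → Pl M W} (hf : IF M f) {v : T → W} (hv : IF M v) :
    GoodR c f (fun t G => xr (yy G (v t))) := by
  have hf1 : IF M (fun z : (T × ℕ) × ℕ => f z.1.1) := IF.comp hf (IF.comp IF.fst IF.fst)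
  have hf2 : IF M (fun z : ((T × ℕ) × ℕ) × ℕ => f z.1.1.1) := IF.comp hf1 IF.fst
  have hv1 : IF M (fun z : (T × ℕ) × ℕ => v z.1.1) := IF.comp hv (IF.comp IF.fst IF.fst)
  have hv2 : IF M (fun z : ((T × ℕ) × ℕ) × ℕ => v z.1.1.1) := IF.comp hv1 IF.fst
  have h1 : Good c (fun z : (T × ℕ) × ℕ => f z.1.1)
      (fun z G => [z.1.2, z.2] ∈ yy G (v z.1.1)) :=
    S1b_mem hf1 hv1 (S1b_pr' (IF.comp IF.snd IF.fst) IF.snd)
  have h2 : Good c (fun z : ((T × ℕ) × ℕ) × ℕ => f z.1.1.1)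
      (fun z G => [z.1.1.2, z.2] ∈ yy G (v z.1.1.1)) :=
    S1b_mem hf2 hv2 (S1b_pr' (IF.comp IF.snd (IF.comp IF.fst IF.fst)) IF.snd)
  have h3 : Good c (fun z : (T × ℕ) × ℕ => f z.1.1)
      (fun z G => ∀ j' : ℕ, j' < z.2 → [z.1.2, j'] ∉ yy G (v z.1.1)) := by
    refine Good.all hf1 (Q := fun (z : (T × ℕ) × ℕ) (j' : ℕ) G => j' < z.2 →
      [z.1.2, j'] ∉ yy G (v z.1.1)) ?_
    exact Good.imp hf2 (Good.of_in (In.lt IF.snd (IF.comp IF.snd IF.fst))) (h2.not hf2)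
  have h4 : Good c (fun z : (T × ℕ) × ℕ => f z.1.1)
      (fun z G => ∀ j' : ℕ, [z.1.2, j'] ∉ yy G (v z.1.1)) := by
    refine Good.all hf1 (Q := fun (z : (T × ℕ) × ℕ) (j' : ℕ) G =>
      [z.1.2, j'] ∉ yy G (v z.1.1)) ?_
    exact h2.not hf2
  exact ((h1.and h3).or (h4.and (Good.of_in (In.nat_eq IF.snd 0)))).congr
    fun z G _ => S1b_xr_iff

theorem S1b_sub (k : ℕ) : IF M (fun n : ℕ => n - k) :=
  IF.prim (Primrec.nat_sub.comp Primrec.id (Primrec.const k))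

theorem S1b_cat {f : T → Pl M W} (hf : IF M f) {X : T → Set (Cond W) → ℕ → ℕ}
    (hX : GoodR c f X) {τ : T → Fs} (hτ : IF M τ) :
    GoodR c f (fun t G => cat (τ t) (X t G)) := by
  have hl : IF M (fun y : T × ℕ => (τ y.1).length) := IF.length (IF.comp hτ IF.fst)
  have hs : IF M (fun y : T × ℕ => y.2 - (τ y.1).length) :=
    IF.comp2 (F := fun a b : ℕ => a - b) (IF.prim Primrec.nat_sub) IF.snd hl
  have h1 : GoodF c (fun y : T × ℕ => f y.1) (fun y _ => (τ y.1).getD y.2 0) :=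
    GoodF.of_if (IF.getD (IF.comp hτ IF.fst) IF.snd)
  have h2 : GoodF c (fun y : T × ℕ => f y.1) (fun y G => X y.1 G (y.2 - (τ y.1).length)) :=
    GoodF_comp (g := fun y : T × ℕ => (y.1, y.2 - (τ y.1).length)) hX (IF.fst.pair hs)
  refine (GoodF_iteI (P := fun y : T × ℕ => y.2 < (τ y.1).length) (In.lt IF.snd hl) h1 h2).congr
    fun y G _ => ?_
  show cat (τ y.1) (X y.1 G) y.2 = _
  unfold cat
  by_cases h : y.2 < (τ y.1).length
  · rw [if_pos h, if_pos h]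
  · rw [if_neg h, if_neg h]

theorem S1b_labG {f : T → Pl M W} (hf : IF M f) {X : T → Set (Cond W) → ℕ → ℕ}
    (hX : GoodR c f X) {h : T → Hc} (hh : IF M h) :
    GoodR c f (fun t G => lab (h t) (X t G)) := by
  have h1 : GoodF c (fun y : T × ℕ => f y.1) (fun _ _ => (1 : ℕ)) := GoodF.of_if (IF.const 1)
  have h2 : GoodF c (fun y : T × ℕ => f y.1) (fun y _ => Encodable.encode (h y.1)) :=
    GoodF.of_if (IF.comp CdP.enc (IF.comp hh IF.fst))
  have h3 : GoodF c (fun y : T × ℕ => f y.1) (fun y G => X y.1 G (y.2 - 2)) :=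
    GoodF_comp (g := fun y : T × ℕ => (y.1, y.2 - 2)) hX
      (IF.fst.pair (IF.comp (S1b_sub 2) IF.snd))
  have h4 := GoodF_iteI (P := fun y : T × ℕ => y.2 = 1) (In.nat_eq IF.snd 1) h2 h3
  refine (GoodF_iteI (P := fun y : T × ℕ => y.2 = 0) (In.nat_eq IF.snd 0) h1 h4).congr
    fun y G _ => ?_
  show lab (h y.1) (X y.1 G) y.2 = _
  rw [S1b_lab]
  by_cases e0 : y.2 = 0
  · rw [if_pos e0, if_pos e0]
  · rw [if_neg e0, if_neg e0]
    by_cases e1 : y.2 = 1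
    · rw [if_pos e1, if_pos e1]
    · rw [if_neg e1, if_neg e1]

/-- The data of a step exist.

Proof. `exists_nd` gives `nd`. Let `g κ := D1 M (nd (κ.1, 3 * encode κ.2))`, internal in `κ`
(`IF.of_mem`), valid (`valid_D1`). The real
`X κ G := lab κ.2 (cat κ.2.2 (xr (yy G v)))` is good (`GoodR c g X`): `m ∈ yy G v` is good (`m ∈ yy G v` iff
`({(v, m)}, ∅) ∈ G` or by `Good.ex` over conditions), `xr` by least-number search, i.e.
`xr Y i = j ↔ ([i,j] ∈ Y ∧ ∀ j' < j, [i,j'] ∉ Y) ∨ ((∀ j, [i,j] ∉ Y) ∧ j = 0)`. By `exists_name`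
every `κ` has a name `n` with `IsNm c (g κ) n` and `ev n G = X κ G` for all generic `G`, the latter
being `Fo c (g κ) (∅,∅) (fun G => ev n G = X κ G)`, an internal property of `(κ, n)` (`Good.fo`,
`Good.eqR`, `GoodR.ev`; `(∅,∅)` is in every generic filter). `In.choice` gives `N`, and again
`In.choice` gives `β` from `IsNm.bdd`. -/
theorem exists_stepD [Countable M] : Nonempty (StepD M W c) := by
  obtain ⟨nd, hnd⟩ := exists_nd (M := M) (W := W)
  obtain ⟨vv, hvv⟩ : ∃ vv : W × Hc → W, vv = fun κ => nd (κ.1, 3 * Encodable.encode κ.2) :=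
    ⟨_, rfl⟩
  have hvI : IF M vv := by
    rw [hvv]
    exact IF.comp hnd.int (IF.fst.pair (IF.mul (IF.const 3) (IF.comp CdP.enc IF.snd)))
  have hg : IF M (fun κ : W × Hc => D1 M (vv κ)) := by
    refine IF.of_mem ?_
    have h1 : In M (fun y : (W × Hc) × (W × Cond W × Fs) => y.2.1 = vv y.1 ∧
        y.2.2 ∈ dfnS M W) :=
      In.and (In.eq (IF.comp IF.fst IF.snd) (IF.comp hvI IF.fst))
        (In.mem (IF.comp IF.snd IF.snd) (IF.const _))
    exact h1.congr fun y => Iff.rfl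
  have hX : GoodR c (fun κ : W × Hc => D1 M (vv κ))
      (fun κ G => lab κ.2 (cat κ.2.2 (xr (yy G (vv κ))))) :=
    S1b_labG hg (S1b_cat hg (S1b_xr hg hvI) (IF.comp IF.snd IF.snd)) IF.snd
  have hR : In M (fun y : (W × Hc) × Nm M W => IsNm c (D1 M (vv y.1)) y.2 ∧
      Fo c (D1 M (vv y.1)) (∅, ∅)
        (fun G => ev y.2 G = lab y.1.2 (cat y.1.2.2 (xr (yy G (vv y.1)))))) := by
    have hg' : IF M (fun y : (W × Hc) × Nm M W => D1 M (vv y.1)) := IF.comp hg IF.fst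
    refine In.and (In.isNm hg' IF.snd) ?_
    exact Good.fo hg' (Q := fun (y : (W × Hc) × Nm M W) G =>
      ev y.2 G = lab y.1.2 (cat y.1.2.2 (xr (yy G (vv y.1)))))
      (Good.eqR hg' (GoodR.ev hg' IF.snd) (GoodR.comp hX IF.fst)) (IF.const _)
  obtain ⟨N, hN, hN2⟩ := In.choice (M := M) (R := fun (κ : W × Hc) (n : Nm M W) =>
      IsNm c (D1 M (vv κ)) n ∧ Fo c (D1 M (vv κ)) (∅, ∅)
        (fun G => ev n G = lab κ.2 (cat κ.2.2 (xr (yy G (vv κ)))))) hR (by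
    intro κ
    obtain ⟨n, h1, h2⟩ := exists_name hg hX (t := κ) (valid_D1 (c := c) (vv κ))
    exact ⟨n, h1, fun G hG _ => h2 G hG⟩)
  obtain ⟨β, hβ, hβ2⟩ := In.choice (M := M) (R := fun (κ : W × Hc) (ζ : W) =>
      ∀ a : Cond W × Fs, a ∈ N κ → Bd ζ a.1) (by
    refine In.all (P := fun (y : (W × Hc) × W) (a : Cond W × Fs) => a ∈ N y.1 → Bd y.2 a.1) ?_
    exact In.imp (In.mem IF.snd (IF.comp hN (IF.comp IF.fst IF.fst)))
      (In.bd (IF.comp IF.snd IF.fst) (IF.comp IF.fst IF.snd))) (by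
    intro κ
    obtain ⟨ζ, hζ⟩ := (hN2 κ).1.bdd
    exact ⟨ζ, fun a ha => hζ a.1 a.2 ha⟩)
  subst hvv
  exact ⟨{
    nd := nd
    N := N
    isNd := hnd
    N_int := hN
    N_nm := fun κ => (hN2 κ).1
    N_bd := ⟨β, hβ, fun κ q t h => hβ2 κ (q, t) h⟩
    N_ev := fun κ G hG => (hN2 κ).2 G hG hG.empty_mem }⟩

end

end Pool.Agent.H.MP_20495c_lc
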