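import Pool.Agent.H.MP_20495c_lc.S.S6b
import Pool.Agent.H.MP_20495c_lc.S.S1b

/-!
# MP_20495c, block S (the step), part 7: the package of the step
-/

set_option autoImplicit false
set_option linter.unusedSectionVars false

namespace Pool.Agent.H.MP_20495c_lc

open Pool.Agent.H.MP_07d118_lc Pool.Agent.H.MP_a163f2_lc

universe u v w x

/-- **The step.** -/
theorem exists_step {S : Set ZFSet.{0}} [Mdl S] {W : Type v} [LinearOrder W] [Cd S W] [Om1 S W]
    {c : W × Hc → ℕ → ℕ} (hL : Luz S W c) :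
    ∃ (N : Set ZFSet.{0}) (_ : Mdl N) (_ : Cd N W) (_ : Om1 N W) (A : W → Set ZFSet.{0})
      (_ : ∀ d, Mdl (A d)) (_ : ∀ d, Cd (A d) W) (_ : ∀ d, Om1 (A d) W) (c' : W × Hc → ℕ → ℕ)
      (f : W → Pl S W) (G : W → Set (Cond W)) (sp : W → ℕ → ℕ → ℕ),
      SPk S c N A c' f G sp := by
  haveI : Fact (Luz S W c) := ⟨hL⟩
  obtain ⟨D⟩ := exists_stepD (M := S) (W := W) (c := c)
  obtain ⟨G, hG, -⟩ := exists_gen (empty_PP (c := c) D.F)
  haveI mN : Mdl (ext S G) := D.mdlN hG
  haveI mA : ∀ d, Mdl (ext S (G ∩ PP c (D.f d))) := D.mdlA hG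
  have sN : S ⊆ ext S G := sub_ext (po_pp D.F) (gt_iff_gen.2 hG)
  have sA : ∀ d, S ⊆ ext S (G ∩ PP c (D.f d)) := fun d =>
    sub_ext (po_pp (D.f d)) (gt_iff_gen.2 (D.gen hG d))
  letI cN : Cd (ext S G) W := CdUp sN W
  haveI xN : Cx S (ext S G) W := cx_up sN W
  letI cA : ∀ d, Cd (ext S (G ∩ PP c (D.f d))) W := fun d => CdUp (sA d) W
  haveI xA : ∀ d, Cx S (ext S (G ∩ PP c (D.f d))) W := fun d => cx_up (sA d) W
  haveI oN : Om1 (ext S G) W := om1_plan hG
  haveI oA : ∀ d, Om1 (ext S (G ∩ PP c (D.f d))) W := fun d => om1_plan (D.gen hG d)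
  refine ⟨ext S G, mN, cN, oN, fun d => ext S (G ∩ PP c (D.f d)), mA, cA, oA, D.cc G, D.f,
    fun d => G ∩ PP c (D.f d), fun d i => xr (yy G (D.sn d i)), ?_⟩
  exact
    { gx := gext_ext (po_pp D.F) (gt_iff_gen.2 hG)
      cxN := xN
      cxA := xA
      luz := D.luz hG
      val := D.valid
      gen := D.gen hG
      extA := fun d => rfl
      subN := D.subN hG
      mono := fun d d' h => D.mono hG h
      cont := fun d ν hν => D.cont hG d hν
      code := D.code hG
      inA := fun d => D.inA hG d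
      real := fun x hx => D.real hG hx
      spN := by
        intro d i
        obtain ⟨d', hd'⟩ := Om1.bdd (M := S) (W := W) (fun _ => d) (IF.const d)
        exact reals_mono (D.subN hG d') (D.real_default hG (a := (d, 3 * i + 2))
          (by show (3 * i + 2) % 3 ≠ 1; omega) (hd' 0))
      spA := fun d d' i h => D.real_default hG (a := (d, 3 * i + 2))
        (by show (3 * i + 2) % 3 ≠ 1; omega) h
      mg := fun d L hL' hd E hE => D.mgA hG d L hL' hd E hE }

end Pool.Agent.H.MP_20495c_lc
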