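import Pool.Agent.H.MP_a163f2_lc.R.Names
import Pool.Agent.H.MP_a163f2_lc.R.CodN

/-!
# MP_20495c, block S (the step), part 0: node functions
-/

set_option autoImplicit false
set_option linter.unusedSectionVars false

namespace Pool.Agent.H.MP_20495c_lc

open Pool.Agent.H.MP_a163f2_lc Pool.Agent.H.MP_07d118_lc

universe u v w

/-- An internal injective function which places the nodes of index `(k, n)`. -/
structure IsNd (M : Type u) [SetStr M] [ZF M] [Std M] (W : Type v) [LinearOrder W] [Cd M W]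
    (nd : W × ℕ → W) : Prop where
  int : IF M nd
  inj : Function.Injective nd
  ge : ∀ k n, k ≤ nd (k, n)

section

variable {M : Type u} [SetStr M] [ZFC M] [Std M] {W : Type v} [LinearOrder W] [Cd M W] [Om1 M W]

/-- the least element above an internal sequence -/
theorem exists_sup (M : Type u) [SetStr M] [ZFC M] [Std M] {W : Type v} [LinearOrder W] [Cd M W]
    [Om1 M W] : ∃ sup : IFn M ℕ W → W, IF M sup ∧ (∀ f n, f.1 n < sup f) ∧
      ∀ f β, (∀ n, f.1 n < β) → sup f ≤ β := by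
  obtain ⟨sup, h1, h2⟩ := In.choice (M := M) (R := fun (f : IFn M ℕ W) (β : W) =>
    (∀ n : ℕ, f.1 n < β) ∧ ∀ β' : W, (∀ n : ℕ, f.1 n < β') → β ≤ β') (by
      refine In.and ?_ ?_
      · exact In.all (P := fun (y : IFn M ℕ W × W) (n : ℕ) => y.1.1 n < y.2)
          (In.ltW (IF.app (IF.comp IF.fst IF.fst) IF.snd) (IF.comp IF.snd IF.fst))
      · refine In.all (P := fun (y : IFn M ℕ W × W) (β' : W) =>
          (∀ n : ℕ, y.1.1 n < β') → y.2 ≤ β') (In.imp ?_ (In.leW (IF.comp IF.snd IF.fst) IF.snd))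
        exact In.all (P := fun (y : (IFn M ℕ W × W) × W) (n : ℕ) => y.1.1.1 n < y.2)
          (In.ltW (IF.app (IF.comp IF.fst (IF.comp IF.fst IF.fst)) IF.snd)
            (IF.comp IF.snd IF.fst))) (by
    intro f
    obtain ⟨β, hβ, hm⟩ := WellFounded.has_min (Om1.wf (M := M) (W := W))
      {β | ∀ n : ℕ, f.1 n < β} (Om1.bdd f.1 f.2)
    exact ⟨β, hβ, fun β' h' => not_lt.1 (hm β' h')⟩)
  exact ⟨sup, h1, fun f n => (h2 f).1 n, fun f β hβ => (h2 f).2 β hβ⟩

/-- There are node functions. -/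
theorem exists_nd : ∃ nd : W × ℕ → W, IsNd M W nd := by
  obtain ⟨sc, hsc, hsc'⟩ := In.choice (M := M) (R := fun α β : W => α < β)
    (Om1.lt_in (M := M)) (fun α => by
      obtain ⟨β, hβ⟩ := Om1.bdd (M := M) (fun _ : ℕ => α) (IF.const α)
      exact ⟨β, hβ 0⟩)
  obtain ⟨sup, hsup, hs1, -⟩ := exists_sup M (W := W)
  have hit := IF.natRec (M := M) (S := W) (a := fun k : W => k) IF.id
    (g := fun y : W × ℕ × W => sc y.2.2) (IF.comp hsc (IF.comp IF.snd IF.snd))
  obtain ⟨it, hit, hit0, hit1⟩ : ∃ it : W × ℕ → W, IF M it ∧ (∀ k, it (k, 0) = k) ∧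
      ∀ k n, it (k, n) < it (k, n + 1) :=
    ⟨_, hit, fun k => rfl, fun k n => hsc' _⟩
  have hmono : ∀ k, StrictMono (fun n => it (k, n)) := fun k => strictMono_nat_of_lt_succ (hit1 k)
  obtain ⟨lim, hlim, hlim1⟩ : ∃ lim : W → W, IF M lim ∧ ∀ k n, it (k, n) < lim k :=
    ⟨fun k => sup (IFn.sec (f := fun (k : W) (n : ℕ) => it (k, n)) hit k),
      IF.comp hsup (IF.fsec (f := fun (k : W) (n : ℕ) => it (k, n)) hit),
      fun k n => hs1 (IFn.sec (f := fun (k : W) (n : ℕ) => it (k, n)) hit k) n⟩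
  obtain ⟨Φ, hΦ, hΦ1⟩ := In.choice (M := M) (R := fun (y : W × ISet M (W × W)) (δ : W) =>
    (∃ δ₀ : W, ∀ z : W × W, z ∈ y.2 → lim z.2 ≤ δ₀) →
      (y.1 ≤ δ ∧ ∀ z : W × W, z ∈ y.2 → lim z.2 ≤ δ)) (by
      refine In.imp ?_ (In.and (In.leW (IF.comp IF.fst IF.fst) IF.snd) ?_)
      · refine In.ex (P := fun (y : (W × ISet M (W × W)) × W) (δ₀ : W) =>
          ∀ z : W × W, z ∈ y.1.2 → lim z.2 ≤ δ₀) ?_
        refine In.all (P := fun (y : ((W × ISet M (W × W)) × W) × W) (z : W × W) =>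
          z ∈ y.1.1.2 → lim z.2 ≤ y.2) ?_
        exact In.imp (In.mem IF.snd (IF.comp IF.snd (IF.comp IF.fst (IF.comp IF.fst IF.fst))))
          (In.leW (IF.comp hlim (IF.comp IF.snd IF.snd)) (IF.comp IF.snd IF.fst))
      · refine In.all (P := fun (y : (W × ISet M (W × W)) × W) (z : W × W) =>
          z ∈ y.1.2 → lim z.2 ≤ y.2) ?_
        exact In.imp (In.mem IF.snd (IF.comp IF.snd (IF.comp IF.fst IF.fst)))
          (In.leW (IF.comp hlim (IF.comp IF.snd IF.snd)) (IF.comp IF.snd IF.fst))) (by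
    rintro ⟨k, h⟩
    by_cases h1 : ∃ δ₀ : W, ∀ z : W × W, z ∈ h → lim z.2 ≤ δ₀
    · obtain ⟨δ₀, h2⟩ := h1
      exact ⟨max k δ₀, fun _ => ⟨le_max_left _ _, fun z hz => (h2 z hz).trans (le_max_right _ _)⟩⟩
    · exact ⟨k, fun h2 => absurd h2 h1⟩)
  obtain ⟨H, hH, hH1⟩ := exists_rec (M := M) (T := W) (lt := fun a b : W => a < b)
    (Om1.lt_in (M := M)) (Om1.wf (M := M)) (fun a b c h h' => h.trans h') hΦ
  have key : ∀ α, α ≤ H α ∧ ∀ k', k' < α → lim (H k') ≤ H α := by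
    intro α
    obtain ⟨h, e⟩ := hH1 α
    have h2 := hΦ1 (α, ISet.mk h) (by
      have hb : In M (fun k' : W => k' ∈ {β : W | β < α}) := In.ltW IF.id (IF.const α)
      obtain ⟨δ₀, h3⟩ := ICt.bdd (M := M) (ICt.below α) hb (IF.comp hlim hH)
      refine ⟨δ₀, ?_⟩
      rintro ⟨k', δ'⟩ ⟨h4, h5⟩
      have h5' : H k' = δ' := h5
      show lim δ' ≤ δ₀
      rw [← h5']
      exact (h3 k' h4).le)
    rw [← e] at h2
    exact ⟨h2.1, fun k' hk' => h2.2 (k', H k') ⟨hk', rfl⟩⟩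
  have hlt : ∀ k k' n n', k < k' → it (H k, n) < it (H k', n') := by
    intro k k' n n' h
    calc it (H k, n) < lim (H k) := hlim1 _ _
      _ ≤ H k' := (key k').2 k h
      _ = it (H k', 0) := (hit0 _).symm
      _ ≤ it (H k', n') := (hmono _).monotone (Nat.zero_le _)
  refine ⟨fun y => it (H y.1, y.2), IF.comp hit ((IF.comp hH IF.fst).pair IF.snd), ?_, ?_⟩
  · rintro ⟨k, n⟩ ⟨k', n'⟩ e
    have e' : it (H k, n) = it (H k', n') := e
    rcases lt_trichotomy k k' with h | rfl | h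
    · exact absurd e' (hlt k k' n n' h).ne
    · rw [(hmono (H k)).injective e']
    · exact absurd e' (hlt k' k n' n h).ne'
  · intro k n
    calc k ≤ H k := (key k).1
      _ = it (H k, 0) := (hit0 _).symm
      _ ≤ it (H k, n) := (hmono _).monotone (Nat.zero_le _)

end

end Pool.Agent.H.MP_20495c_lc
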