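import Pool.Agent.H.MP_20495c_lc.Base
import Pool.Agent.H.MP_20495c_lc.S.S0

/-!
# MP_20495c, block S (the step), part 1: definitions

Default nodes have the content `0`; the real `xr (yy G v)` is read off from the generic set of a
default node `v`. `StepD` packages the data of a step: a node function `nd` and the names `N κ` of
the labelled reals. `F` is the (unbounded) plan of the step, `f d` its part of index below `d`,
`cc G` the new family of reals.  Nodes: `nd (k, 3 enc h)` default node of `κ = (k, h)`,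
`nd (k, 3 enc h + 1)` code node of `κ` (content: the label of `cc G κ`), `nd (k, 3 m + 2)` spare
default nodes.
-/

set_option autoImplicit false
set_option linter.unusedSectionVars false

namespace Pool.Agent.H.MP_20495c_lc

open Pool.Agent.H.MP_a163f2_lc Pool.Agent.H.MP_07d118_lc

universe u v w

open Classical in
/-- the real read off from a set of finite sequences: `x i` is the least `j` with `[i, j] ∈ Y` -/
noncomputable def xr (Y : Set Fs) (i : ℕ) : ℕ := if h : ∃ j, [i, j] ∈ Y then Nat.find h else 0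

/-- prepending a finite sequence -/
def cat (τ : Fs) (x : ℕ → ℕ) : ℕ → ℕ := fun n =>
  if n < τ.length then τ.getD n 0 else x (n - τ.length)

section

variable (M : Type u) [SetStr M] [ZF M] [Std M] (W : Type v) [LinearOrder W] [Cd M W]

/-- the name of the constant `0` -/
noncomputable def dfnS : Nm M W :=
  ISet.mk (P := fun y : Cond W × Fs => y.1 = (∅, ∅) ∧ Pre (fun _ => 0) y.2)
    (In.and (In.eq IF.fst (IF.const _))
      (In.pre (x := fun _ _ => 0) (IF.const 0) IF.snd))

variable {W}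

/-- the plan with the single default node `v` -/
noncomputable def D1 (v : W) : Pl M W :=
  ISet.mk (P := fun y : W × Cond W × Fs => y.1 = v ∧ y.2 ∈ dfnS M W)
    (In.and (In.eq IF.fst (IF.const v)) (In.mem IF.snd (IF.const _)))

end

/-- The data of a step. -/
structure StepD (M : Type u) [SetStr M] [ZF M] [Std M] (W : Type v) [LinearOrder W] [Cd M W]
    (c : W × Hc → ℕ → ℕ) where
  nd : W × ℕ → W
  N : W × Hc → Nm M W
  isNd : IsNd M W nd
  N_int : IF M N
  N_nm : ∀ κ : W × Hc, IsNm c (D1 M (nd (κ.1, 3 * Encodable.encode κ.2))) (N κ)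
  N_bd : ∃ β : W × Hc → W, IF M β ∧ ∀ κ q t, (q, t) ∈ N κ → Bd (β κ) q
  N_ev : ∀ (κ : W × Hc) (G : Set (Cond W)), Gen c (D1 M (nd (κ.1, 3 * Encodable.encode κ.2))) G →
    ev (N κ) G = lab κ.2 (cat κ.2.2 (xr (yy G (nd (κ.1, 3 * Encodable.encode κ.2)))))

section

variable {M : Type u} [SetStr M] [ZF M] [Std M] {W : Type v} [LinearOrder W] [Cd M W]
variable {c : W × Hc → ℕ → ℕ} (D : StepD M W c)

/-- the default node of `κ` -/
def StepD.dn (κ : W × Hc) : W := D.nd (κ.1, 3 * Encodable.encode κ.2)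

/-- the code node of `κ` -/
def StepD.cn (κ : W × Hc) : W := D.nd (κ.1, 3 * Encodable.encode κ.2 + 1)

/-- the spare nodes -/
def StepD.sn (k : W) (m : ℕ) : W := D.nd (k, 3 * m + 2)

/-- the new family of reals -/
noncomputable def StepD.cc (G : Set (Cond W)) (κ : W × Hc) : ℕ → ℕ :=
  cat κ.2.2 (xr (yy G (D.dn κ)))

theorem S1_encHc {T : Type w} [Cd M T] {f : T → Hc} (hf : IF M f) :
    IF M (fun t => Encodable.encode (f t)) :=
  IF.comp (g := (Encodable.encode : Hc → ℕ)) CdP.enc hf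

theorem StepD.F_in : In M (fun y : W × Cond W × Fs =>
    (∃ a : W × ℕ, a.2 % 3 ≠ 1 ∧ y.1 = D.nd a ∧ y.2 ∈ dfnS M W) ∨
      ∃ κ : W × Hc, y.1 = D.nd (κ.1, 3 * Encodable.encode κ.2 + 1) ∧ y.2 ∈ D.N κ) := by
  refine In.or ?_ ?_
  · refine In.ex (P := fun (y : W × Cond W × Fs) (a : W × ℕ) =>
      a.2 % 3 ≠ 1 ∧ y.1 = D.nd a ∧ y.2 ∈ dfnS M W) ?_
    refine In.and ?_ (In.and ?_ ?_)
    · exact (In.eq (IF.prim2 (F := fun a b : ℕ => a % b) Primrec.nat_mod (IF.comp IF.snd IF.snd)
        (IF.const 3)) (IF.const 1)).not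
    · exact In.eq (IF.comp IF.fst IF.fst) (IF.comp D.isNd.int IF.snd)
    · exact In.mem (IF.comp IF.snd IF.fst) (IF.const _)
  · refine In.ex (P := fun (y : W × Cond W × Fs) (κ : W × Hc) =>
      y.1 = D.nd (κ.1, 3 * Encodable.encode κ.2 + 1) ∧ y.2 ∈ D.N κ) ?_
    refine In.and ?_ ?_
    · refine In.eq (IF.comp IF.fst IF.fst) (IF.comp D.isNd.int ?_)
      exact (IF.comp IF.fst IF.snd).pair (IF.succ' (IF.mul (IF.const 3)
        (S1_encHc (IF.comp IF.snd IF.snd))))
    · exact In.mem (IF.comp IF.snd IF.fst) (IF.comp D.N_int IF.snd)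

/-- The plan of the step. -/
noncomputable def StepD.F : Pl M W := ISet.mk D.F_in

theorem StepD.f_in [Om1 M W] (d : W) : In M (fun y : W × Cond W × Fs => y ∈ D.F ∧
    ∃ a : W × ℕ, a.1 < d ∧ y.1 = D.nd a) := by
  refine In.and (In.mem IF.id (IF.const _)) ?_
  refine In.ex (P := fun (y : W × Cond W × Fs) (a : W × ℕ) => a.1 < d ∧ y.1 = D.nd a) ?_
  refine In.and ?_ (In.eq (IF.comp IF.fst IF.fst) (IF.comp D.isNd.int IF.snd))
  exact In.comp2 (P := fun a b : W => a < b) (Om1.lt_in (M := M)) (IF.comp IF.fst IF.snd)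
    (IF.const d)

/-- The part of the plan of index below `d`. -/
noncomputable def StepD.f [Om1 M W] (d : W) : Pl M W := ISet.mk (D.f_in d)

end

section

variable {M : Type u} [SetStr M] [ZFC M] [Std M] {W : Type v} [LinearOrder W] [Cd M W] [Om1 M W]
variable {c : W × Hc → ℕ → ℕ} [hL : Fact (Luz M W c)]

/-- `dfnS` is a name of `0` over every plan. -/
theorem isNm_dfnS (g : Pl M W) : IsNm c g (dfnS M W) := by
  refine ⟨?_, ?_, ?_, ?_⟩
  · rintro q u ⟨h, -⟩
    have h' : q = (∅, ∅) := h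
    rw [h']
    exact empty_PP g
  · intro q u q' u' h1 h2 r hr h3 h4
    exact Pre.comparable h1.2 h2.2
  · intro k p hp
    exact ⟨p, hp, CLe.refl _, (∅, ∅), ini (fun _ => 0) k, ⟨rfl, pre_ini _ _⟩, le_empty _,
      (ini_length _ _).ge⟩
  · obtain ⟨ζ, hζ⟩ := exists_Bd M ((∅, ∅) : Cond W)
    refine ⟨ζ, ?_⟩
    rintro q u ⟨h, -⟩
    have h' : q = (∅, ∅) := h
    rw [h']
    exact hζ

theorem ev_dfnS {g : Pl M W} {G : Set (Cond W)} (hG : Gen c g G) : ev (dfnS M W) G = 0 :=
  Ev.ev_eq ⟨fun q u h _ => h.2, (Ev_ev hG (isNm_dfnS (c := c) g)).2⟩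

theorem valid_D1 (v : W) : Valid c (D1 M v) := by
  refine ⟨?_, ?_⟩
  · obtain ⟨ζ, hζ⟩ := Om1.bdd (M := M) (fun _ : ℕ => v) (IF.const v)
    refine ⟨ζ, ?_⟩
    rintro ν q t ⟨h1, h2, -⟩
    have h1' : ν = v := h1
    have h2' : q = (∅, ∅) := h2
    rw [h1', h2']
    exact ⟨hζ 0, fun ν m hm => absurd hm (Finset.notMem_empty _),
      fun ν ξ h hh => absurd hh (Finset.notMem_empty _)⟩
  · rintro ν ⟨q, t, h1, h2⟩
    have h1' : ν = v := h1
    have e : (D1 M v).nm ν = dfnS M W := by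
      ext x
      constructor
      · rintro ⟨-, h⟩
        exact h
      · intro h
        exact ⟨h1', h⟩
    rw [e]
    exact isNm_dfnS _

end

end Pool.Agent.H.MP_20495c_lc
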