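import Pool.Agent.H.MP_20495c_lc.S.S1

/-!
# MP_20495c, block S (the step), part 2: the plans `f d` and `F`
-/

set_option autoImplicit false
set_option linter.unusedSectionVars false

namespace Pool.Agent.H.MP_20495c_lc

open Pool.Agent.H.MP_a163f2_lc Pool.Agent.H.MP_07d118_lc

universe u v w

section

variable {M : Type u} [SetStr M] [ZFC M] [Std M] {W : Type v} [LinearOrder W] [Cd M W] [Om1 M W]
variable {c : W × Hc → ℕ → ℕ} [hL : Fact (Luz M W c)]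

variable (D : StepD M W c)

theorem StepD.mem_F {y : W × Cond W × Fs} : y ∈ D.F ↔
    (∃ a : W × ℕ, a.2 % 3 ≠ 1 ∧ y.1 = D.nd a ∧ y.2 ∈ dfnS M W) ∨
      ∃ κ : W × Hc, y.1 = D.cn κ ∧ y.2 ∈ D.N κ := Iff.rfl

theorem StepD.mem_f {d : W} {y : W × Cond W × Fs} : y ∈ D.f d ↔ y ∈ D.F ∧
    ∃ a : W × ℕ, a.1 < d ∧ y.1 = D.nd a := Iff.rfl

/-- `d ↦ f d` is internal -/
theorem StepD.f_int : IF M D.f := by
  refine IF.of_mem (In.congr (In.and (In.mem IF.snd (IF.const D.F))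
    (In.ex (P := fun (y : W × (W × Cond W × Fs)) (a : W × ℕ) => a.1 < y.1 ∧ y.2.1 = D.nd a)
      (In.and (In.ltW (IF.comp IF.fst IF.snd) (IF.comp IF.fst IF.fst))
        (In.eq (IF.comp IF.fst (IF.comp IF.snd IF.fst)) (IF.comp D.isNd.int IF.snd))))) ?_)
  intro y
  exact Iff.rfl

theorem StepD.nd_inj {a b : W × ℕ} (h : D.nd a = D.nd b) : a = b := D.isNd.inj h

/-- the entries of a default node (use `encode h` injective, `3 * m + 1` mod 3) -/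
theorem StepD.mem_F_default {a : W × ℕ} (ha : a.2 % 3 ≠ 1) {x : Cond W × Fs} :
    (D.nd a, x) ∈ D.F ↔ x ∈ dfnS M W := by
  rw [D.mem_F]
  constructor
  · rintro (⟨b, -, -, h⟩ | ⟨κ, h1, -⟩)
    · exact h
    · exfalso
      apply ha
      have h2 := D.nd_inj h1
      rw [h2]
      omega
  · intro h
    exact Or.inl ⟨a, ha, rfl, h⟩

/-- the entries of a code node -/
theorem StepD.mem_F_code {κ : W × Hc} {x : Cond W × Fs} : (D.cn κ, x) ∈ D.F ↔ x ∈ D.N κ := by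
  rw [D.mem_F]
  constructor
  · rintro (⟨b, hb, h1, -⟩ | ⟨κ', h1, h2⟩)
    · exfalso
      apply hb
      rw [← D.nd_inj h1]
      omega
    · have h3 := D.nd_inj h1
      rw [Prod.mk.injEq] at h3
      have h4 : κ.2 = κ'.2 := Encodable.encode_injective (by omega)
      rw [Prod.ext h3.1 h4]
      exact h2
  · intro h
    exact Or.inr ⟨κ, rfl, h⟩

/-- every node of `F` is some `nd a`; if it is in `f d`, then `a.1 < d` -/
theorem StepD.dom_f {d : W} {a : W × ℕ} : D.nd a ∈ (D.f d).dom ↔ D.nd a ∈ D.F.dom ∧ a.1 < d := by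
  constructor
  · rintro ⟨q, t, h1, b, hb, e⟩
    rw [D.nd_inj e]
    exact ⟨⟨q, t, by rw [← D.nd_inj e]; exact h1⟩, hb⟩
  · rintro ⟨⟨q, t, h1⟩, h2⟩
    exact ⟨q, t, h1, a, h2, rfl⟩

theorem StepD.dom_F {ν : W} (h : ν ∈ D.F.dom) : ∃ a : W × ℕ, ν = D.nd a ∧
    (a.2 % 3 ≠ 1 ∨ ∃ κ : W × Hc, ν = D.cn κ ∧ a = (κ.1, 3 * Encodable.encode κ.2 + 1)) := by
  obtain ⟨q, t, h⟩ := h
  rw [D.mem_F] at h
  rcases h with ⟨a, ha, h1, -⟩ | ⟨κ, h1, -⟩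
  · exact ⟨a, h1, Or.inl ha⟩
  · exact ⟨_, h1, Or.inr ⟨κ, h1, rfl⟩⟩

theorem StepD.default_dom {a : W × ℕ} (ha : a.2 % 3 ≠ 1) : D.nd a ∈ D.F.dom := by
  refine ⟨(∅, ∅), [], (D.mem_F_default ha).2 ?_⟩
  exact ⟨rfl, rfl⟩

theorem StepD.code_dom (κ : W × Hc) : D.cn κ ∈ D.F.dom := by
  obtain ⟨r, -, -, q, t, h, -⟩ := (D.N_nm κ).tot 0 (∅, ∅) (empty_PP _)
  exact ⟨q, t, D.mem_F_code.2 h⟩

theorem StepD.sb_fF (d : W) : Sb (D.f d) D.F := by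
  refine ⟨fun x hx => hx.1, ?_⟩
  rintro ν q t ⟨q', t', -, a, ha, e⟩ h
  exact ⟨h, a, ha, e⟩

theorem StepD.sb_ff {d d' : W} (h : d ≤ d') : Sb (D.f d) (D.f d') := by
  refine ⟨?_, ?_⟩
  · rintro x ⟨hx, a, ha, e⟩
    exact ⟨hx, a, ha.trans_le h, e⟩
  · rintro ν q t ⟨q', t', -, a, ha, e⟩ h
    exact ⟨h.1, a, ha, e⟩

/-- `D1 (dn κ)` is a subplan of `f d` for `κ.1 < d` -/
theorem StepD.sb_D1 {κ : W × Hc} {d : W} (h : κ.1 < d) : Sb (D1 M (D.dn κ)) (D.f d) := by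
  have h0 : (3 * Encodable.encode κ.2) % 3 ≠ 1 := by omega
  refine ⟨?_, ?_⟩
  · rintro ⟨ν, x⟩ ⟨h1, h2⟩
    have h1' : ν = D.dn κ := h1
    subst h1'
    exact ⟨(D.mem_F_default (a := (κ.1, 3 * Encodable.encode κ.2)) h0).2 h2, _, h, rfl⟩
  · rintro ν q t ⟨q', t', h1, -⟩ h2
    have h1' : ν = D.dn κ := h1
    subst h1'
    exact ⟨rfl, (D.mem_F_default (a := (κ.1, 3 * Encodable.encode κ.2)) h0).1 h2.1⟩

theorem StepD.S2_nm_default {d : W} {a : W × ℕ} (ha : a.2 % 3 ≠ 1) (h : a.1 < d) :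
    (D.f d).nm (D.nd a) = dfnS M W := by
  refine ISet.ext fun x => ?_
  rw [← D.mem_F_default ha]
  exact ⟨fun h1 => h1.1, fun h1 => ⟨h1, a, h, rfl⟩⟩

theorem StepD.S2_nm_code {d : W} {κ : W × Hc} (h : κ.1 < d) :
    (D.f d).nm (D.cn κ) = D.N κ := by
  refine ISet.ext fun x => ?_
  rw [← D.mem_F_code]
  exact ⟨fun h1 => h1.1, fun h1 => ⟨h1, _, h, rfl⟩⟩

/-- The nodes of `f d`. -/
theorem StepD.S2_cases {d : W} {ν : W} (h : ν ∈ (D.f d).dom) :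
    (∃ a : W × ℕ, a.2 % 3 ≠ 1 ∧ a.1 < d ∧ ν = D.nd a) ∨
      ∃ κ : W × Hc, κ.1 < d ∧ ν = D.cn κ := by
  have h1 : ν ∈ D.F.dom := (D.sb_fF d).dom h
  obtain ⟨a, rfl, ha⟩ := D.dom_F h1
  have h2 := (D.dom_f.1 h).2
  rcases ha with ha | ⟨κ, e, rfl⟩
  · exact Or.inl ⟨a, ha, h2, rfl⟩
  · exact Or.inr ⟨κ, h2, e⟩

theorem S2_yy {f g : Pl M W} (hf : Valid c f) (h : Sb f g) {G : Set (Cond W)}
    (hG : Gen c g G) {ν : W} (hν : ν ∈ f.dom) : yy (G ∩ PP c f) ν = yy G ν := by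
  ext m
  constructor
  · rintro ⟨p, hp, hm⟩
    exact ⟨p, hp.1, hm⟩
  · rintro ⟨p, hp, hm⟩
    exact ⟨crs f.dom p, Gen.crs_mem hf h hG hp, mem_crs1.2 ⟨hm, hν⟩⟩

/-- The plans `f d` are valid.  Bounded: the nodes `nd a`, `a.1 < d`, are bounded by `ICt.bdd`
(`(ICt.below d).prod ICt.nat`), the names by `N_bd` and `ICt.bdd`, `(∅, ∅)` by `exists_Bd`. -/
theorem StepD.valid (d : W) : Valid c (D.f d) := by
  refine ⟨?_, ?_⟩
  · obtain ⟨ζ₁, h1⟩ := ICt.bdd (M := M) (A := {a : W × ℕ | a.1 < d})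
      (((ICt.below d).prod ICt.nat).mono fun a ha => ⟨ha, Set.mem_univ _⟩)
      (In.ltW IF.fst (IF.const d)) D.isNd.int
    obtain ⟨β, hβ, h2⟩ := D.N_bd
    obtain ⟨ζ₂, h3⟩ := ICt.bdd (M := M) (A := {κ : W × Hc | κ.1 < d})
      (((ICt.below d).prod ICt.hc).mono fun a ha => ⟨ha, Set.mem_univ _⟩)
      (In.ltW IF.fst (IF.const d)) hβ
    refine ⟨max ζ₁ ζ₂, fun ν q t h => ?_⟩
    have hν : ν < max ζ₁ ζ₂ := by
      obtain ⟨-, a, ha, e⟩ := h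
      have e' : ν = D.nd a := e
      rw [e']
      exact (h1 a ha).trans_le (le_max_left _ _)
    refine ⟨hν, ?_⟩
    rcases D.S2_cases ⟨q, t, h⟩ with ⟨a, ha, -, rfl⟩ | ⟨κ, hκ, rfl⟩
    · have h4 := (D.mem_F_default ha).1 h.1
      have h5 : q = (∅, ∅) := h4.1
      rw [h5]
      exact ⟨fun ν m h6 => absurd h6 (Finset.notMem_empty _),
        fun ν ξ k h6 => absurd h6 (Finset.notMem_empty _)⟩
    · have h4 := D.mem_F_code.1 h.1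
      exact (h2 κ q t h4).mono ((h3 κ hκ).le.trans (le_max_right _ _))
  · intro ν hν
    rcases D.S2_cases hν with ⟨a, ha, hd, rfl⟩ | ⟨κ, hκ, rfl⟩
    · rw [D.S2_nm_default ha hd]
      exact isNm_dfnS _
    · rw [D.S2_nm_code hκ]
      exact (D.N_nm κ).mono (valid_D1 _) (D.sb_D1 hκ)

theorem StepD.S2_lt {ν ζ : W} (h : ν ∈ D.F.dom) (hν : ν < ζ) : ν ∈ (D.f ζ).dom := by
  obtain ⟨a, rfl, -⟩ := D.dom_F h
  exact D.dom_f.2 ⟨h, (D.isNd.ge a.1 a.2).trans_lt hν⟩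

/-- a condition of `F` with indices below `ζ` is a condition of `f ζ` (use `k ≤ nd (k, n)`) -/
theorem StepD.pp_of_bd {p : Cond W} {ζ : W} (hp : p ∈ PP c D.F) (h : Bd ζ p) :
    p ∈ PP c (D.f ζ) := by
  refine ⟨fun ν m hm => D.S2_lt (hp.1 ν m hm) (h.1 ν m hm), fun ν κ hκ => ?_⟩
  obtain ⟨q, t, h1, h2, h3⟩ := hp.2 ν κ hκ
  have h4 : ν ∈ (D.f ζ).dom := D.S2_lt ⟨q, t, h1⟩ (h.2 ν κ.1 κ.2 hκ).1
  exact ⟨q, t, (D.sb_fF ζ).2 ν q t h4 h1, h2, h3⟩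

/-- the restriction of a generic filter of `F` to `f d` -/
theorem StepD.gen {G : Set (Cond W)} (hG : Gen c D.F G) (d : W) :
    Gen c (D.f d) (G ∩ PP c (D.f d)) := hG.restrict (D.valid d) (D.sb_fF d)

/-- the generic set of a node of `f d` is computed from the restriction of the filter -/
theorem StepD.yy_restrict {G : Set (Cond W)} (hG : Gen c D.F G) {d : W} {ν : W}
    (h : ν ∈ (D.f d).dom) : yy (G ∩ PP c (D.f d)) ν = yy G ν := by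
  exact S2_yy (D.valid d) (D.sb_fF d) hG h

theorem StepD.cc_restrict {G : Set (Cond W)} (hG : Gen c D.F G) {d : W} {κ : W × Hc}
    (h : κ.1 < d) : D.cc (G ∩ PP c (D.f d)) κ = D.cc G κ := by
  have h0 : (3 * Encodable.encode κ.2) % 3 ≠ 1 := by omega
  have h1 : D.dn κ ∈ (D.f d).dom := D.dom_f.2 ⟨D.default_dom h0, h⟩
  unfold StepD.cc
  rw [D.yy_restrict hG h1]

/-- the content of a default node -/
theorem StepD.ev_default {G : Set (Cond W)} (hG : Gen c D.F G) {d : W} {a : W × ℕ}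
    (ha : a.2 % 3 ≠ 1) (h : a.1 < d) : ev ((D.f d).nm (D.nd a)) (G ∩ PP c (D.f d)) = 0 := by
  rw [D.S2_nm_default ha h]
  exact ev_dfnS (D.gen hG d)

/-- the content of a code node: `N_ev` for the restriction of `G` to `D1 (dn κ)`, `ev_restrict` -/
theorem StepD.ev_code {G : Set (Cond W)} (hG : Gen c D.F G) {d : W} {κ : W × Hc} (h : κ.1 < d) :
    ev ((D.f d).nm (D.cn κ)) (G ∩ PP c (D.f d)) = lab κ.2 (D.cc G κ) := by
  have hG' := D.gen hG d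
  rw [D.S2_nm_code h, ← ev_restrict (valid_D1 (D.dn κ)) (D.sb_D1 h) hG' (D.N_nm κ)]
  have h0 : D.dn κ ∈ (D1 M (D.dn κ)).dom := ⟨(∅, ∅), [], rfl, rfl, rfl⟩
  have h1 := D.N_ev κ _ (hG'.restrict (valid_D1 (D.dn κ)) (D.sb_D1 h))
  refine h1.trans ?_
  have h2 : yy (G ∩ PP c (D.f d) ∩ PP c (D1 M (D.dn κ))) (D.dn κ) = yy (G ∩ PP c (D.f d)) (D.dn κ) :=
    S2_yy (valid_D1 (D.dn κ)) (D.sb_D1 h) hG' h0
  have h3 : D.cc (G ∩ PP c (D.f d) ∩ PP c (D1 M (D.dn κ))) κ = D.cc (G ∩ PP c (D.f d)) κ := by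
    unfold StepD.cc
    rw [h2]
  rw [← D.cc_restrict hG h, ← h3]
  rfl

/-- The field `cont` of the package of the step. -/
theorem StepD.cont {G : Set (Cond W)} (hG : Gen c D.F G) (d : W) {ν : W}
    (h : ν ∈ (D.f d).dom) : ev ((D.f d).nm ν) (G ∩ PP c (D.f d)) = 0 ∨
    ∃ κ : W × Hc, ev ((D.f d).nm ν) (G ∩ PP c (D.f d)) = lab κ.2 (D.cc G κ) := by
  rcases D.S2_cases h with ⟨a, ha, hd, rfl⟩ | ⟨κ, hκ, rfl⟩
  · exact Or.inl (D.ev_default hG ha hd)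
  · exact Or.inr ⟨κ, D.ev_code hG hκ⟩

end

end Pool.Agent.H.MP_20495c_lc
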