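import Pool.Agent.H.MP_20495c_lc.S.S0

/-!
# MP_20495c, block S (the step), part 3a: closure points
-/

set_option autoImplicit false
set_option linter.unusedSectionVars false

namespace Pool.Agent.H.MP_20495c_lc

open Pool.Agent.H.MP_a163f2_lc Pool.Agent.H.MP_07d118_lc

universe u v w

section

variable {M : Type u} [SetStr M] [ZFC M] [Std M] {W : Type v} [LinearOrder W] [Cd M W] [Om1 M W]
variable {T : Type w} [Cd M T]

/-- Closure points of an internal function.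

Proof. By `In.choice` there is an internal `θ : W → W` with `ζ < θ ζ` and `Φ t < θ ζ` for all `t`
with `K t ζ` (`ICt.bdd`).  Iterate it on `ℕ` from `ζ₀` (`IF.natRec`, as in `Perm2_seq`), let `ζ` be
the least upper bound (`exists_sup` in S0).  If `K t η` with `η < ζ`, then `η ≤ ζ_n` for some `n`
(leastness), so `K t ζ_n` and `Φ t < ζ_(n+1) < ζ`. -/
theorem exists_closed {K : T → W → Prop} (hK : In M (fun y : T × W => K y.1 y.2))
    (hct : ∀ ζ, ICt M {t | K t ζ}) (hmono : ∀ t η η', η ≤ η' → K t η → K t η') {Φ : T → W}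
    (hΦ : IF M Φ) (ζ₀ : W) : ∃ ζ, ζ₀ < ζ ∧ ∀ t, (∃ η < ζ, K t η) → Φ t < ζ := by
  obtain ⟨θ, hθ, hθR⟩ := In.choice (M := M) (R := fun ζ ξ : W => ζ < ξ ∧
    ∀ t : T, K t ζ → Φ t < ξ) (by
      refine In.and (In.ltW IF.fst IF.snd) ?_
      refine In.all (P := fun (y : W × W) (t : T) => K t y.1 → Φ t < y.2) (In.imp ?_ ?_)
      · exact In.comp2 (P := K) hK IF.snd (IF.comp IF.fst IF.fst)
      · exact In.ltW (IF.comp hΦ IF.snd) (IF.comp IF.snd IF.fst)) (fun ζ => by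
    obtain ⟨ξ₁, h1⟩ := ICt.bdd (M := M) (hct ζ)
      (In.comp2 (P := K) hK IF.id (IF.const ζ)) hΦ
    obtain ⟨ξ, h2⟩ := Om1.bdd (M := M) (fun _ : ℕ => max ζ ξ₁) (IF.const _)
    exact ⟨ξ, (le_max_left _ _).trans_lt (h2 0),
      fun t ht => (h1 t ht).trans ((le_max_right _ _).trans_lt (h2 0))⟩)
  have hs := IF.natRec (M := M) (S := ℕ) (a := fun _ : ℕ => ζ₀) (IF.const ζ₀)
    (g := fun y : ℕ × ℕ × W => θ y.2.2) (IF.comp hθ (IF.comp IF.snd IF.snd))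
  obtain ⟨s, hs, hs0, hs1⟩ : ∃ s : ℕ → W, IF M s ∧ s 0 = ζ₀ ∧ ∀ n, s (n + 1) = θ (s n) :=
    ⟨fun n => Nat.rec (motive := fun _ => W) ζ₀ (fun _ t => θ t) n,
      IF.comp hs ((IF.const 0).pair IF.id), rfl, fun n => rfl⟩
  obtain ⟨sup, -, hsup, hleast⟩ := exists_sup M (W := W)
  refine ⟨sup ⟨s, hs⟩, ?_, ?_⟩
  · rw [← hs0]
    exact hsup ⟨s, hs⟩ 0
  · rintro t ⟨η, hη, ht⟩
    obtain ⟨n, hn⟩ : ∃ n, η ≤ s n := by
      by_contra hno
      push Not at hno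
      exact absurd hη (not_lt.2 (hleast ⟨s, hs⟩ η hno))
    have h1 := (hθR (s n)).2 t (hmono t η (s n) hn ht)
    rw [← hs1] at h1
    exact h1.trans (hsup ⟨s, hs⟩ (n + 1))

/-- the finite sets with indices at most `η` -/
theorem ct_fin (η : W) : ICt M {N : Finset W × Finset (W × Fs) | (∀ a ∈ N.1, a ≤ η) ∧
    ∀ x ∈ N.2, x.1 ≤ η} := by
  obtain ⟨ξ, h2⟩ := Om1.bdd (M := M) (fun _ : ℕ => η) (IF.const _)
  refine ((ICt.finset (ICt.below ξ)).prod (ICt.stems ξ)).mono ?_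
  rintro N ⟨h3, h4⟩
  exact ⟨fun a ha => (h3 a ha).trans_lt (h2 0), fun x hx => (h4 x hx).trans_lt (h2 0)⟩

end

end Pool.Agent.H.MP_20495c_lc
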