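import Pool.Agent.H.MP_20495c_lc.S.S3a

/-!
# MP_20495c, block S (the step), part 3b: reflection and the countable chain condition
-/

set_option autoImplicit false
set_option linter.unusedSectionVars false

namespace Pool.Agent.H.MP_20495c_lc

open Pool.Agent.H.MP_a163f2_lc Pool.Agent.H.MP_07d118_lc

universe u v w

section

variable {M : Type u} [SetStr M] [ZFC M] [Std M] {W : Type v} [LinearOrder W] [Cd M W] [Om1 M W]
variable {c : W × Hc → ℕ → ℕ} [hL : Fact (Luz M W c)]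

/-- the nodes occurring in a condition -/
noncomputable def cnd (p : Cond W) : Finset W := by
  classical
  exact p.1.image (fun x => x.1) ∪ p.2.image (fun x => x.1)

theorem mem_cnd {p : Cond W} {a : W} : a ∈ cnd p ↔ (∃ m, (a, m) ∈ p.1) ∨ ∃ κ, (a, κ) ∈ p.2 := by
  unfold cnd
  simp only [Finset.mem_union, Finset.mem_image]
  constructor
  · rintro (⟨x, hx, e⟩ | ⟨x, hx, e⟩)
    · subst e
      exact Or.inl ⟨x.2, hx⟩
    · subst e
      exact Or.inr ⟨x.2, hx⟩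
  · rintro (⟨m, h⟩ | ⟨κ, h⟩)
    · exact Or.inl ⟨_, h, rfl⟩
    · exact Or.inr ⟨_, h, rfl⟩

theorem IF.cnd {T : Type w} [Cd M T] {p : T → Cond W} (hp : IF M p) :
    IF M (fun t => MP_20495c_lc.cnd (p t)) := by
  refine IF.of_fmem (A := fun t => MP_20495c_lc.cnd (p t)) ?_
  refine In.congr (In.or (In.ex (P := fun (y : T × W) (m : Fs) => (y.2, m) ∈ (p y.1).1) ?_)
    (In.ex (P := fun (y : T × W) (κ : W × Hc) => (y.2, κ) ∈ (p y.1).2) ?_)) (fun y => mem_cnd)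
  · exact In.fmem (IF.pair (IF.comp IF.snd IF.fst) IF.snd)
      (IF.comp IF.fst (IF.comp hp (IF.comp IF.fst IF.fst)))
  · exact In.fmem (IF.pair (IF.comp IF.snd IF.fst) IF.snd)
      (IF.comp IF.snd (IF.comp hp (IF.comp IF.fst IF.fst)))

/-- Conditions which have the same stems at their common nodes are compatible. -/
theorem compat_of_root {p q : Cond W}
    (h : ∀ a ∈ cnd p, a ∈ cnd q → ∀ m, (a, m) ∈ p.1 ↔ (a, m) ∈ q.1) :
    CLe c (cup p q) p ∧ CLe c (cup p q) q := by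
  constructor
  · refine ⟨fun x hx => mem_cup1.2 (Or.inl hx), fun x hx => mem_cup2.2 (Or.inl hx),
      fun ν m hm hm' κ hκ => ?_⟩
    rcases mem_cup1.1 hm with h1 | h1
    · exact absurd h1 hm'
    · exact absurd ((h ν (mem_cnd.2 (Or.inr ⟨κ, hκ⟩)) (mem_cnd.2 (Or.inl ⟨m, h1⟩)) m).2 h1) hm'
  · refine ⟨fun x hx => mem_cup1.2 (Or.inr hx), fun x hx => mem_cup2.2 (Or.inr hx),
      fun ν m hm hm' κ hκ => ?_⟩
    rcases mem_cup1.1 hm with h1 | h1
    · exact absurd ((h ν (mem_cnd.2 (Or.inl ⟨m, h1⟩)) (mem_cnd.2 (Or.inr ⟨κ, hκ⟩)) m).1 h1) hm'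
    · exact absurd h1 hm'

/-- finite sets below `ζ` are bounded below `ζ` -/
private theorem S3b_fin {ζ₀ ζ : W} (h0 : ζ₀ < ζ) (N : Finset W) (hN : ∀ a ∈ N, a < ζ) :
    ∃ η < ζ, ∀ a ∈ N, a ≤ η := by
  classical
  induction N using Finset.induction_on with
  | empty => exact ⟨ζ₀, h0, fun a ha => absurd ha (Finset.notMem_empty a)⟩
  | insert b N _ ih =>
    obtain ⟨η, h1, h2⟩ := ih (fun a ha => hN a (Finset.mem_insert_of_mem ha))
    refine ⟨max b η, max_lt (hN b (Finset.mem_insert_self b N)) h1, fun a ha => ?_⟩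
    rcases Finset.mem_insert.1 ha with rfl | ha
    · exact le_max_left _ _
    · exact (h2 a ha).trans (le_max_right _ _)

/-- the root of a condition below `ζ` -/
private theorem S3b_root {ζ₀ ζ : W} (h0 : ζ₀ < ζ) (q : Cond W) :
    ∃ N : Finset W, ∃ s : Finset (W × Fs), (∃ η < ζ, (∀ a ∈ N, a ≤ η) ∧ ∀ x ∈ s, x.1 ≤ η) ∧
      (∀ a ∈ N, ∀ m, (a, m) ∈ q.1 ↔ (a, m) ∈ s) ∧ ∀ a ∈ MP_20495c_lc.cnd q, a < ζ → a ∈ N := by
  classical
  obtain ⟨η, h1, h2⟩ := S3b_fin h0 ((MP_20495c_lc.cnd q).filter (fun a => a < ζ))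
    (fun a ha => (Finset.mem_filter.1 ha).2)
  refine ⟨(MP_20495c_lc.cnd q).filter (fun a => a < ζ), q.1.filter (fun x => x.1 < ζ),
    ⟨η, h1, h2, fun x hx => ?_⟩, fun a ha m => ?_, fun a ha h3 => Finset.mem_filter.2 ⟨ha, h3⟩⟩
  · have h3 := Finset.mem_filter.1 hx
    exact h2 x.1 (Finset.mem_filter.2 ⟨mem_cnd.2 (Or.inl ⟨x.2, h3.1⟩), h3.2⟩)
  · have h3 := (Finset.mem_filter.1 ha).2
    exact ⟨fun h => Finset.mem_filter.2 ⟨h, h3⟩, fun h => (Finset.mem_filter.1 h).1⟩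

/-- nodes of bounded conditions -/
private theorem S3b_bd {ζ : W} {r : Cond W} (h : Bd ζ r) {a : W} (ha : a ∈ MP_20495c_lc.cnd r) :
    a < ζ := by
  rcases mem_cnd.1 ha with ⟨m, h1⟩ | ⟨κ, h1⟩
  · exact h.1 a m h1
  · exact (h.2 a κ.1 κ.2 h1).1

/-- the stem of `p t` at the nodes of `N t` is `s t` -/
private theorem S3b_stem {T : Type w} [Cd M T] {p : T → Cond W} (hp : IF M p)
    {N : T → Finset W} (hN : IF M N) {s : T → Finset (W × Fs)} (hs : IF M s) :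
    In M (fun t => ∀ a : W, a ∈ N t → ∀ m : Fs, (a, m) ∈ (p t).1 ↔ (a, m) ∈ s t) := by
  refine In.all (P := fun (t : T) (a : W) => a ∈ N t → ∀ m : Fs,
    (a, m) ∈ (p t).1 ↔ (a, m) ∈ s t) (In.imp (In.fmem IF.snd (IF.comp hN IF.fst)) ?_)
  refine In.all (P := fun (y : T × W) (m : Fs) => (y.2, m) ∈ (p y.1).1 ↔ (y.2, m) ∈ s y.1)
    (In.iff ?_ ?_)
  · exact In.fmem (IF.pair (IF.comp IF.snd IF.fst) IF.snd)
      (IF.comp IF.fst (IF.comp hp (IF.comp IF.fst IF.fst)))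
  · exact In.fmem (IF.pair (IF.comp IF.snd IF.fst) IF.snd) (IF.comp hs (IF.comp IF.fst IF.fst))

/-- the bounds on finite sets are internal -/
private theorem S3b_le {T : Type w} [Cd M T] {N : T → Finset W} (hN : IF M N)
    {s : T → Finset (W × Fs)} (hs : IF M s) {η : T → W} (hη : IF M η) :
    In M (fun t => (∀ a : W, a ∈ N t → a ≤ η t) ∧ ∀ x : W × Fs, x ∈ s t → x.1 ≤ η t) := by
  refine In.and ?_ ?_
  · exact In.all (P := fun (t : T) (a : W) => a ∈ N t → a ≤ η t)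
      (In.imp (In.fmem IF.snd (IF.comp hN IF.fst)) (In.leW IF.snd (IF.comp hη IF.fst)))
  · exact In.all (P := fun (t : T) (x : W × Fs) => x ∈ s t → x.1 ≤ η t)
      (In.imp (In.fmem IF.snd (IF.comp hs IF.fst))
        (In.leW (IF.comp IF.fst IF.snd) (IF.comp hη IF.fst)))

/-- Reflection (delta system argument), general form. For every internal set `E` of
conditions with parameter `t : T` there are arbitrarily large `ζ` such that for `t` below `ζ` every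
member `q` of `E t` has a member `r` with indices below `ζ` with the same stems at their common
nodes.

Proof. Apply `exists_closed` to the type `T × Finset W × Finset (W × Fs)` (with
`K (t, N, s) η := K t η ∧ (∀ a ∈ N, a ≤ η) ∧ ∀ x ∈ s, x.1 ≤ η`) and the function
`Φ (t, N, s) := β (R (t, N, s))`, where `R (t, N, s)` is some `r` with `E t r`, `N ⊆ cnd r` and for all
`a ∈ N`, `(a, m) ∈ r.1 ↔ (a, m) ∈ s` (if there is one; `In.choice`) and `β r` an internal bound of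
`r` (`exists_Bd`, `In.choice`).  Given `q` in `E t`, let `N` be the set of the nodes of `q` below
`ζ` and `s` the part of the stem of `q` at these nodes; they are bounded by some `η < ζ`
(the maximum, or `ζ₀` if empty; for the parameter take the maximum of both bounds).
So `r := R (t, N, s)` has the property and `Bd ζ r`; a common node of `q` and `r` is below
`ζ`, so it is in `N`. -/
theorem reflect {T : Type w} [Cd M T] {K : T → W → Prop}
    (hK : In M (fun y : T × W => K y.1 y.2)) (hct : ∀ ζ, ICt M {t | K t ζ})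
    (hmono : ∀ t η η', η ≤ η' → K t η → K t η') {E : T → Cond W → Prop}
    (hE : In M (fun y : T × Cond W => E y.1 y.2)) (ζ₀ : W) :
    ∃ ζ, ζ₀ < ζ ∧ ∀ t, (∃ η < ζ, K t η) → ∀ q, E t q → ∃ r, E t r ∧ Bd ζ r ∧
      ∀ a ∈ cnd q, a ∈ cnd r → ∀ m, (a, m) ∈ q.1 ↔ (a, m) ∈ r.1 := by
  obtain ⟨Φ, hΦ, hR⟩ := In.choice (M := M)
    (R := fun (y : T × Finset W × Finset (W × Fs)) (β : W) =>
      (∃ r : Cond W, E y.1 r ∧ ∀ a : W, a ∈ y.2.1 → ∀ m : Fs, (a, m) ∈ r.1 ↔ (a, m) ∈ y.2.2) →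
      ∃ r : Cond W, E y.1 r ∧ Bd β r ∧
        ∀ a : W, a ∈ y.2.1 → ∀ m : Fs, (a, m) ∈ r.1 ↔ (a, m) ∈ y.2.2) (by
      refine In.imp ?_ ?_
      · refine In.ex (P := fun (z : (T × Finset W × Finset (W × Fs)) × W) (r : Cond W) =>
          E z.1.1 r ∧ ∀ a : W, a ∈ z.1.2.1 → ∀ m : Fs, (a, m) ∈ r.1 ↔ (a, m) ∈ z.1.2.2) ?_
        refine In.and (In.comp2 (P := E) hE (IF.comp IF.fst (IF.comp IF.fst IF.fst)) IF.snd) ?_
        exact S3b_stem IF.snd (IF.comp IF.fst (IF.comp IF.snd (IF.comp IF.fst IF.fst)))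
          (IF.comp IF.snd (IF.comp IF.snd (IF.comp IF.fst IF.fst)))
      · refine In.ex (P := fun (z : (T × Finset W × Finset (W × Fs)) × W) (r : Cond W) =>
          E z.1.1 r ∧ Bd z.2 r ∧
            ∀ a : W, a ∈ z.1.2.1 → ∀ m : Fs, (a, m) ∈ r.1 ↔ (a, m) ∈ z.1.2.2) ?_
        refine In.and (In.comp2 (P := E) hE (IF.comp IF.fst (IF.comp IF.fst IF.fst)) IF.snd) ?_
        refine In.and (In.bd (IF.comp IF.snd IF.fst) IF.snd) ?_
        exact S3b_stem IF.snd (IF.comp IF.fst (IF.comp IF.snd (IF.comp IF.fst IF.fst)))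
          (IF.comp IF.snd (IF.comp IF.snd (IF.comp IF.fst IF.fst)))) (by
    rintro ⟨t, N, s⟩
    by_cases h1 : ∃ r : Cond W, E t r ∧ ∀ a : W, a ∈ N → ∀ m : Fs, (a, m) ∈ r.1 ↔ (a, m) ∈ s
    · obtain ⟨r, h2, h3⟩ := h1
      obtain ⟨β, hβ⟩ := exists_Bd M r
      exact ⟨β, fun _ => ⟨r, h2, hβ, h3⟩⟩
    · exact ⟨ζ₀, fun h2 => absurd h2 h1⟩)
  obtain ⟨ζ, h0, hcl⟩ := exists_closed (M := M) (T := T × Finset W × Finset (W × Fs))
    (K := fun y η => K y.1 η ∧ (∀ a : W, a ∈ y.2.1 → a ≤ η) ∧ ∀ x : W × Fs, x ∈ y.2.2 → x.1 ≤ η)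
    (In.and (In.comp2 (P := K) hK (IF.comp IF.fst IF.fst) IF.snd)
      (S3b_le (IF.comp IF.fst (IF.comp IF.snd IF.fst)) (IF.comp IF.snd (IF.comp IF.snd IF.fst))
        IF.snd))
    (fun η => ((hct η).prod (ct_fin (M := M) η)).mono (fun y hy => ⟨hy.1, hy.2⟩))
    (fun y η η' hη h => ⟨hmono y.1 η η' hη h.1, fun a ha => (h.2.1 a ha).trans hη,
      fun x hx => (h.2.2 x hx).trans hη⟩) hΦ ζ₀
  refine ⟨ζ, h0, fun t ht q hq => ?_⟩
  obtain ⟨η₁, h1, h2⟩ := ht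
  obtain ⟨N, s, ⟨η₂, h3, h4, h5⟩, h6, h7⟩ := S3b_root h0 q
  have h8 := hcl (t, N, s) ⟨max η₁ η₂, max_lt h1 h3, hmono t η₁ _ (le_max_left _ _) h2,
    fun a ha => (h4 a ha).trans (le_max_right _ _), fun x hx => (h5 x hx).trans (le_max_right _ _)⟩
  obtain ⟨r, h9, h10, h11⟩ := hR (t, N, s) ⟨q, hq, h6⟩
  refine ⟨r, h9, h10.mono h8.le, fun a ha ha' m => ?_⟩
  have h12 : a ∈ N := h7 a ha ((S3b_bd h10 ha').trans h8)
  exact (h6 a h12 m).trans (h11 a h12 m).symm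

/-- Bounded predense parts of dense sets, for an arbitrary (unbounded) plan `g`. Use
`reflect` with `E t q := q ∈ PP c g ∧ D t q`, `compat_of_root` and `PP_cup`. -/
theorem predense_closed (g : Pl M W) {T : Type w} [Cd M T] {K : T → W → Prop}
    (hK : In M (fun y : T × W => K y.1 y.2)) (hct : ∀ ζ, ICt M {t | K t ζ})
    (hmono : ∀ t η η', η ≤ η' → K t η → K t η') {D : T → Cond W → Prop}
    (hD : In M (fun y : T × Cond W => D y.1 y.2))
    (hd : ∀ t, ∀ p ∈ PP c g, ∃ q ∈ PP c g, CLe c q p ∧ D t q) (ζ₀ : W) :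
    ∃ ζ, ζ₀ < ζ ∧ ∀ t, (∃ η < ζ, K t η) → ∀ p ∈ PP c g, ∃ q ∈ PP c g, D t q ∧ Bd ζ q ∧
      ∃ r ∈ PP c g, CLe c r p ∧ CLe c r q := by
  obtain ⟨ζ, h0, h1⟩ := reflect (M := M) (T := T) hK hct hmono
    (E := fun t q => q ∈ PP c g ∧ D t q) (In.and (In.pp (IF.const g) IF.snd) hD) ζ₀
  refine ⟨ζ, h0, fun t ht p hp => ?_⟩
  obtain ⟨q, h2, h3, h4⟩ := hd t p hp
  obtain ⟨r, ⟨h5, h6⟩, h7, h8⟩ := h1 t ht q ⟨h2, h4⟩
  obtain ⟨h9, h10⟩ := compat_of_root (c := c) h8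
  exact ⟨r, h5, h6, h7, cup q r, PP_cup h2 h5 h9 h10, h9.trans h3, h10⟩

/-- Countable chain condition of an arbitrary plan, for families indexed by `W`.

Proof. `In.choice` gives for every `(N, s)` an index `α` such that `N ⊆ cnd (p α)` and the stems of
`p α` at the nodes of `N` are given by `s` (if there is one); let `Φ (N, s) := max α (β (p α))` with
an internal bound `β` of conditions (`exists_Bd`, `In.choice`).  Take a closure point `ζ`
(`exists_closed` with `T := Finset W × Finset (W × Fs)`, `K` as in `ct_fin`), `N` := the nodes of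
`p ζ` below `ζ`, `s` := the stem of `p ζ` at `N`.  The chosen `α` is below `ζ`, `Bd ζ (p α)`, and
`p α`, `p ζ` are compatible by `compat_of_root`, `PP_cup`. -/
theorem ccc_plan (g : Pl M W) (p : W → Cond W) (hp : IF M p) (h : ∀ α, p α ∈ PP c g) :
    ∃ α β, α < β ∧ ∃ r ∈ PP c g, CLe c r (p α) ∧ CLe c r (p β) := by
  obtain ⟨ζ₀⟩ := Om1.ne (M := M) (W := W)
  obtain ⟨Φ, hΦ, hR⟩ := In.choice (M := M)
    (R := fun (y : Finset W × Finset (W × Fs)) (β : W) =>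
      (∃ α : W, ∀ a : W, a ∈ y.1 → ∀ m : Fs, (a, m) ∈ (p α).1 ↔ (a, m) ∈ y.2) →
      ∃ α : W, α < β ∧ Bd β (p α) ∧
        ∀ a : W, a ∈ y.1 → ∀ m : Fs, (a, m) ∈ (p α).1 ↔ (a, m) ∈ y.2) (by
      refine In.imp ?_ ?_
      · refine In.ex (P := fun (z : (Finset W × Finset (W × Fs)) × W) (α : W) =>
          ∀ a : W, a ∈ z.1.1 → ∀ m : Fs, (a, m) ∈ (p α).1 ↔ (a, m) ∈ z.1.2) ?_
        exact S3b_stem (IF.comp hp IF.snd) (IF.comp IF.fst (IF.comp IF.fst IF.fst))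
          (IF.comp IF.snd (IF.comp IF.fst IF.fst))
      · refine In.ex (P := fun (z : (Finset W × Finset (W × Fs)) × W) (α : W) =>
          α < z.2 ∧ Bd z.2 (p α) ∧
            ∀ a : W, a ∈ z.1.1 → ∀ m : Fs, (a, m) ∈ (p α).1 ↔ (a, m) ∈ z.1.2) ?_
        refine In.and (In.ltW IF.snd (IF.comp IF.snd IF.fst)) ?_
        refine In.and (In.bd (IF.comp IF.snd IF.fst) (IF.comp hp IF.snd)) ?_
        exact S3b_stem (IF.comp hp IF.snd) (IF.comp IF.fst (IF.comp IF.fst IF.fst))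
          (IF.comp IF.snd (IF.comp IF.fst IF.fst))) (by
    rintro ⟨N, s⟩
    by_cases h1 : ∃ α : W, ∀ a : W, a ∈ N → ∀ m : Fs, (a, m) ∈ (p α).1 ↔ (a, m) ∈ s
    · obtain ⟨α, h2⟩ := h1
      obtain ⟨β, hβ⟩ := exists_Bd M (p α)
      obtain ⟨β', hβ'⟩ := Om1.bdd (M := M) (fun _ : ℕ => max α β) (IF.const _)
      refine ⟨β', fun _ => ⟨α, lt_of_le_of_lt (le_max_left _ _) (hβ' 0),
        hβ.mono (lt_of_le_of_lt (le_max_right _ _) (hβ' 0)).le, h2⟩⟩
    · exact ⟨ζ₀, fun h2 => absurd h2 h1⟩)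
  obtain ⟨ζ, h0, hcl⟩ := exists_closed (M := M) (T := Finset W × Finset (W × Fs))
    (K := fun y η => (∀ a : W, a ∈ y.1 → a ≤ η) ∧ ∀ x : W × Fs, x ∈ y.2 → x.1 ≤ η)
    (S3b_le (IF.comp IF.fst IF.fst) (IF.comp IF.snd IF.fst) IF.snd)
    (fun η => ct_fin (M := M) η)
    (fun y η η' hη h => ⟨fun a ha => (h.1 a ha).trans hη, fun x hx => (h.2 x hx).trans hη⟩) hΦ ζ₀
  obtain ⟨N, s, ⟨η, h3, h4, h5⟩, h6, h7⟩ := S3b_root h0 (p ζ)
  have h8 := hcl (N, s) ⟨η, h3, h4, h5⟩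
  obtain ⟨α, h9, h10, h11⟩ := hR (N, s) ⟨ζ, h6⟩
  obtain ⟨h13, h14⟩ := compat_of_root (c := c) (p := p α) (q := p ζ) (fun a ha ha' m => by
    have h12 : a ∈ N := h7 a ha' ((S3b_bd h10 ha).trans h8)
    exact (h11 a h12 m).trans (h6 a h12 m).symm)
  exact ⟨α, ζ, h9.trans h8, cup (p α) (p ζ), PP_cup (h α) (h ζ) h13 h14, h13, h14⟩

end

end Pool.Agent.H.MP_20495c_lc
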