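import Pool.Agent.H.MP_20495c_lc.S.S3b
import Pool.Agent.H.MP_20495c_lc.S.S2

/-!
# MP_20495c, block S (the step), part 3c: names over the unbounded plan
-/

set_option autoImplicit false
set_option linter.unusedSectionVars false

namespace Pool.Agent.H.MP_20495c_lc

open Pool.Agent.H.MP_a163f2_lc Pool.Agent.H.MP_07d118_lc

universe u v w

section

variable {M : Type u} [SetStr M] [ZFC M] [Std M] {W : Type v} [LinearOrder W] [Cd M W] [Om1 M W]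
variable {c : W × Hc → ℕ → ℕ} [hL : Fact (Luz M W c)]

variable (D : StepD M W c)

/-- Names over `F` of relations with a bounded domain are equivalent to names over `f ζ`.

Proof. Apply `predense_closed` for the plan `D.F` to
`D t q := (∃ p, (t, p) ∈ R ∧ p ∈ PP c D.F ∧ CLe c q p) ∨ ∀ p, (t, p) ∈ R → p ∈ PP c D.F →
¬ ∃ r ∈ PP c D.F, CLe c r p ∧ CLe c r q`, and let
`R' := {(t, q) : q ∈ PP c D.F ∧ Bd ζ q ∧ ∃ p, (t, p) ∈ R ∧ p ∈ PP c D.F ∧ CLe c q p}`; its conditions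
are in `PP c (D.f ζ)` by `pp_of_bd`.  A generic `G` meets the internal predense set
`{q | D t q ∧ Bd ζ q}` (i.e. its downward closure, then go up). -/
theorem StepD.name_closed {T : Type w} [Cd M T] {K : T → W → Prop}
    (hK : In M (fun y : T × W => K y.1 y.2)) (hct : ∀ ζ, ICt M {t | K t ζ})
    (hmono : ∀ t η η', η ≤ η' → K t η → K t η') (R : ISet M (T × Cond W)) (ζ₀ : W) :
    ∃ ζ, ζ₀ < ζ ∧ ∃ R' : ISet M (T × Cond W), (∀ t q, (t, q) ∈ R' → q ∈ PP c (D.f ζ)) ∧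
      ∀ G, Gen c D.F G → ∀ t, (∃ η < ζ, K t η) →
        ((∃ p ∈ G, (t, p) ∈ R) ↔ ∃ p ∈ G, (t, p) ∈ R') := by
  have hDD : In M (fun y : T × Cond W =>
      (∃ p : Cond W, (y.1, p) ∈ R ∧ p ∈ PP c D.F ∧ CLe c y.2 p) ∨
        ∀ p : Cond W, (y.1, p) ∈ R → p ∈ PP c D.F →
          ¬ ∃ r : Cond W, r ∈ PP c D.F ∧ CLe c r p ∧ CLe c r y.2) := by
    refine In.or ?_ ?_
    · refine In.ex (P := fun (y : T × Cond W) (p : Cond W) =>
        (y.1, p) ∈ R ∧ p ∈ PP c D.F ∧ CLe c y.2 p) ?_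
      exact In.and (In.mem ((IF.comp IF.fst IF.fst).pair IF.snd) (IF.const R))
        (In.and (In.pp (IF.const _) IF.snd) (In.cle (IF.comp IF.snd IF.fst) IF.snd))
    · refine In.all (P := fun (y : T × Cond W) (p : Cond W) => (y.1, p) ∈ R → p ∈ PP c D.F →
          ¬ ∃ r : Cond W, r ∈ PP c D.F ∧ CLe c r p ∧ CLe c r y.2) ?_
      refine In.imp (In.mem ((IF.comp IF.fst IF.fst).pair IF.snd) (IF.const R))
        (In.imp (In.pp (IF.const _) IF.snd) (In.not ?_))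
      refine In.ex (P := fun (y : (T × Cond W) × Cond W) (r : Cond W) =>
        r ∈ PP c D.F ∧ CLe c r y.2 ∧ CLe c r y.1.2) ?_
      exact In.and (In.pp (IF.const _) IF.snd) (In.and (In.cle IF.snd (IF.comp IF.snd IF.fst))
        (In.cle IF.snd (IF.comp IF.snd (IF.comp IF.fst IF.fst))))
  obtain ⟨ζ, hζ, hζ1⟩ := predense_closed (c := c) D.F hK hct hmono
    (D := fun (t : T) (q : Cond W) => (∃ p : Cond W, (t, p) ∈ R ∧ p ∈ PP c D.F ∧ CLe c q p) ∨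
        ∀ p : Cond W, (t, p) ∈ R → p ∈ PP c D.F →
          ¬ ∃ r : Cond W, r ∈ PP c D.F ∧ CLe c r p ∧ CLe c r q) hDD (by
      intro t p₀ hp₀
      by_cases h : ∃ p : Cond W, (t, p) ∈ R ∧ p ∈ PP c D.F ∧
          ∃ r : Cond W, r ∈ PP c D.F ∧ CLe c r p ∧ CLe c r p₀
      · obtain ⟨p, h1, h2, r, h3, h4, h5⟩ := h
        exact ⟨r, h3, h5, Or.inl ⟨p, h1, h2, h4⟩⟩
      · exact ⟨p₀, hp₀, CLe.refl _, Or.inr fun p h1 h2 h3 => h ⟨p, h1, h2, h3⟩⟩) ζ₀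
  have hR' : In M (fun y : T × Cond W => y.2 ∈ PP c D.F ∧ Bd ζ y.2 ∧
      ∃ p : Cond W, (y.1, p) ∈ R ∧ p ∈ PP c D.F ∧ CLe c y.2 p) := by
    refine In.and (In.pp (IF.const _) IF.snd) (In.and (In.bd (IF.const ζ) IF.snd) ?_)
    refine In.ex (P := fun (y : T × Cond W) (p : Cond W) =>
      (y.1, p) ∈ R ∧ p ∈ PP c D.F ∧ CLe c y.2 p) ?_
    exact In.and (In.mem ((IF.comp IF.fst IF.fst).pair IF.snd) (IF.const R))
      (In.and (In.pp (IF.const _) IF.snd) (In.cle (IF.comp IF.snd IF.fst) IF.snd))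
  refine ⟨ζ, hζ, ISet.mk hR', ?_, ?_⟩
  · rintro t q ⟨h1, h2, -⟩
    exact D.pp_of_bd h1 h2
  · intro G hG t ht
    constructor
    · rintro ⟨p, hp, hpR⟩
      have hE : In M (fun r : Cond W => ∃ q : Cond W, q ∈ PP c D.F ∧
          ((∃ p : Cond W, (t, p) ∈ R ∧ p ∈ PP c D.F ∧ CLe c q p) ∨
            ∀ p : Cond W, (t, p) ∈ R → p ∈ PP c D.F →
              ¬ ∃ r : Cond W, r ∈ PP c D.F ∧ CLe c r p ∧ CLe c r q) ∧ Bd ζ q ∧ CLe c r q) := by
        refine In.ex (P := fun (r q : Cond W) => q ∈ PP c D.F ∧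
          ((∃ p : Cond W, (t, p) ∈ R ∧ p ∈ PP c D.F ∧ CLe c q p) ∨
            ∀ p : Cond W, (t, p) ∈ R → p ∈ PP c D.F →
              ¬ ∃ r : Cond W, r ∈ PP c D.F ∧ CLe c r p ∧ CLe c r q) ∧ Bd ζ q ∧ CLe c r q) ?_
        refine In.and (In.pp (IF.const _) IF.snd) (In.and ?_ (In.and
          (In.bd (IF.const ζ) IF.snd) (In.cle IF.fst IF.snd)))
        exact In.comp (f := fun y : Cond W × Cond W => (t, y.2)) hDD ((IF.const t).pair IF.snd)
      obtain ⟨r, hr, q, hq, hD, hb, hle⟩ := hG.meets (ISet.mk hE) (by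
        intro p₀ hp₀
        obtain ⟨q, h1, h2, h3, r, h4, h5, h6⟩ := hζ1 t ht p₀ hp₀
        exact ⟨r, h4, h5, q, h1, h2, h3, h6⟩)
      have hqG : q ∈ G := hG.up r hr q hq hle
      rcases hD with hD | hD
      · exact ⟨q, hqG, hq, hb, hD⟩
      · obtain ⟨r', hr', h1, h2⟩ := hG.dir p hp q hqG
        exact absurd ⟨r', hG.sub r' hr', h1, h2⟩ (hD p hpR (hG.sub p hp))
    · rintro ⟨q, hq, -, -, p, hp, hpP, hle⟩
      exact ⟨p, hG.up q hq p hpP hle, hp⟩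

end

end Pool.Agent.H.MP_20495c_lc
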