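import Pool.Agent.H.MP_20495c_lc.S.S1

/-!
# MP_20495c, block S (the step), part 4a: deciding the real of a default node

`Rdy c p v s`: the condition `p` decides the initial segment `s` of `xr (yy G v)` and says nothing
about the digits from `s.length` on.
-/

set_option autoImplicit false
set_option linter.unusedSectionVars false

namespace Pool.Agent.H.MP_20495c_lc

open Pool.Agent.H.MP_a163f2_lc Pool.Agent.H.MP_07d118_lc

universe u v w

section

variable {W : Type v} [LinearOrder W]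

/-- `p` decides exactly the initial segment `s` of the real of the default node `v`. -/
structure Rdy (c : W × Hc → ℕ → ℕ) (p : Cond W) (v : W) (s : Fs) : Prop where
  stem : ∀ i < s.length, (v, [i, s.getD i 0]) ∈ p.1
  least : ∀ i < s.length, ∀ j < s.getD i 0, (v, [i, j]) ∉ p.1 ∧
    ∃ κ : W × Hc, (v, κ) ∈ p.2 ∧ Pre (c κ) [i, j]
  free : ∀ i j, s.length ≤ i → (v, [i, j]) ∉ p.1
  prom : ∀ κ : W × Hc, (v, κ) ∈ p.2 → c κ 0 < s.length

/-- `p'` agrees with `p` at all nodes outside of `A`. -/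
def AgO (A : Set W) (p' p : Cond W) : Prop :=
  (∀ x : W × Fs, x.1 ∉ A → (x ∈ p'.1 ↔ x ∈ p.1)) ∧ ∀ x : W × W × Hc, x.1 ∉ A → (x ∈ p'.2 ↔ x ∈ p.2)

theorem AgO.refl (A : Set W) (p : Cond W) : AgO A p p := ⟨fun _ _ => Iff.rfl, fun _ _ => Iff.rfl⟩

theorem AgO.trans {A : Set W} {p q r : Cond W} (h : AgO A p q) (h' : AgO A q r) : AgO A p r :=
  ⟨fun x hx => (h.1 x hx).trans (h'.1 x hx), fun x hx => (h.2 x hx).trans (h'.2 x hx)⟩

theorem AgO.mono {A B : Set W} (hAB : A ⊆ B) {p q : Cond W} (h : AgO A p q) : AgO B p q :=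
  ⟨fun x hx => h.1 x fun h' => hx (hAB h'), fun x hx => h.2 x fun h' => hx (hAB h')⟩

theorem Rdy.congr {c : W × Hc → ℕ → ℕ} {p p' : Cond W} {v : W} {s : Fs} (h : Rdy c p v s)
    {A : Set W} (hA : AgO A p' p) (hv : v ∉ A) : Rdy c p' v s where
  stem i hi := (hA.1 _ hv).2 (h.stem i hi)
  least i hi j hj := by
    obtain ⟨h1, κ, h2, h3⟩ := h.least i hi j hj
    exact ⟨fun h4 => h1 ((hA.1 _ hv).1 h4), κ, (hA.2 _ hv).2 h2, h3⟩
  free i j hi h1 := h.free i j hi ((hA.1 _ hv).1 h1)
  prom κ hκ := h.prom κ ((hA.2 _ hv).1 hκ)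

end

section

variable {M : Type u} [SetStr M] [ZFC M] [Std M] {W : Type v} [LinearOrder W] [Cd M W] [Om1 M W]
variable {c : W × Hc → ℕ → ℕ} [hL : Fact (Luz M W c)]

omit [ZFC M] [Std M] [Cd M W] [Om1 M W] [SetStr M] [LinearOrder W] in
private theorem s4a_pre {x : ℕ → ℕ} {i j : ℕ} : Pre x [i, j] ↔ x 0 = i ∧ x 1 = j := by
  simp [Pre, ini, List.range_succ]

/-- General form of `add_digit`. -/
private theorem s4a_add {g : Pl M W} {v : W} (hv : (v, (∅, ∅), []) ∈ g) {p : Cond W}
    (hp : p ∈ PP c g) {i j : ℕ}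
    (h1 : (v, [i, j]) ∉ p.1 → ∀ κ : W × Hc, (v, κ) ∈ p.2 → ¬ Pre (c κ) [i, j]) :
    ∃ p' ∈ PP c g, CLe c p' p ∧ AgO {v} p' p ∧ (v, [i, j]) ∈ p'.1 ∧
      (∀ i' j', (v, [i', j']) ∈ p'.1 → (v, [i', j']) ∈ p.1 ∨ (i' = i ∧ j' = j)) ∧
      (∀ j' < j, ∃ κ : W × Hc, (v, κ) ∈ p'.2 ∧ Pre (c κ) [i, j']) ∧
      ∀ κ : W × Hc, (v, κ) ∈ p'.2 → (v, κ) ∈ p.2 ∨ c κ 0 = i := by
  classical
  let P : Finset (W × W × Hc) := (Finset.range j).image (fun j' => (v, v, ([[]], [i, j'])))
  have hP : ∀ x : W × W × Hc, x ∈ P ↔ ∃ j' < j, x = (v, v, ([[]], [i, j'])) := by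
    intro x
    simp only [P, Finset.mem_image, Finset.mem_range]
    exact ⟨fun ⟨j', h, e⟩ => ⟨j', h, e.symm⟩, fun ⟨j', h, e⟩ => ⟨j', h, e.symm⟩⟩
  have hle : CLe c (insert (v, [i, j]) p.1, p.2 ∪ P) p := by
    refine ⟨fun x hx => Finset.mem_insert_of_mem hx, fun x hx => Finset.mem_union_left _ hx,
      fun ν m hm hm' κ hκ => ?_⟩
    rcases Finset.mem_insert.1 hm with e | h2
    · have e1 : ν = v := congrArg Prod.fst e
      have e2 : m = [i, j] := congrArg Prod.snd e
      subst e1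
      subst e2
      exact h1 hm' κ hκ
    · exact absurd h2 hm'
  refine ⟨(insert (v, [i, j]) p.1, p.2 ∪ P), ⟨?_, ?_⟩, hle, ⟨?_, ?_⟩, ?_, ?_, ?_, ?_⟩
  · intro ν m hm
    rcases Finset.mem_insert.1 hm with e | h2
    · have e1 : ν = v := congrArg Prod.fst e
      subst e1
      exact ⟨_, _, hv⟩
    · exact hp.1 ν m h2
  · intro ν κ hκ
    rcases Finset.mem_union.1 hκ with h2 | h2
    · obtain ⟨q, t, h3, h4, h5⟩ := hp.2 ν κ h2
      exact ⟨q, t, h3, hle.trans h4, h5⟩
    · obtain ⟨j', hj', e⟩ := (hP _).1 h2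
      have e1 : ν = v := congrArg Prod.fst e
      have e2 : κ = (v, ([[]], [i, j'])) := congrArg Prod.snd e
      subst e1
      subst e2
      exact ⟨_, _, hv, le_empty _, [], by simp, List.prefix_rfl⟩
  · intro x hx
    constructor
    · intro h
      rcases Finset.mem_insert.1 h with e | h2
      · exact absurd (by rw [e]; rfl) hx
      · exact h2
    · intro h
      exact Finset.mem_insert_of_mem h
  · intro x hx
    constructor
    · intro h
      rcases Finset.mem_union.1 h with h2 | h2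
      · exact h2
      · obtain ⟨j', hj', e⟩ := (hP _).1 h2
        exact absurd (by rw [e]; rfl) hx
    · intro h
      exact Finset.mem_union_left _ h
  · exact Finset.mem_insert_self _ _
  · intro i' j' h
    rcases Finset.mem_insert.1 h with e | h2
    · right
      have e2 : [i', j'] = [i, j] := congrArg Prod.snd e
      simpa using e2
    · exact Or.inl h2
  · intro j' hj'
    refine ⟨(v, ([[]], [i, j'])), Finset.mem_union_right _ ((hP _).2 ⟨j', hj', rfl⟩), ?_⟩
    exact hL.out.pre v [[]] [i, j']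
  · intro κ hκ
    rcases Finset.mem_union.1 hκ with h2 | h2
    · exact Or.inl h2
    · right
      obtain ⟨j', hj', e⟩ := (hP _).1 h2
      have e2 : κ = (v, ([[]], [i, j'])) := congrArg Prod.snd e
      subst e2
      exact (s4a_pre.1 (hL.out.pre v [[]] [i, j'])).1

/-- Adding the stem `[i, j]` and the promises `(ξ, ([[]], [i, j']))`, `j' < j`, at the default node
`v`.  (`Luz.pre`: `c (ξ, (L, τ))` extends `τ`, so this promise excludes exactly `[i, j']` among the
sequences of length two; the promise is legal because `[] <+: []` and `(v, (∅,∅), [])` is in `g`.)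
It is allowed if no promise of `p` at `v` has `c κ 0 = i` and no stem of `p` at `v` has the form `[i, _]`. -/
theorem add_digit {g : Pl M W} {v : W} (hv : (v, (∅, ∅), []) ∈ g) {p : Cond W} (hp : p ∈ PP c g)
    {i j : ℕ} (h1 : ∀ κ : W × Hc, (v, κ) ∈ p.2 → c κ 0 ≠ i) (h2 : ∀ j', (v, [i, j']) ∉ p.1) :
    ∃ p' ∈ PP c g, CLe c p' p ∧ AgO {v} p' p ∧ (v, [i, j]) ∈ p'.1 ∧
      (∀ i' j', (v, [i', j']) ∈ p'.1 → (v, [i', j']) ∈ p.1 ∨ (i' = i ∧ j' = j)) ∧
      (∀ j' < j, ∃ κ : W × Hc, (v, κ) ∈ p'.2 ∧ Pre (c κ) [i, j']) ∧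
      ∀ κ : W × Hc, (v, κ) ∈ p'.2 → (v, κ) ∈ p.2 ∨ c κ 0 = i :=
  s4a_add hv hp fun _ κ hκ h => h1 κ hκ (s4a_pre.1 h).1

private theorem s4a_snoc {g : Pl M W} {v : W} (hv : (v, (∅, ∅), []) ∈ g) {p : Cond W}
    (hp : p ∈ PP c g) {s : Fs} (h : Rdy c p v s) (a : ℕ) :
    ∃ p' ∈ PP c g, CLe c p' p ∧ AgO {v} p' p ∧ Rdy c p' v (s ++ [a]) := by
  obtain ⟨p', hp', hle, hag, g1, g2, g3, g4⟩ := add_digit hv hp (i := s.length) (j := a)
    (fun κ hκ => (h.prom κ hκ).ne) (fun j' => h.free s.length j' le_rfl)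
  refine ⟨p', hp', hle, hag, ?_, ?_, ?_, ?_⟩
  · intro i hi
    rw [List.length_append, List.length_singleton] at hi
    rcases Nat.lt_succ_iff_lt_or_eq.1 hi with h1 | rfl
    · rw [List.getD_append _ _ _ _ h1]
      exact hle.1 (h.stem i h1)
    · rw [List.getD_append_right _ _ _ _ le_rfl]
      simpa using g1
  · intro i hi j hj
    rw [List.length_append, List.length_singleton] at hi
    rcases Nat.lt_succ_iff_lt_or_eq.1 hi with h1 | rfl
    · rw [List.getD_append _ _ _ _ h1] at hj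
      obtain ⟨h2, κ, h3, h4⟩ := h.least i h1 j hj
      refine ⟨fun h5 => ?_, κ, hle.2.1 h3, h4⟩
      rcases g2 i j h5 with h6 | h6
      · exact h2 h6
      · exact absurd h6.1 h1.ne
    · rw [List.getD_append_right _ _ _ _ le_rfl] at hj
      have hj' : j < a := by simpa using hj
      refine ⟨fun h5 => ?_, g3 j hj'⟩
      rcases g2 _ j h5 with h6 | h6
      · exact h.free _ j le_rfl h6
      · exact absurd h6.2 hj'.ne
  · intro i j hi h5
    rw [List.length_append, List.length_singleton] at hi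
    rcases g2 i j h5 with h6 | h6
    · exact h.free i j (by omega) h6
    · omega
  · intro κ hκ
    rw [List.length_append, List.length_singleton]
    rcases g4 κ hκ with h6 | h6
    · exact (h.prom κ h6).trans (Nat.lt_succ_self _)
    · rw [h6]
      exact Nat.lt_succ_self _

/-- A condition which decides exactly `s` has an extension which decides exactly `s'`, for every
`s'` extending `s` (induction on the length of `s'`, `add_digit`). -/
theorem Rdy.extend {g : Pl M W} {v : W} (hv : (v, (∅, ∅), []) ∈ g) {p : Cond W} (hp : p ∈ PP c g)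
    {s s' : Fs} (h : Rdy c p v s) (hs : s <+: s') :
    ∃ p' ∈ PP c g, CLe c p' p ∧ AgO {v} p' p ∧ Rdy c p' v s' := by
  obtain ⟨t, rfl⟩ := hs
  induction t using List.reverseRecOn with
  | nil => exact ⟨p, hp, CLe.refl p, AgO.refl _ p, by rwa [List.append_nil]⟩
  | append_singleton t a ih =>
    obtain ⟨p₁, hp₁, hle, hag, hr⟩ := ih
    obtain ⟨p', hp', hle', hag', hr'⟩ := s4a_snoc hv hp₁ hr a
    refine ⟨p', hp', hle'.trans hle, hag'.trans hag, ?_⟩
    rwa [← List.append_assoc]

/-- Every condition has an extension which decides exactly some `s`.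

Proof. Let `n` be larger than all `c κ 0` (`κ` a promise of `p` at `v`) and all first entries of
stems of `p` at `v`.  For `i < n` in turn: if there are stems `[i, j]` in the condition, let `j` be
the least one; otherwise add a stem `[i, j]` with `j` different from all `c κ 1` (then no promise at
`v` is violated).  Then add the promises `(ξ, ([[]], [i, j']))` for `j' < j` (adding promises is
always allowed; `ξ` arbitrary).  All of this is at the node `v`, and only stems `[i, _]`, `i < n`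
and promises with `c κ 0 < n` are added. -/
theorem exists_rdy {g : Pl M W} {v : W} (hv : (v, (∅, ∅), []) ∈ g) {p : Cond W}
    (hp : p ∈ PP c g) : ∃ p' ∈ PP c g, CLe c p' p ∧ AgO {v} p' p ∧ ∃ s, Rdy c p' v s := by
  classical
  obtain ⟨n1, hn1⟩ : ∃ n1 : ℕ, ∀ x ∈ p.2, c x.2 0 < n1 :=
    ⟨p.2.sup (fun x => c x.2 0) + 1, fun x hx =>
      Nat.lt_succ_of_le (Finset.le_sup (f := fun x : W × W × Hc => c x.2 0) hx)⟩
  obtain ⟨n2, hn2⟩ : ∃ n2 : ℕ, ∀ x ∈ p.1, x.2.getD 0 0 < n2 :=
    ⟨p.1.sup (fun x => x.2.getD 0 0) + 1, fun x hx =>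
      Nat.lt_succ_of_le (Finset.le_sup (f := fun x : W × Fs => x.2.getD 0 0) hx)⟩
  have key : ∀ m ≤ max n1 n2, ∃ p' ∈ PP c g, CLe c p' p ∧ AgO {v} p' p ∧ ∃ s : Fs, s.length = m ∧
      (∀ i < s.length, (v, [i, s.getD i 0]) ∈ p'.1) ∧
      (∀ i < s.length, ∀ j < s.getD i 0, (v, [i, j]) ∉ p'.1 ∧
        ∃ κ : W × Hc, (v, κ) ∈ p'.2 ∧ Pre (c κ) [i, j]) ∧
      (∀ i j, max n1 n2 ≤ i → (v, [i, j]) ∉ p'.1) ∧
      (∀ κ : W × Hc, (v, κ) ∈ p'.2 → c κ 0 < max n1 n2) := by
    intro m
    induction m with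
    | zero =>
      intro _
      refine ⟨p, hp, CLe.refl p, AgO.refl _ p, [], rfl, ?_, ?_, ?_, ?_⟩
      · intro i hi
        exact absurd hi (Nat.not_lt_zero _)
      · intro i hi
        exact absurd hi (Nat.not_lt_zero _)
      · intro i j hi hm
        have h1 := hn2 _ hm
        have h2 : i < n2 := by simpa using h1
        exact absurd (h2.trans_le (le_max_right n1 n2)) (not_lt.2 hi)
      · intro κ hκ
        exact (hn1 _ hκ).trans_le (le_max_left n1 n2)
    | succ m ih =>
      intro hm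
      obtain ⟨q, hq, hle, hag, s, hs, h1, h2, h3, h4⟩ := ih (by omega)
      obtain ⟨j, hj1, hj2⟩ : ∃ j : ℕ, ((v, [m, j]) ∉ q.1 → ∀ κ : W × Hc, (v, κ) ∈ q.2 →
          ¬ Pre (c κ) [m, j]) ∧ ∀ j' < j, (v, [m, j']) ∉ q.1 := by
        by_cases hex : ∃ j, (v, [m, j]) ∈ q.1
        · exact ⟨Nat.find hex, fun h => absurd (Nat.find_spec hex) h,
            fun j' hj' => Nat.find_min hex hj'⟩
        · refine ⟨q.2.sup (fun x => c x.2 1) + 1, fun _ κ hκ hpre => ?_, fun j' _ h => hex ⟨j', h⟩⟩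
          have h5 := Finset.le_sup (f := fun x : W × W × Hc => c x.2 1) hκ
          have h6 := (s4a_pre.1 hpre).2
          have h7 : c κ 1 ≤ q.2.sup (fun x => c x.2 1) := h5
          omega
      obtain ⟨p', hp', hle', hag', g1, g2, g3, g4⟩ := s4a_add hv hq hj1
      refine ⟨p', hp', hle'.trans hle, hag'.trans hag, s ++ [j], ?_, ?_, ?_, ?_, ?_⟩
      · rw [List.length_append, List.length_singleton, hs]
      · intro i hi
        rw [List.length_append, List.length_singleton] at hi
        rcases Nat.lt_succ_iff_lt_or_eq.1 hi with h5 | rfl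
        · rw [List.getD_append _ _ _ _ h5]
          exact hle'.1 (h1 i h5)
        · rw [List.getD_append_right _ _ _ _ le_rfl]
          rw [hs]
          simpa using g1
      · intro i hi k hk
        rw [List.length_append, List.length_singleton] at hi
        rcases Nat.lt_succ_iff_lt_or_eq.1 hi with h5 | rfl
        · rw [List.getD_append _ _ _ _ h5] at hk
          obtain ⟨h6, κ, h7, h8⟩ := h2 i h5 k hk
          refine ⟨fun h9 => ?_, κ, hle'.2.1 h7, h8⟩
          rcases g2 i k h9 with h10 | h10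
          · exact h6 h10
          · omega
        · rw [List.getD_append_right _ _ _ _ le_rfl] at hk
          have hk' : k < j := by simpa using hk
          rw [hs]
          refine ⟨fun h9 => ?_, g3 k hk'⟩
          rcases g2 _ k h9 with h10 | h10
          · exact hj2 k hk' h10
          · omega
      · intro i k hi h9
        rcases g2 i k h9 with h10 | h10
        · exact h3 i k hi h10
        · omega
      · intro κ hκ
        rcases g4 κ hκ with h10 | h10
        · exact h4 κ h10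
        · omega
  obtain ⟨p', hp', hle, hag, s, hs, h1, h2, h3, h4⟩ := key _ le_rfl
  refine ⟨p', hp', hle, hag, s, h1, h2, ?_, ?_⟩
  · rw [hs]
    exact h3
  · rw [hs]
    exact h4

/-- The decided part is an initial segment of the real: the digit `i < s.length` is the least `j`
with `[i, j] ∈ yy G v`; a smaller `[i, j]` in `yy G v` is a stem of a common extension `r` in `G` of
`p` and the condition giving it, and violates the promise of `p`, as it is not a stem of `p`. -/
theorem Rdy.pre {g : Pl M W} {G : Set (Cond W)} (hG : Gen c g G) {p : Cond W} (hp : p ∈ G) {v : W}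
    {s : Fs} (h : Rdy c p v s) : Pre (xr (yy G v)) s := by
  classical
  have key : ∀ i < s.length, xr (yy G v) i = s.getD i 0 := by
    intro i hi
    have h1 : [i, s.getD i 0] ∈ yy G v := ⟨p, hp, h.stem i hi⟩
    have hex : ∃ j, [i, j] ∈ yy G v := ⟨_, h1⟩
    have hx : xr (yy G v) i = Nat.find hex := by
      unfold xr
      rw [dif_pos hex]
    rw [hx]
    apply le_antisymm
    · exact Nat.find_min' hex h1
    · by_contra hlt
      push Not at hlt
      obtain ⟨h2, κ, h3, h4⟩ := h.least i hi _ hlt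
      obtain ⟨q, hq, h5⟩ := Nat.find_spec hex
      obtain ⟨r, hr, h6, h7⟩ := hG.dir p hp q hq
      exact h6.2.2 v _ (h7.1 h5) h2 κ h3 h4
  unfold Pre ini
  apply List.ext_getElem
  · simp
  · intro i h1 h2
    rw [List.getElem_map, List.getElem_range, key i h2, List.getD_eq_getElem _ _ h2]

/-- the versions for finitely many distinct default nodes: induction on the list, `Rdy.congr` -/
theorem exists_rdyL {g : Pl M W} {p : Cond W} (hp : p ∈ PP c g) (L : List W) (hL' : L.Nodup)
    (hv : ∀ v ∈ L, (v, (∅, ∅), []) ∈ g) :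
    ∃ p' ∈ PP c g, CLe c p' p ∧ AgO {v | v ∈ L} p' p ∧
      ∃ S : List Fs, List.Forall₂ (fun v s => Rdy c p' v s) L S := by
  induction L with
  | nil => exact ⟨p, hp, CLe.refl p, AgO.refl _ p, [], List.Forall₂.nil⟩
  | cons v L ih =>
    obtain ⟨hvL, hL''⟩ := List.nodup_cons.1 hL'
    obtain ⟨p₁, hp₁, hle, hag, S, hS⟩ := ih hL'' (fun w hw => hv w (List.mem_cons_of_mem _ hw))
    obtain ⟨p₂, hp₂, hle₂, hag₂, s, hs⟩ := exists_rdy (hv v List.mem_cons_self) hp₁
    refine ⟨p₂, hp₂, hle₂.trans hle, ?_, s :: S, List.Forall₂.cons hs ?_⟩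
    · refine AgO.trans (hag₂.mono ?_) (hag.mono ?_)
      · intro w hw
        rw [Set.mem_singleton_iff] at hw
        rw [hw]
        exact List.mem_cons_self
      · intro w hw
        exact List.mem_cons_of_mem _ hw
    · rw [List.forall₂_iff_get] at hS ⊢
      refine ⟨hS.1, fun i h1 h2 => ?_⟩
      refine (hS.2 i h1 h2).congr hag₂ ?_
      rw [Set.mem_singleton_iff]
      intro e
      exact hvL (e ▸ List.get_mem L ⟨i, h1⟩)

theorem Rdy.extendL {g : Pl M W} {p : Cond W} (hp : p ∈ PP c g) {L : List W} (hL' : L.Nodup)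
    (hv : ∀ v ∈ L, (v, (∅, ∅), []) ∈ g) {S S' : List Fs}
    (h : List.Forall₂ (fun v s => Rdy c p v s) L S)
    (hS : List.Forall₂ (fun s s' => s <+: s') S S') :
    ∃ p' ∈ PP c g, CLe c p' p ∧ AgO {v | v ∈ L} p' p ∧
      List.Forall₂ (fun v s => Rdy c p' v s) L S' := by
  induction L generalizing p S S' with
  | nil =>
    cases h
    cases hS
    exact ⟨p, hp, CLe.refl p, AgO.refl _ p, List.Forall₂.nil⟩
  | cons v L ih =>
    obtain ⟨hvL, hL''⟩ := List.nodup_cons.1 hL'
    cases h with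
    | cons h1 h2 =>
      cases hS with
      | cons h3 h4 =>
        obtain ⟨p₁, hp₁, hle, hag, hr⟩ := Rdy.extend (hv v List.mem_cons_self) hp h1 h3
        have h5 : ∀ S₁ : List Fs, List.Forall₂ (fun v s => Rdy c p v s) L S₁ →
            List.Forall₂ (fun v s => Rdy c p₁ v s) L S₁ := by
          intro S₁ h2
          rw [List.forall₂_iff_get] at h2 ⊢
          refine ⟨h2.1, fun i h6 h7 => ?_⟩
          refine (h2.2 i h6 h7).congr hag ?_
          rw [Set.mem_singleton_iff]
          intro e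
          exact hvL (e ▸ List.get_mem L ⟨i, h6⟩)
        obtain ⟨p₂, hp₂, hle₂, hag₂, hr₂⟩ := ih hp₁ hL''
          (fun w hw => hv w (List.mem_cons_of_mem _ hw)) (h5 _ h2) h4
        refine ⟨p₂, hp₂, hle₂.trans hle, ?_, List.Forall₂.cons (hr.congr hag₂ hvL) hr₂⟩
        refine AgO.trans (hag₂.mono ?_) (hag.mono ?_)
        · intro w hw
          exact List.mem_cons_of_mem _ hw
        · intro w hw
          rw [Set.mem_singleton_iff] at hw
          rw [hw]
          exact List.mem_cons_self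

end

end Pool.Agent.H.MP_20495c_lc
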