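import Pool.Agent.H.MP_20495c_lc.S.S2
import Pool.Agent.H.MP_20495c_lc.S.S4a

/-!
# MP_20495c, block S (the step), part 4b: mutual genericity of the reals of default nodes
-/

set_option autoImplicit false
set_option linter.unusedSectionVars false

namespace Pool.Agent.H.MP_20495c_lc

open Pool.Agent.H.MP_a163f2_lc Pool.Agent.H.MP_07d118_lc

universe u v w

theorem pre_cat {τ s : Fs} {x : ℕ → ℕ} : Pre (cat τ x) (τ ++ s) ↔ Pre x s := by
  rw [pre_getD, pre_getD]
  constructor
  · intro h i hi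
    have h1 := h (τ.length + i) (by rw [List.length_append]; omega)
    have h2 : (τ ++ s).getD (τ.length + i) 0 = s.getD i 0 := by
      rw [List.getD_append_right _ _ _ _ (by omega)]
      congr 1
      omega
    have h3 : cat τ x (τ.length + i) = x i := by
      unfold cat
      rw [if_neg (by omega)]
      congr 1
      omega
    rw [← h2, h1, h3]
  · intro h i hi
    rcases lt_or_ge i τ.length with hi' | hi'
    · rw [List.getD_append _ _ _ _ hi']
      unfold cat
      rw [if_pos hi']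
    · rw [List.getD_append_right _ _ _ _ hi']
      unfold cat
      rw [if_neg (by omega)]
      exact h _ (by rw [List.length_append] at hi; omega)

theorem pre_cat_self (τ : Fs) (x : ℕ → ℕ) : Pre (cat τ x) τ := by
  rw [pre_getD]
  intro i hi
  unfold cat
  rw [if_pos hi]

private theorem xr_eq_iff {Y : Set Fs} {i j : ℕ} : xr Y i = j ↔
    ([i, j] ∈ Y ∧ ∀ j' : ℕ, j' < j → ¬ [i, j'] ∈ Y) ∨ ((∀ j' : ℕ, ¬ [i, j'] ∈ Y) ∧ j = 0) := by
  classical
  unfold xr
  by_cases h : ∃ j, [i, j] ∈ Y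
  · rw [dif_pos h, Nat.find_eq_iff]
    constructor
    · intro h1
      exact Or.inl h1
    · rintro (h1 | ⟨h1, -⟩)
      · exact h1
      · obtain ⟨j', hj'⟩ := h
        exact absurd hj' (h1 j')
  · rw [dif_neg h]
    push Not at h
    constructor
    · intro h1
      exact Or.inr ⟨h, h1.symm⟩
    · rintro (⟨h1, -⟩ | ⟨-, h1⟩)
      · exact absurd h1 (h j)
      · exact h1.symm

section

variable {M : Type u} [SetStr M] [ZFC M] [Std M] {W : Type v} [LinearOrder W] [Cd M W] [Om1 M W]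
variable {c : W × Hc → ℕ → ℕ} [hL : Fact (Luz M W c)] (D : StepD M W c)

private theorem good_yy {T : Type w} [Cd M T] {f : Pl M W} (v : W) {m : T → Fs} (hm : IF M m) :
    Good c (fun _ : T => f) (fun t G => m t ∈ yy G v) := by
  refine Good.ex (Q := fun (t : T) (p : Cond W) G => p ∈ G ∧ (v, m t) ∈ p.1) ?_
  exact Good.and (Good.mem (IF.const f) IF.snd) (Good.of_in (In.fmem
    ((IF.const v).pair (IF.comp hm IF.fst)) (IF.comp IF.fst IF.snd)))

private theorem if_two {T : Type w} [Cd M T] {i j : T → ℕ} (hi : IF M i) (hj : IF M j) :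
    IF M (fun t => ([i t, j t] : Fs)) :=
  IF.prim2 (F := fun a b : ℕ => ([a, b] : List ℕ)) (Primrec.list_cons.comp Primrec.fst
    (Primrec.list_cons.comp Primrec.snd (Primrec.const []))) hi hj

private theorem good_xr {T : Type w} [Cd M T] {f : Pl M W} (v : W) :
    GoodR c (fun _ : T => f) (fun _ G => xr (yy G v)) := by
  have h1 : Good c (fun _ : (T × ℕ) × ℕ => f) (fun z G =>
      ([z.1.2, z.2] ∈ yy G v ∧ ∀ j' : ℕ, j' < z.2 → ¬ [z.1.2, j'] ∈ yy G v) ∨
        ((∀ j' : ℕ, ¬ [z.1.2, j'] ∈ yy G v) ∧ z.2 = 0)) := by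
    refine Good.or (Good.and (good_yy v (if_two (IF.comp IF.snd IF.fst) IF.snd)) ?_)
      (Good.and ?_ (Good.of_in (In.eq IF.snd (IF.const 0))))
    · refine Good.all (IF.const f) (Q := fun (z : (T × ℕ) × ℕ) (j' : ℕ) G => j' < z.2 →
        ¬ [z.1.2, j'] ∈ yy G v) ?_
      exact Good.imp (IF.const f) (Good.of_in (In.lt IF.snd (IF.comp IF.snd IF.fst)))
        (Good.not (IF.const f) (good_yy v (if_two (IF.comp IF.snd (IF.comp IF.fst IF.fst))
          IF.snd)))
    · refine Good.all (IF.const f) (Q := fun (z : (T × ℕ) × ℕ) (j' : ℕ) G =>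
        ¬ [z.1.2, j'] ∈ yy G v) ?_
      exact Good.not (IF.const f) (good_yy v (if_two (IF.comp IF.snd (IF.comp IF.fst IF.fst))
        IF.snd))
  exact h1.congr fun z G _ => xr_eq_iff

private theorem good_cat {T : Type w} [Cd M T] {f : Pl M W} (v : W) (τ : Fs) :
    GoodR c (fun _ : T => f) (fun _ G => cat τ (xr (yy G v))) := by
  have h0 : IF M (fun n : ℕ => n - τ.length) :=
    IF.prim (Primrec.nat_sub.comp Primrec.id (Primrec.const τ.length))
  have h1 : GoodF c (fun _ : T × ℕ => f) (fun y G => xr (yy G v) (y.2 - τ.length)) :=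
    GoodF_appI (X := fun (_ : T) G => xr (yy G v)) (good_xr v) h0
  have h2 : GoodF c (fun _ : T × ℕ => f) (fun y _ => τ.getD y.2 0) :=
    GoodF.of_if (IF.getD (IF.const τ) IF.snd)
  refine (GoodF_iteI (P := fun y : T × ℕ => y.2 < τ.length)
    (In.lt IF.snd (IF.const τ.length)) h2 h1).congr fun y G _ => ?_
  by_cases h : y.2 < τ.length
  · simp [cat, h]
  · simp [cat, h]

private theorem good_pre {T : Type w} [Cd M T] {f : Pl M W} (v : W) (τ : Fs) {u : T → Fs}
    (hu : IF M u) : Good c (fun _ : T => f) (fun t G => Pre (cat τ (xr (yy G v))) (u t)) := by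
  have h1 : Good c (fun _ : T => f) (fun t G => ∀ i : ℕ, i < (u t).length →
      cat τ (xr (yy G v)) i = (u t).getD i 0) := by
    refine Good.all (IF.const f) (Q := fun (t : T) (i : ℕ) G => i < (u t).length →
      cat τ (xr (yy G v)) i = (u t).getD i 0) ?_
    refine Good.imp (IF.const f) (Good.of_in (In.lt IF.snd (IF.length (IF.comp hu IF.fst)))) ?_
    exact Good.comp (k := fun z : T × ℕ => ((z.1, z.2), (u z.1).getD z.2 0))
      (good_cat (T := T) v τ) ((IF.fst.pair IF.snd).pair (IF.getD (IF.comp hu IF.fst) IF.snd))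
  exact h1.congr fun t G _ => GoodF_pre_iff

private theorem good_fa {f : Pl M W} : ∀ L : List (W × Fs), Good c (fun _ : List Fs => f)
    (fun l G => List.Forall₂ (fun x u => Pre (cat x.2 (xr (yy G x.1))) u) L l)
  | [] => (Good.of_in (In.eq (T := List Fs) IF.id (IF.const ([] : List Fs)))).congr fun t G _ =>
      List.forall₂_nil_left_iff
  | x :: L => by
    have h1 : Good c (fun _ : List Fs => f) (fun l G => ∃ u : Fs, ∃ l' : List Fs,
        l = u :: l' ∧ Pre (cat x.2 (xr (yy G x.1))) u ∧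
          List.Forall₂ (fun x u => Pre (cat x.2 (xr (yy G x.1))) u) L l') := by
      refine Good.ex (M := M) (c := c) (Q := fun (l : List Fs) (u : Fs) G => ∃ l' : List Fs, l = u :: l' ∧
        Pre (cat x.2 (xr (yy G x.1))) u ∧
          List.Forall₂ (fun x u => Pre (cat x.2 (xr (yy G x.1))) u) L l') ?_
      refine Good.ex (M := M) (c := c) (Q := fun (y : List Fs × Fs) (l' : List Fs) G => y.1 = y.2 :: l' ∧
        Pre (cat x.2 (xr (yy G x.1))) y.2 ∧
          List.Forall₂ (fun x u => Pre (cat x.2 (xr (yy G x.1))) u) L l') ?_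
      refine Good.and (Good.of_in (In.eq (IF.comp IF.fst IF.fst) ?_)) (Good.and
        (good_pre x.1 x.2 (IF.comp IF.snd IF.fst)) ?_)
      · exact IF.prim2 (F := fun (a : Fs) (l : List Fs) => a :: l) Primrec.list_cons
          (IF.comp IF.snd IF.fst) IF.snd
      · exact Good.comp (good_fa L) (k := fun z : (List Fs × Fs) × List Fs => z.2) IF.snd
    refine h1.congr fun l G _ => ?_
    rw [List.forall₂_cons_left_iff]
    constructor
    · rintro ⟨u, l', h2, h3, rfl⟩
      exact ⟨u, l', rfl, h2, h3⟩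
    · rintro ⟨u, l', rfl, h2, h3⟩
      exact ⟨u, l', h2, h3, rfl⟩

private theorem in_fa2 {T : Type w} [Cd M T] {s t : T → List Fs} (hs : IF M s) (ht : IF M t) :
    In M (fun y => List.Forall₂ (fun a a' => a <+: a') (s y) (t y)) := by
  have hlen : ∀ {s : T → List Fs}, IF M s → IF M (fun y => (s y).length) := fun h =>
    IF.comp (g := fun l : List (List ℕ) => l.length) (IF.prim Primrec.list_length) h
  have hlen' : ∀ {s : T → List Fs}, IF M s → IF M (fun y : T × ℕ => (s y.1).length) := fun h =>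
    IF.comp (g := fun l : List (List ℕ) => l.length) (IF.prim Primrec.list_length)
      (IF.comp h IF.fst)
  have hget : ∀ {s : T → List Fs}, IF M s → IF M (fun y : T × ℕ => (s y.1).getD y.2 []) :=
    fun h => IF.prim2 (F := fun (l : List (List ℕ)) (j : ℕ) => l.getD j [])
      (Primrec.list_getD []) (IF.comp h IF.fst) IF.snd
  refine (In.and (In.eq (hlen hs) (hlen ht)) (In.all (P := fun (y : T) (i : ℕ) =>
    i < (s y).length → (s y).getD i [] <+: (t y).getD i []) (In.imp (In.lt IF.snd (hlen' hs))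
      (In.ipre (hget hs) (hget ht))))).congr fun y => ?_
  rw [List.forall₂_iff_get]
  refine and_congr_right fun h1 => ?_
  constructor
  · intro h i hi
    have hi' : i < (t y).length := by omega
    rw [List.getD_eq_getElem _ _ hi, List.getD_eq_getElem _ _ hi']
    exact h i hi hi'
  · intro h i hi hi'
    have h2 := h i hi
    rw [List.getD_eq_getElem _ _ hi, List.getD_eq_getElem _ _ hi'] at h2
    exact h2

private theorem good_dense {f : Pl M W} (b : ℕ) (R : ISet M (List Fs × Cond W)) :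
    Good c (fun _ : ℕ => f) (fun _ G => DenseT b {l | ∃ p ∈ G, (l, p) ∈ R}) := by
  refine Good.all (IF.const f) (Q := fun (_ : ℕ) (s : List Fs) G => s.length = b →
    ∃ t : List Fs, (∃ p : Cond W, p ∈ G ∧ (t, p) ∈ R) ∧
      List.Forall₂ (fun a a' => a <+: a') s t) ?_
  refine Good.imp (IF.const f) (Good.of_in (In.eq ?_ (IF.const b))) ?_
  · exact IF.comp (g := fun l : List (List ℕ) => l.length) (IF.prim Primrec.list_length) IF.snd
  · refine Good.ex (Q := fun (y : ℕ × List Fs) (t : List Fs) G =>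
      (∃ p : Cond W, p ∈ G ∧ (t, p) ∈ R) ∧ List.Forall₂ (fun a a' => a <+: a') y.2 t) ?_
    refine Good.and ?_ (Good.of_in (in_fa2 (IF.comp IF.snd IF.fst) IF.snd))
    refine Good.ex (Q := fun (y : (ℕ × List Fs) × List Fs) (p : Cond W) G =>
      p ∈ G ∧ (y.2, p) ∈ R) ?_
    exact Good.and (Good.mem (IF.const f) IF.snd) (Good.of_in (In.mem
      ((IF.comp IF.snd IF.fst).pair IF.snd) (IF.const R)))

private theorem split_zip {V : Type v} : ∀ (L : List (V × Fs)) (S t : List Fs),
    L.length = S.length →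
    List.Forall₂ (fun a a' => a <+: a') (List.zipWith (fun x s => x.2 ++ s) L S) t →
    ∃ S' : List Fs, List.Forall₂ (fun s s' => s <+: s') S S' ∧
      t = List.zipWith (fun x s' => x.2 ++ s') L S'
  | [], [], t, _, h => by
    rw [List.zipWith_nil_left, List.forall₂_nil_left_iff] at h
    exact ⟨[], List.Forall₂.nil, h⟩
  | [], _ :: _, _, h, _ => by simp at h
  | _ :: _, [], _, h, _ => by simp at h
  | x :: L, s :: S, t, hl, h => by
    rw [List.zipWith_cons_cons, List.forall₂_cons_left_iff] at h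
    obtain ⟨u, t', h1, h2, rfl⟩ := h
    obtain ⟨S', h3, rfl⟩ := split_zip L S t' (by simpa using hl) h2
    obtain ⟨r, rfl⟩ := h1
    exact ⟨(s ++ r) :: S', List.Forall₂.cons ⟨r, rfl⟩ h3, by
      rw [List.zipWith_cons_cons, List.append_assoc]⟩

private theorem pre_zip {V : Type v} (z : V → ℕ → ℕ) : ∀ (L : List (V × Fs)) (S : List Fs),
    List.Forall₂ (fun v s => Pre (z v) s) (L.map Prod.fst) S →
    List.Forall₂ (fun x u => Pre (cat x.2 (z x.1)) u) L
      (List.zipWith (fun x s' => x.2 ++ s') L S)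
  | [], _, _ => by
    rw [List.zipWith_nil_left]
    exact List.Forall₂.nil
  | x :: L, S, h => by
    rw [List.map_cons, List.forall₂_cons_left_iff] at h
    obtain ⟨s, S', h1, h2, rfl⟩ := h
    rw [List.zipWith_cons_cons]
    exact List.Forall₂.cons (pre_cat.2 h1) (pre_zip z L S' h2)

private theorem fa_imp {α β : Type*} {P Q : α → β → Prop} : ∀ (L : List α) (S : List β),
    (∀ a ∈ L, ∀ b, P a b → Q a b) → List.Forall₂ P L S → List.Forall₂ Q L S
  | [], _, _, h => by
    rw [List.forall₂_nil_left_iff] at h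
    rw [h]
    exact List.Forall₂.nil
  | a :: L, S, h0, h => by
    rw [List.forall₂_cons_left_iff] at h
    obtain ⟨b, S', h1, h2, rfl⟩ := h
    exact List.Forall₂.cons (h0 a List.mem_cons_self b h1)
      (fa_imp L S' (fun a ha => h0 a (List.mem_cons_of_mem _ ha)) h2)

/-- **Mutual genericity**: the reals `τ ^ xr (yy G v)` of distinct default nodes `v` with index at
least `d` meet every dense set of the extension by `G ∩ PP c (f d)`.

Proof. The statement `Q G₀` := `DenseT L.length {l | ∃ p ∈ G₀, (l, p) ∈ R}` is good over `f d`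
(`Good.all`, `Good.ex`, `Good.mem`), it holds for `G₀ := G ∩ PP c (f d)`, so some `p₀ ∈ G₀` forces
it (`Good.truth`).  The internal set `E` of the conditions `p` of `F` such that
`∃ l q, (l, q) ∈ R ∧ q ∈ PP c (f d) ∧ CLe c p q ∧ Forall₂ (fun x u => ∃ s', Rdy c p x.1 s' ∧ u <+: x.2 ++ s') L l`
is dense below `p₀` (`Gen.meets_below`): given `p ≤ p₀` in `PP c F`, let `p₁ ≤ p` decide exactly
`s_i` at the nodes `v_i` (`exists_rdyL`).  `crs (f d).dom p₁ ≤ p₀` is in `PP c (f d)`; take a
generic `G₁` for `f d` containing it (`exists_gen`).  `Q G₁` gives `l` with `τ_i ++ s_i <+: l_i`, i.e.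
`l_i = τ_i ++ s'_i` with `s_i <+: s'_i`, and `q ∈ G₁` with `(l, q) ∈ R`; let `r ∈ G₁` be below
`q` and `crs (f d).dom p₁`.  By `amal`, `cup r p₁ ∈ PP c F` is below `r` and `p₁`; it agrees with `p₁`
at the `v_i`, as these are not nodes of `f d` (`dom_f`).  `Rdy.extendL` finishes.
(For the internality of `E`: it suffices to use, instead of `Rdy`, the set of the conditions `p`
such that for some `l`, `q` as above `Fo c F p (Forall₂ (fun x u => Pre (cat x.2 (xr (yy G x.1))) u) L l)`,
or a formula with the finite sequence `S'` of the decided parts.)  Finally `Rdy.pre`. -/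
theorem StepD.mg [Countable M] {G : Set (Cond W)} (hG : Gen c D.F G) (d : W) (L : List (W × Fs))
    (hL' : (L.map Prod.fst).Nodup)
    (hv : ∀ x ∈ L, ∃ a : W × ℕ, d ≤ a.1 ∧ a.2 % 3 ≠ 1 ∧ x.1 = D.nd a)
    (R : ISet M (List Fs × Cond W)) (hR : ∀ l q, (l, q) ∈ R → q ∈ PP c (D.f d))
    (hD : DenseT L.length {l | ∃ p ∈ G, (l, p) ∈ R}) :
    ∃ l, (∃ p ∈ G, (l, p) ∈ R) ∧
      List.Forall₂ (fun x u => Pre (cat x.2 (xr (yy G x.1))) u) L l := by
  have hv' : ∀ v ∈ L.map Prod.fst, (v, (∅, ∅), []) ∈ D.F ∧ v ∉ (D.f d).dom := by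
    intro v hv0
    obtain ⟨x, hx, rfl⟩ := List.mem_map.1 hv0
    obtain ⟨a, h1, h2, h3⟩ := hv x hx
    rw [h3]
    refine ⟨(D.mem_F_default h2).2 ⟨rfl, ?_⟩, fun h4 => ?_⟩
    · rw [pre_getD]
      intro i hi
      simp at hi
    · exact absurd (D.dom_f.1 h4).2 (not_lt.2 h1)
  have hf := D.valid d
  have hs := D.sb_fF d
  have hG' := D.gen hG d
  -- the statement about the subplan
  have hD' : DenseT L.length {l | ∃ p ∈ G ∩ PP c (D.f d), (l, p) ∈ R} := by
    intro s hs
    obtain ⟨t, ⟨p, hp, h1⟩, h2⟩ := hD s hs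
    exact ⟨t, ⟨p, ⟨hp, hR t p h1⟩, h1⟩, h2⟩
  obtain ⟨p₀, hp₀, hFo⟩ := (good_dense (c := c) (f := D.f d) L.length R).truth (IF.const _)
    (t := 0) hG' hD'
  have hE : In M (fun p : Cond W => ∃ l : List Fs, ∃ q : Cond W, (l, q) ∈ R ∧ CLe c p q ∧
      Fo c D.F p (fun G => List.Forall₂ (fun x u => Pre (cat x.2 (xr (yy G x.1))) u) L l)) := by
    refine In.ex (M := M) (P := fun (p : Cond W) (l : List Fs) => ∃ q : Cond W, (l, q) ∈ R ∧ CLe c p q ∧
      Fo c D.F p (fun G => List.Forall₂ (fun x u => Pre (cat x.2 (xr (yy G x.1))) u) L l)) ?_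
    refine In.ex (M := M) (P := fun (y : Cond W × List Fs) (q : Cond W) => (y.2, q) ∈ R ∧
      CLe c y.1 q ∧ Fo c D.F y.1 (fun G =>
        List.Forall₂ (fun x u => Pre (cat x.2 (xr (yy G x.1))) u) L y.2)) ?_
    refine In.and (In.mem ((IF.comp IF.snd IF.fst).pair IF.snd) (IF.const R))
      (In.and (In.cle (IF.comp IF.fst IF.fst) IF.snd) ?_)
    exact Good.fo (f := fun _ : (Cond W × List Fs) × Cond W => D.F) (IF.const _)
      (Good.comp (good_fa (c := c) (f := D.F) L)
        (k := fun z : (Cond W × List Fs) × Cond W => z.1.2) (IF.comp IF.snd IF.fst))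
      (p := fun z : (Cond W × List Fs) × Cond W => z.1.1) (IF.comp IF.fst IF.fst)
  obtain ⟨p, hp, -, l, q, h1, h2, h3⟩ := hG.meets_below hp₀.1 (ISet.mk hE) (by
    intro p hp hle
    obtain ⟨p₁, hp₁, h1, -, S, h2⟩ := exists_rdyL hp (L.map Prod.fst) hL' fun v hv0 =>
      (hv' v hv0).1
    have hc := crs_PP hf hs hp₁
    obtain ⟨G₁, hG₁, hc₁⟩ := exists_gen hc
    have hp₀₁ : p₀ ∈ G₁ := hG₁.up _ hc₁ p₀ hp₀.2 (crs_le_of_le hp₀.2 (h1.trans hle))
    have hlen : L.length = S.length := by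
      have := h2.length_eq
      rwa [List.length_map] at this
    obtain ⟨t, ⟨q, hq, h3⟩, h4⟩ := hFo G₁ hG₁ hp₀₁
      (List.zipWith (fun x s => x.2 ++ s) L S) (by rw [List.length_zipWith]; omega)
    obtain ⟨S', h5, rfl⟩ := split_zip L S t hlen h4
    obtain ⟨r, hr, h6, h7⟩ := hG₁.dir q hq _ hc₁
    obtain ⟨h8, h9, h10⟩ := amal hs hp₁ (hG₁.sub r hr) h7
    have hA : AgO (D.f d).dom (cup r p₁) p₁ := by
      refine ⟨fun x hx => ?_, fun x hx => ?_⟩
      · rw [mem_cup1]
        exact ⟨fun h => h.resolve_left fun h' => hx (PP.dom1 (hG₁.sub r hr) h'), Or.inr⟩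
      · rw [mem_cup2]
        exact ⟨fun h => h.resolve_left fun h' => hx (PP.dom2 (hG₁.sub r hr) h'), Or.inr⟩
    have h11 : List.Forall₂ (fun v s => Rdy c (cup r p₁) v s) (L.map Prod.fst) S :=
      fa_imp _ _ (fun v hv0 s h => h.congr hA (hv' v hv0).2) h2
    obtain ⟨p₂, hp₂, h12, -, h13⟩ := Rdy.extendL h8 hL' (fun v hv0 => (hv' v hv0).1) h11 h5
    refine ⟨p₂, hp₂, h12.trans (h9.trans h1), _, q, h3, h12.trans (h10.trans h6), ?_⟩
    intro G₂ hG₂ hp₂G
    refine pre_zip (fun v => xr (yy G₂ v)) L S' ?_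
    exact fa_imp _ _ (fun v _ s h => h.pre hG₂ hp₂G) h13)
  exact ⟨l, ⟨q, hG.up p hp q (PP_mono hs (hR l q h1)) h2, h1⟩, h3 G hG hp⟩

end

end Pool.Agent.H.MP_20495c_lc
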