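import Pool.Agent.H.MP_20495c_lc.Om
import Pool.Agent.H.MP_20495c_lc.S.S3c

/-!
# MP_20495c, block S (the step), part 5: the models of the step

`N = ext S G`, `A d = ext S (G ∩ PP c (D.f d))`, where `G` is generic for the long plan `D.F`.
-/

set_option autoImplicit false
set_option linter.unusedSectionVars false

namespace Pool.Agent.H.MP_20495c_lc

open Pool.Agent.H.MP_07d118_lc Pool.Agent.H.MP_a163f2_lc

universe u v w x

section

variable {S : Set ZFSet.{0}} [Mdl S] {W : Type v} [LinearOrder W] [Cd S W] [Om1 S W]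
variable {c : W × Hc → ℕ → ℕ} [hL : Fact (Luz S W c)]

/-- `W` is the first uncountable ordinal of every extension by a plan (`om1_ext`, `ccc_plan`). -/
theorem om1_plan {g : Pl S W} {G : Set (Cond W)} (hG : Gen c g G) [Mdl (ext S G)]
    [Cd (ext S G) W] [Cx S (ext S G) W] : Om1 (ext S G) W :=
  om1_ext (po_pp g) (fun p hp h => ccc_plan g p hp h) (gt_iff_gen.2 hG)

variable (D : StepD S W c) {G : Set (Cond W)}

theorem StepD.mdlN (hG : Gen c D.F G) : Mdl (ext S G) :=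
  mdl_ext (po_pp D.F) (gt_iff_gen.2 hG)

theorem StepD.mdlA (hG : Gen c D.F G) (d : W) : Mdl (ext S (G ∩ PP c (D.f d))) :=
  mdl_ext (po_pp (D.f d)) (gt_iff_gen.2 (D.gen hG d))

/-- `ext_min`, `in_gen` -/
theorem StepD.subN (hG : Gen c D.F G) (d : W) : ext S (G ∩ PP c (D.f d)) ⊆ ext S G := by
  have mN : Mdl (ext S G) := D.mdlN hG
  have sN : S ⊆ ext S G := sub_ext (po_pp D.F) (gt_iff_gen.2 hG)
  let c1 : Cd (ext S G) (Cond W) := CdUp sN (Cond W)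
  have x1 : Cx S (ext S G) (Cond W) := cx_up sN (Cond W)
  refine ext_min (po_pp (D.f d)) (gt_iff_gen.2 (D.gen hG d)) sN ?_
  have h1 : In (ext S G) (fun p : Cond W => p ∈ G) := in_gen (po_pp D.F) (gt_iff_gen.2 hG)
  have h2 : In (ext S G) (fun p : Cond W => p ∈ PP c (D.f d)) :=
    In.lift sN (po_pp (c := c) (D.f d)).inV
  exact h1.and h2

theorem StepD.mono (hG : Gen c D.F G) {d d' : W} (h : d ≤ d') :
    ext S (G ∩ PP c (D.f d)) ⊆ ext S (G ∩ PP c (D.f d')) := by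
  have mN : Mdl (ext S (G ∩ PP c (D.f d'))) := D.mdlA hG d'
  have sN : S ⊆ ext S (G ∩ PP c (D.f d')) :=
    sub_ext (po_pp (D.f d')) (gt_iff_gen.2 (D.gen hG d'))
  let c1 : Cd (ext S (G ∩ PP c (D.f d'))) (Cond W) := CdUp sN (Cond W)
  have x1 : Cx S (ext S (G ∩ PP c (D.f d'))) (Cond W) := cx_up sN (Cond W)
  refine ext_min (po_pp (D.f d)) (gt_iff_gen.2 (D.gen hG d)) sN ?_
  have h1 : In (ext S (G ∩ PP c (D.f d'))) (fun p : Cond W => p ∈ G ∩ PP c (D.f d')) :=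
    in_gen (po_pp (D.f d')) (gt_iff_gen.2 (D.gen hG d'))
  have h2 : In (ext S (G ∩ PP c (D.f d'))) (fun p : Cond W => p ∈ PP c (D.f d)) :=
    In.lift sN (po_pp (c := c) (D.f d)).inV
  exact (h1.and h2).congr fun p =>
    ⟨fun hp => ⟨⟨hp.1, PP_mono (D.sb_ff h) hp.2⟩, hp.2⟩, fun hp => ⟨hp.1.1, hp.2⟩⟩

/-- Every real of the extension is in some `A d`: `reals_ext_iff` and `StepD.name_closed` with
`T := ℕ × ℕ`, `K := True`. -/
theorem StepD.real (hG : Gen c D.F G) {x : ℕ → ℕ} (hx : x ∈ Reals (ext S G)) :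
    ∃ d, x ∈ Reals (ext S (G ∩ PP c (D.f d))) := by
  obtain ⟨R, hR⟩ := (reals_ext_iff (po_pp D.F) (gt_iff_gen.2 hG)).1 hx
  obtain ⟨ζ₀⟩ := Om1.ne (M := S) (W := W)
  have hR1 : In S (fun y : (ℕ × ℕ) × Cond W => (y.2, y.1.1, y.1.2) ∈ R) :=
    In.mem (IF.snd.pair ((IF.comp IF.fst IF.fst).pair (IF.comp IF.snd IF.fst))) (IF.const R)
  obtain ⟨ζ, hζ, R', h1, h2⟩ := D.name_closed (T := ℕ × ℕ) (K := fun _ _ => True)
    (In.const True) (fun _ => ⟨fun t => Nat.pair t.1 t.2, IF.npair IF.fst IF.snd, by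
      rintro ⟨a, b⟩ - ⟨a', b'⟩ - e
      obtain ⟨e1, e2⟩ := Nat.pair_eq_pair.1 e
      exact Prod.ext e1 e2⟩) (fun _ _ _ _ h => h) (ISet.mk hR1) ζ₀
  refine ⟨ζ, (reals_ext_iff (po_pp (D.f ζ)) (gt_iff_gen.2 (D.gen hG ζ))).2 ?_⟩
  have hR2 : In S (fun y : Cond W × ℕ × ℕ => ((y.2.1, y.2.2), y.1) ∈ R') :=
    In.mem (((IF.comp IF.fst IF.snd).pair (IF.comp IF.snd IF.snd)).pair IF.fst) (IF.const R')
  refine ⟨ISet.mk hR2, fun n k => ?_⟩
  rw [hR n k]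
  have h3 := h2 G hG (n, k) ⟨ζ₀, hζ, trivial⟩
  constructor
  · intro h
    obtain ⟨p, hp, hpR⟩ := h3.1 h
    exact ⟨p, ⟨hp, h1 _ _ hpR⟩, hpR⟩
  · rintro ⟨p, hp, hpR⟩
    exact h3.2 ⟨p, hp.1, hpR⟩

end

end Pool.Agent.H.MP_20495c_lc
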