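import Pool.Agent.H.MP_20495c_lc.S.S5

/-!
# MP_20495c, block S (the step), part 5b: the reals of the step

`N = ext S G`, `A d = ext S (G ∩ PP c (D.f d))`, where `G` is generic for the long plan `D.F`.
-/

set_option autoImplicit false
set_option linter.unusedSectionVars false

namespace Pool.Agent.H.MP_20495c_lc

open Pool.Agent.H.MP_07d118_lc Pool.Agent.H.MP_a163f2_lc

universe u v w x

section

variable {S : Set ZFSet.{0}} [Mdl S] {W : Type v} [LinearOrder W] [Cd S W] [Om1 S W]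
variable {c : W × Hc → ℕ → ℕ} [hL : Fact (Luz S W c)]

variable (D : StepD S W c) {G : Set (Cond W)}

theorem S5b_two {N : Set ZFSet.{0}} [Mdl N] {T : Type x} [Cd N T] {i j : T → ℕ} (hi : IF N i)
    (hj : IF N j) : IF N (fun t => [i t, j t]) :=
  IF.congr (Re2_snoc (Re2_snoc (IF.const ([] : Fs)) hi) hj) fun _ => rfl

theorem S5b_xr {Y : Set Fs} {i j : ℕ} : xr Y i = j ↔
    ([i, j] ∈ Y ∧ ∀ j' : ℕ, j' < j → ¬ [i, j'] ∈ Y) ∨ ((∀ j' : ℕ, ¬ [i, j'] ∈ Y) ∧ j = 0) := by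
  classical
  unfold xr
  by_cases h : ∃ j, [i, j] ∈ Y
  · rw [dif_pos h, Nat.find_eq_iff h]
    constructor
    · rintro ⟨h1, h2⟩
      exact Or.inl ⟨h1, fun j' hj' => h2 j' hj'⟩
    · rintro (⟨h1, h2⟩ | ⟨h1, -⟩)
      · exact ⟨h1, fun j' hj' => h2 j' hj'⟩
      · obtain ⟨j', h3⟩ := h
        exact absurd h3 (h1 j')
  · rw [dif_neg h]
    push Not at h
    constructor
    · rintro rfl
      exact Or.inr ⟨h, rfl⟩
    · rintro (⟨h1, -⟩ | ⟨-, h1⟩)
      · exact absurd h1 (h j)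
      · exact h1.symm

/-- In a model `N` in which `G` is internal, the reals of the default nodes are internal. -/
theorem xr_in {N : Set ZFSet.{0}} [Mdl N] [Cd N W] {G : Set (Cond W)}
    (hG : In N (fun p : Cond W => p ∈ G)) :
    IF N (fun y : W × ℕ => xr (yy G y.1) y.2) := by
  have hy : In N (fun z : W × Fs => z.2 ∈ yy G z.1) := by
    refine In.ex (P := fun (z : W × Fs) (p : Cond W) => p ∈ G ∧ (z.1, z.2) ∈ p.1) ?_
    exact In.and (hG.comp IF.snd) (In.fmem ((IF.comp IF.fst IF.fst).pair (IF.comp IF.snd IF.fst))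
      (IF.comp IF.fst IF.snd))
  have h1 : In N (fun z : (W × ℕ) × ℕ => [z.1.2, z.2] ∈ yy G z.1.1) :=
    In.comp (f := fun z : (W × ℕ) × ℕ => (z.1.1, [z.1.2, z.2])) hy
      ((IF.comp IF.fst IF.fst).pair (S5b_two (IF.comp IF.snd IF.fst) IF.snd))
  have h3 : In N (fun y : ((W × ℕ) × ℕ) × ℕ => [y.1.1.2, y.2] ∈ yy G y.1.1.1) :=
    In.comp (f := fun y : ((W × ℕ) × ℕ) × ℕ => (y.1.1, y.2)) h1
      ((IF.comp IF.fst IF.fst).pair IF.snd)
  have h2 : In N (fun z : (W × ℕ) × ℕ => ([z.1.2, z.2] ∈ yy G z.1.1 ∧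
      ∀ j : ℕ, j < z.2 → ¬ [z.1.2, j] ∈ yy G z.1.1) ∨
      ((∀ j : ℕ, ¬ [z.1.2, j] ∈ yy G z.1.1) ∧ z.2 = 0)) := by
    refine In.or (In.and h1 ?_) (In.and ?_ (In.eq IF.snd (IF.const 0)))
    · refine In.all (P := fun (z : (W × ℕ) × ℕ) (j : ℕ) => j < z.2 →
        ¬ [z.1.2, j] ∈ yy G z.1.1) ?_
      exact In.imp (In.lt IF.snd (IF.comp IF.snd IF.fst)) (In.not h3)
    · exact In.all (P := fun (z : (W × ℕ) × ℕ) (j : ℕ) => ¬ [z.1.2, j] ∈ yy G z.1.1)
        (In.not h3)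
  exact IF.of_in (h2.congr fun z => S5b_xr)

theorem S5b_cc {N : Set ZFSet.{0}} [Mdl N] [Cd N W] [Cx S N W] (h : S ⊆ N) {G : Set (Cond W)}
    (hG : In N (fun p : Cond W => p ∈ G)) :
    IF N (fun y : (W × Hc) × ℕ => D.cc G y.1 y.2) := by
  have hnd : IF N D.nd := IF.lift h D.isNd.int
  have hdn : IF N (fun y : (W × Hc) × ℕ => D.dn y.1) :=
    IF.comp hnd ((IF.comp IF.fst IF.fst).pair
      (IF.mul (IF.const 3) (IF.comp CdP.enc (IF.comp IF.snd IF.fst))))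
  have hτ : IF N (fun y : (W × Hc) × ℕ => y.1.2.2) := IF.comp IF.snd (IF.comp IF.snd IF.fst)
  have hsub : IF N (fun y : (W × Hc) × ℕ => y.2 - y.1.2.2.length) :=
    IF.prim2 (F := fun a b : ℕ => a - b) Primrec.nat_sub IF.snd (IF.length hτ)
  exact IF.ite (P := fun y : (W × Hc) × ℕ => y.2 < y.1.2.2.length)
    (In.lt IF.snd (IF.length hτ)) (IF.getD hτ IF.snd) (IF.comp (xr_in hG) (hdn.pair hsub))

/-- the field `inA`: the members of the family below `d` are computed from `G ∩ PP c (D.f d)`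
(`StepD.cc_restrict`, `xr_in`, `in_gen`, `IF.lift` for the node function) -/
theorem StepD.inA (hG : Gen c D.F G) (d : W) [Mdl (ext S (G ∩ PP c (D.f d)))]
    [Cd (ext S (G ∩ PP c (D.f d))) W] [Cx S (ext S (G ∩ PP c (D.f d))) W] :
    In (ext S (G ∩ PP c (D.f d))) (fun y : (W × Hc) × ℕ × ℕ =>
      y.1.1 < d ∧ D.cc G y.1 y.2.1 = y.2.2) := by
  have hP := po_pp (S := S) (c := c) (D.f d)
  have hGt : Gt S (PP c (D.f d)) (CLe c) (G ∩ PP c (D.f d)) := gt_iff_gen.2 (D.gen hG d)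
  have hsub : S ⊆ ext S (G ∩ PP c (D.f d)) := sub_ext hP hGt
  have hin := S5b_cc D hsub (in_gen hP hGt)
  have h1 : In (ext S (G ∩ PP c (D.f d))) (fun y : W × W => y.1 < y.2) :=
    In.lift hsub (Om1.lt_in (M := S) (W := W))
  have h2 : In (ext S (G ∩ PP c (D.f d))) (fun y : (W × Hc) × ℕ × ℕ => y.1.1 < d ∧
      D.cc (G ∩ PP c (D.f d)) y.1 y.2.1 = y.2.2) := by
    refine In.and ?_ ?_
    · exact In.comp (f := fun y : (W × Hc) × ℕ × ℕ => (y.1.1, d)) h1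
        ((IF.comp IF.fst IF.fst).pair (IF.const d))
    · exact In.eq (IF.comp hin (IF.fst.pair (IF.comp IF.fst IF.snd))) (IF.comp IF.snd IF.snd)
  refine h2.congr fun y => and_congr_right fun h => ?_
  rw [D.cc_restrict hG h]

/-- the real of a default node of index below `d` is in `A d` -/
theorem StepD.real_default (hG : Gen c D.F G) {d : W} {a : W × ℕ} (ha : a.2 % 3 ≠ 1)
    (h : a.1 < d) : xr (yy G (D.nd a)) ∈ Reals (ext S (G ∩ PP c (D.f d))) := by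
  have hP := po_pp (S := S) (c := c) (D.f d)
  have hGt : Gt S (PP c (D.f d)) (CLe c) (G ∩ PP c (D.f d)) := gt_iff_gen.2 (D.gen hG d)
  have hsub : S ⊆ ext S (G ∩ PP c (D.f d)) := sub_ext hP hGt
  have : Mdl (ext S (G ∩ PP c (D.f d))) := D.mdlA hG d
  let _ : Cd (ext S (G ∩ PP c (D.f d))) W := CdUp hsub W
  have : Cx S (ext S (G ∩ PP c (D.f d))) W := ⟨fun _ => rfl⟩
  rw [mem_reals, ← D.yy_restrict hG (D.dom_f.2 ⟨D.default_dom ha, h⟩)]
  exact IF.comp (xr_in (in_gen hP hGt)) ((IF.const (D.nd a)).pair IF.id)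

/-- All labels are coded: `exists_yy`, `cod_yy` (block R, CodN) for the node `cn κ` of the plan
`D.f d`, `κ.1 < d` (`Om1.bdd`), `StepD.ev_code`, `reals_ext_plan`, `StepD.subN`. -/
theorem StepD.code (hG : Gen c D.F G) (κ : W × Hc) :
    ∃ y ∈ Reals (ext S G), Cod c y (lab κ.2 (D.cc G κ)) := by
  obtain ⟨d, hd⟩ := Om1.bdd (M := S) (fun _ : ℕ => κ.1) (IF.const _)
  have h : κ.1 < d := hd 0
  have hν : D.cn κ ∈ (D.f d).dom :=
    (D.dom_f (a := (κ.1, 3 * Encodable.encode κ.2 + 1))).2 ⟨D.code_dom κ, h⟩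
  have hG' := D.gen hG d
  obtain ⟨n, hn, hn2⟩ := exists_yy (D.valid d) hν
  refine ⟨ev n (G ∩ PP c (D.f d)), reals_mono_set (D.subN hG d) ?_, ?_⟩
  · rw [reals_ext_plan (D.valid d) hG']
    exact ⟨n, hn, rfl⟩
  · show CodS c (fset (ev n (G ∩ PP c (D.f d)))) (lab κ.2 (D.cc G κ))
    rw [hn2 _ hG', ← D.ev_code hG h]
    exact cod_yy (D.valid d) hG' hν

/-- the family is internal in the extension -/
theorem StepD.ccN (hG : Gen c D.F G) [Mdl (ext S G)] [Cd (ext S G) W] [Cx S (ext S G) W] :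
    IF (ext S G) (fun y : (W × Hc) × ℕ => D.cc G y.1 y.2) := by
  have hP := po_pp (S := S) (c := c) D.F
  have hGt : Gt S (PP c D.F) (CLe c) G := gt_iff_gen.2 hG
  exact S5b_cc D (sub_ext hP hGt) (in_gen hP hGt)

end

end Pool.Agent.H.MP_20495c_lc
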