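import Pool.Agent.H.MP_20495c_lc.S.S5b
import Pool.Agent.H.MP_20495c_lc.S.S4b

/-!
# MP_20495c, block S (the step), part 6: mutual genericity over the models `A d`
-/

set_option autoImplicit false
set_option linter.unusedSectionVars false

namespace Pool.Agent.H.MP_20495c_lc

open Pool.Agent.H.MP_07d118_lc Pool.Agent.H.MP_a163f2_lc

universe u v w x

section

variable {S : Set ZFSet.{0}} [Mdl S] {W : Type v} [LinearOrder W] [Cd S W] [Om1 S W]
variable {c : W × Hc → ℕ → ℕ} [hL : Fact (Luz S W c)]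
variable (D : StepD S W c) {G : Set (Cond W)}

theorem S6_cat_nil (x : ℕ → ℕ) : cat [] x = x := by
  funext n
  unfold cat
  simp

theorem StepD.S6_dn_inj {κ κ' : W × Hc} (h : D.dn κ = D.dn κ') : κ = κ' := by
  have h1 := D.nd_inj h
  have h2 : κ.1 = κ'.1 := congrArg (fun a : W × ℕ => a.1) h1
  have h3 : 3 * Encodable.encode κ.2 = 3 * Encodable.encode κ'.2 :=
    congrArg (fun a : W × ℕ => a.2) h1
  exact Prod.ext h2 (Encodable.encode_injective (by omega))

theorem StepD.S6_sn_dn {d : W} {i : ℕ} {κ : W × Hc} (h : D.dn κ = D.sn d i) : False := by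
  have h1 := D.nd_inj h
  have h3 : 3 * Encodable.encode κ.2 = 3 * i + 2 := congrArg Prod.snd h1
  omega

theorem S6_getD (i : ℕ) {N : Set ZFSet.{0}} [Mdl N] :
    IF N (fun l : List Fs => l.getD i []) :=
  IF.prim ((Primrec.list_getD ([] : Fs)).comp Primrec.id (Primrec.const i))

/-- two finite sequences have incomparable extensions -/
theorem S6_inc (u v : Fs) : ∃ u' v' : Fs, u <+: u' ∧ v <+: v' ∧ ¬ u' <+: v' ∧ ¬ v' <+: u' := by
  have key : ∀ u v : Fs, u.length = v.length → ¬ (u ++ [0]) <+: (v ++ [1]) ∧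
      ¬ (v ++ [1]) <+: (u ++ [0]) := by
    intro u v h
    constructor
    · intro h1
      have h2 := h1.eq_of_length (by simp [h])
      have h3 := List.append_inj_right h2 h
      simp at h3
    · intro h1
      have h2 := h1.eq_of_length (by simp [h])
      have h3 := List.append_inj_right h2 h.symm
      simp at h3
  have h1 := key (u ++ List.replicate v.length 0) (v ++ List.replicate u.length 0)
    (by simp [add_comm])
  exact ⟨_, _, (List.prefix_append _ _).trans (List.prefix_append _ _),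
    (List.prefix_append _ _).trans (List.prefix_append _ _), h1.1, h1.2⟩

/-- The field `mg`: `in_ext_iff` for `A d` gives `R : ISet S (List Fs × Cond W)` (restrict it to the
conditions in `PP c (D.f d)`); apply `StepD.mg` to the list
`(sn d 0, []) :: (sn d 1, []) :: L.map (fun κ => (dn κ, κ.2.2))`. -/
theorem StepD.mgA (hG : Gen c D.F G) (d : W) [Mdl (ext S (G ∩ PP c (D.f d)))]
    [Cd (ext S (G ∩ PP c (D.f d))) W] [Cx S (ext S (G ∩ PP c (D.f d))) W] (L : List (W × Hc))
    (hL' : L.Nodup) (hd : ∀ κ ∈ L, d ≤ κ.1)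
    (E : ISet (ext S (G ∩ PP c (D.f d))) (List Fs)) (hE : DenseT (L.length + 2) E.1) :
    ∃ t ∈ E.1, List.Forall₂ (fun x u => Pre x u)
      (xr (yy G (D.sn d 0)) :: xr (yy G (D.sn d 1)) :: L.map (D.cc G)) t := by
  obtain ⟨R, hR⟩ := (in_ext_iff (po_pp (D.f d)) (gt_iff_gen.2 (D.gen hG d))
    (T := List Fs)).1 E.in_mem
  have hR1 : In S (fun y : List Fs × Cond W => y.2 ∈ PP c (D.f d) ∧ y ∈ R) :=
    In.and (In.pp (IF.const (D.f d)) IF.snd) (In.mem IF.id (IF.const R))
  have hE1 : ∀ l, l ∈ E.1 ↔ ∃ p ∈ G, (l, p) ∈ (ISet.mk hR1) := by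
    intro l
    refine (hR l).trans ?_
    constructor
    · rintro ⟨p, hp, hpR⟩
      exact ⟨p, hp.1, hp.2, hpR⟩
    · rintro ⟨p, hp, hp2, hpR⟩
      exact ⟨p, ⟨hp, hp2⟩, hpR⟩
  obtain ⟨l, hl, hl2⟩ := D.mg hG d
    ((D.sn d 0, ([] : Fs)) :: (D.sn d 1, ([] : Fs)) :: L.map (fun κ => (D.dn κ, κ.2.2))) (by
      rw [List.map_cons, List.map_cons, List.map_map, List.nodup_cons, List.nodup_cons]
      refine ⟨?_, ?_, ?_⟩
      · rw [List.mem_cons, not_or]
        refine ⟨fun h => ?_, fun h => ?_⟩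
        · have h1 := D.nd_inj h
          have h2 : 3 * 0 + 2 = 3 * 1 + 2 := congrArg Prod.snd h1
          omega
        · obtain ⟨κ, -, e⟩ := List.mem_map.1 h
          exact D.S6_sn_dn e
      · intro h
        obtain ⟨κ, -, e⟩ := List.mem_map.1 h
        exact D.S6_sn_dn e
      · exact hL'.map fun κ κ' h => D.S6_dn_inj h) (by
      intro x hx
      rcases List.mem_cons.1 hx with rfl | hx
      · exact ⟨(d, 3 * 0 + 2), le_refl _, fun h => absurd h (by simp), rfl⟩
      rcases List.mem_cons.1 hx with rfl | hx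
      · exact ⟨(d, 3 * 1 + 2), le_refl _, fun h => absurd h (by simp), rfl⟩
      obtain ⟨κ, hκ, rfl⟩ := List.mem_map.1 hx
      refine ⟨(κ.1, 3 * Encodable.encode κ.2), hd κ hκ, ?_, rfl⟩
      show (3 * Encodable.encode κ.2) % 3 ≠ 1
      omega) (ISet.mk hR1) (fun _ _ h => h.1) (by
      intro s hs
      obtain ⟨t, ht, h⟩ := hE s (by simpa using hs)
      exact ⟨t, (hE1 t).1 ht, h⟩)
  refine ⟨l, (hE1 l).2 hl, ?_⟩
  cases hl2 with
  | cons h1 h2 =>
    cases h2 with
    | cons h3 h4 =>
      rw [S6_cat_nil] at h1 h3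
      refine List.Forall₂.cons h1 (List.Forall₂.cons h3 ?_)
      rw [List.forall₂_map_left_iff] at h4 ⊢
      exact h4

/-- distinct members of the family are different: `StepD.mg` for the set of the pairs of
incomparable sequences, with `d` the smaller one of the two indices (`(∅, ∅) ∈ G`) -/
theorem StepD.cc_inj (hG : Gen c D.F G) : Function.Injective (D.cc G) := by
  intro κ κ' e
  by_contra hne
  have hR1 : In S (fun y : List Fs × Cond W => y.2 = (∅, ∅) ∧
      (¬ y.1.getD 0 [] <+: y.1.getD 1 []) ∧ ¬ y.1.getD 1 [] <+: y.1.getD 0 []) := by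
    have h0 : IF S (fun y : List Fs × Cond W => y.1.getD 0 []) := IF.comp (S6_getD 0) IF.fst
    have h1 : IF S (fun y : List Fs × Cond W => y.1.getD 1 []) := IF.comp (S6_getD 1) IF.fst
    exact In.and (In.eq IF.snd (IF.const _)) (In.and (In.not (In.ipre h0 h1))
      (In.not (In.ipre h1 h0)))
  have hE : ((∅, ∅) : Cond W) ∈ G := by
    obtain ⟨p, hp⟩ := hG.ne
    exact hG.up p hp _ (empty_PP _) (le_empty p)
  obtain ⟨l, ⟨p, hp, -, h1, h2⟩, h3⟩ := D.mg hG (min κ.1 κ'.1)
    [(D.dn κ, κ.2.2), (D.dn κ', κ'.2.2)] (by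
      rw [List.map_cons, List.map_cons, List.map_nil, List.nodup_cons]
      refine ⟨fun h => hne ?_, List.nodup_singleton _⟩
      exact D.S6_dn_inj (List.mem_singleton.1 h)) (by
      intro x hx
      rcases List.mem_cons.1 hx with rfl | hx
      · refine ⟨(κ.1, 3 * Encodable.encode κ.2), min_le_left _ _, ?_, rfl⟩
        show (3 * Encodable.encode κ.2) % 3 ≠ 1
        omega
      obtain rfl := List.mem_singleton.1 hx
      refine ⟨(κ'.1, 3 * Encodable.encode κ'.2), min_le_right _ _, ?_, rfl⟩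
      show (3 * Encodable.encode κ'.2) % 3 ≠ 1
      omega) (ISet.mk hR1) (by
      rintro l q ⟨h, -⟩
      have h' : q = (∅, ∅) := h
      rw [h']
      exact empty_PP _) (by
      intro s hs
      match s, hs with
      | [u, v], _ =>
        obtain ⟨u', v', h1, h2, h3, h4⟩ := S6_inc u v
        exact ⟨[u', v'], ⟨(∅, ∅), hE, rfl, h3, h4⟩,
          List.Forall₂.cons h1 (List.Forall₂.cons h2 List.Forall₂.nil)⟩)
  cases h3 with
  | cons a b =>
    cases b with
    | cons a' b' =>
      cases b' with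
      | nil =>
        have h4 : Pre (D.cc G κ) _ := a
        have h5 : Pre (D.cc G κ') _ := a'
        rw [← e] at h5
        rcases h4.comparable h5 with h | h
        · exact h1 h
        · exact h2 h

end

end Pool.Agent.H.MP_20495c_lc
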