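import Pool.Agent.H.MP_20495c_lc.S.S6

/-!
# MP_20495c, block S (the step), part 6b: the Luzin property of the new family
-/

set_option autoImplicit false
set_option linter.unusedSectionVars false

namespace Pool.Agent.H.MP_20495c_lc

open Pool.Agent.H.MP_07d118_lc Pool.Agent.H.MP_a163f2_lc

universe u v w x

section

variable {S : Set ZFSet.{0}} [Mdl S] {W : Type v} [LinearOrder W] [Cd S W] [Om1 S W]
variable {c : W × Hc → ℕ → ℕ} [hL : Fact (Luz S W c)]
variable (D : StepD S W c) {G : Set (Cond W)}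

theorem S6b_ct (ζ : W) : ICt S {t : (W × ℕ) × List Fs | t.1.1 ≤ ζ} := by
  obtain ⟨ξ, h2⟩ := Om1.bdd (M := S) (fun _ : ℕ => ζ) (IF.const _)
  have h3 : ICt S (Set.univ : Set (List Fs)) := ⟨_, CdP.enc, Encodable.encode_injective.injOn⟩
  refine (((ICt.below (M := S) ξ).prod ICt.nat).prod h3).mono ?_
  rintro t ht
  exact ⟨⟨lt_of_le_of_lt ht (h2 0), Set.mem_univ _⟩, Set.mem_univ _⟩

theorem S6b_dn {κ κ' : W × Hc} (h : D.dn κ = D.dn κ') : κ = κ' := by
  have h1 := D.nd_inj h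
  have h2 : κ.1 = κ'.1 := (Prod.mk.inj h1).1
  have h3 : 3 * Encodable.encode κ.2 = 3 * Encodable.encode κ'.2 := (Prod.mk.inj h1).2
  have h4 : Encodable.encode κ.2 = Encodable.encode κ'.2 := by omega
  exact Prod.ext h2 (Encodable.encode_injective h4)

/-- **The new family is Luzin.**

Proof. `int`: `StepD.ccN`.  `pre`: `pre_cat_self`.  `luz`: let `Φ` be internal in `N`; `in_ext_iff` for
the relation `y.2 ∈ Φ y.1` on `(W × ℕ) × List Fs` gives `R`, and `StepD.name_closed` with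
`K t η := t.1.1 ≤ η` gives `ξ₀ > ζ₀` and `R'`.  For `ζ < ξ₀`, `n` apply `StepD.mg` to
`R'' := {(l, p) | (((ζ, n), l), p) ∈ R'}`, `d := ξ₀`, and the list `k.map (fun κ => (dn κ, κ.2.2))`. -/
theorem StepD.luz (hG : Gen c D.F G) [Mdl (ext S G)] [Cd (ext S G) W] [Cx S (ext S G) W] :
    Luz (ext S G) W (D.cc G) := by
  refine ⟨D.ccN hG, D.cc_inj hG, ?_, ?_⟩
  · intro ξ L τ
    exact pre_cat_self τ _
  · intro Φ hΦ ζ₀
    -- a name of the relation
    have h1 : In (ext S G) (fun y : (W × ℕ) × List Fs => y.2 ∈ Φ y.1) :=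
      In.mem IF.snd (IF.comp hΦ IF.fst)
    obtain ⟨R, hR⟩ := (in_ext_iff (po_pp D.F) (gt_iff_gen.2 hG)).1 h1
    obtain ⟨ξ₀, hξ, R', hR', hRR⟩ := D.name_closed
      (K := fun (t : (W × ℕ) × List Fs) (η : W) => t.1.1 ≤ η)
      (In.leW (IF.comp IF.fst (IF.comp IF.fst IF.fst)) IF.snd) S6b_ct
      (fun t η η' h h' => le_trans h' h) R ζ₀
    refine ⟨ξ₀, hξ, ?_⟩
    intro ζ hζ n k hk hk' hd
    have hiff : ∀ l : List Fs, l ∈ Φ (ζ, n) ↔ ∃ p ∈ G, (((ζ, n), l), p) ∈ R' := by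
      intro l
      rw [← hRR G hG ((ζ, n), l) ⟨ζ, hζ, le_rfl⟩]
      exact hR ((ζ, n), l)
    have h2 : In S (fun y : List Fs × Cond W => (((ζ, n), y.1), y.2) ∈ R') :=
      In.mem (((IF.const (ζ, n)).pair IF.fst).pair IF.snd) (IF.const R')
    obtain ⟨l, ⟨p, hp, hlp⟩, hl⟩ := D.mg hG ξ₀ (k.map fun κ => (D.dn κ, κ.2.2)) (by
        rw [List.map_map]
        refine List.Nodup.map ?_ hk
        intro κ κ' h
        exact S6b_dn D h) (by
        intro x hx
        obtain ⟨κ, hκ, rfl⟩ := List.mem_map.1 hx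
        exact ⟨(κ.1, 3 * Encodable.encode κ.2), hk' κ hκ, by
          show 3 * Encodable.encode κ.2 % 3 ≠ 1
          omega, rfl⟩) (ISet.mk h2) (fun l q hlq => hR' _ q hlq) (by
        intro s hs
        rw [List.length_map] at hs
        obtain ⟨t, ht, ht'⟩ := hd s hs
        exact ⟨t, (hiff t).1 ht, ht'⟩)
    refine ⟨l, (hiff l).2 ⟨p, hp, hlp⟩, ?_⟩
    rw [List.forall₂_map_left_iff] at hl
    exact hl

end

end Pool.Agent.H.MP_20495c_lc
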