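import Pool.Agent.H.MP_20495c_lc.Up
import Pool.Agent.H.MP_20495c_lc.Om
import Pool.Agent.H.MP_20495c_lc.Co1

/-!
# MP_20495c, block S, part 8: the cut lemma

Let `N`, `A d`, `c'`, `sp` be as in the package of the step, `g` a valid plan of `N` (with respect
to `c'`) and `H` generic for `g` over `N`.  `Pd c' g d` is the set of the conditions of `g` with
indices below `d`.  For large `d` it is a countable poset of `A d`, `H ∩ Pd c' g d` is generic over
`A d`, and the two spare reals of index `d` are Cohen over the extension.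
-/

set_option autoImplicit false
set_option linter.unusedSectionVars false

namespace Pool.Agent.H.MP_20495c_lc

open Pool.Agent.H.MP_07d118_lc Pool.Agent.H.MP_a163f2_lc

universe u v w x

/-- the conditions of the plan `g` with indices below `d` -/
def Pd {N : Set ZFSet.{0}} [Mdl N] {W : Type v} [LinearOrder W] [Cd N W] (c' : W × Hc → ℕ → ℕ)
    (g : Pl N W) (d : W) : Set (Cond W) := {p | p ∈ PP c' g ∧ Bd d p}

/-- `g` is internal in `A` and bounded by `d` -/
structure Sm {N : Set ZFSet.{0}} [Mdl N] {W : Type v} [LinearOrder W] [Cd N W]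
    (A : Set ZFSet.{0}) [Mdl A] [Cd A W] (g : Pl N W) (d : W) : Prop where
  inA : In A (fun x : W × Cond W × Fs => x ∈ g)
  bd : ∀ ν q t, (ν, q, t) ∈ g → ν < d ∧ Bd d q

section aux8

variable {M : Type u} [SetStr M] [ZF M] [Std M] {W : Type v} [LinearOrder W] [Cd M W]
variable {c : W × Hc → ℕ → ℕ} {T : Type w} [Cd M T]

theorem S8_prec (hc : IF M (fun y : (W × Hc) × ℕ => c y.1 y.2)) {κ : T → W × Hc} (hκ : IF M κ)
    {m : T → Fs} (hm : IF M m) : In M (fun t => Pre (c (κ t)) (m t)) := by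
  exact In.pre (x := fun t => c (κ t))
    (IF.comp (g := fun y : (W × Hc) × ℕ => c y.1 y.2) hc ((IF.comp hκ IF.fst).pair IF.snd))
    hm

theorem S8_cle (hc : IF M (fun y : (W × Hc) × ℕ => c y.1 y.2)) {p q : T → Cond W} (hp : IF M p)
    (hq : IF M q) : In M (fun t => CLe c (p t) (q t)) := by
  have h3 : In M (fun t => ∀ x : W × Fs, x ∈ (p t).1 → ¬ x ∈ (q t).1 → ∀ κ : W × Hc,
      (x.1, κ) ∈ (q t).2 → ¬ Pre (c κ) x.2) := by
    refine In.all (P := fun (t : T) (x : W × Fs) => x ∈ (p t).1 → ¬ x ∈ (q t).1 → ∀ κ : W × Hc,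
      (x.1, κ) ∈ (q t).2 → ¬ Pre (c κ) x.2) ?_
    refine In.imp (In.fmem IF.snd (IF.comp IF.fst (IF.comp hp IF.fst)))
      (In.imp (In.fmem IF.snd (IF.comp IF.fst (IF.comp hq IF.fst))).not ?_)
    refine In.all (P := fun (y : T × (W × Fs)) (κ : W × Hc) =>
      (y.2.1, κ) ∈ (q y.1).2 → ¬ Pre (c κ) y.2.2) ?_
    refine In.imp (In.fmem (IF.pair (IF.comp IF.fst (IF.comp IF.snd IF.fst)) IF.snd)
      (IF.comp IF.snd (IF.comp hq (IF.comp IF.fst IF.fst)))) (In.not ?_)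
    exact S8_prec (c := c) hc IF.snd (IF.comp IF.snd (IF.comp IF.snd IF.fst))
  refine ((In.fsubset (IF.comp IF.fst hq) (IF.comp IF.fst hp)).and
    ((In.fsubset (IF.comp IF.snd hq) (IF.comp IF.snd hp)).and h3)).congr fun t => ?_
  unfold CLe
  refine and_congr_right fun _ => and_congr_right fun _ => ?_
  exact ⟨fun h x h1 h2 κ h4 => h x.1 x.2 h1 h2 κ h4,
    fun h ν m h1 h2 κ h4 => h (ν, m) h1 h2 κ h4⟩

/-- the definition of the conditions of a plan which is given by a predicate -/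
theorem S8_pp (hc : IF M (fun y : (W × Hc) × ℕ => c y.1 y.2)) {g : W × Cond W × Fs → Prop}
    (hg : In M g) : In M (fun p : Cond W =>
      (∀ x : W × Fs, x ∈ p.1 → ∃ z : Cond W × Fs, g (x.1, z)) ∧
      ∀ x : W × (W × Hc), x ∈ p.2 → ∃ z : Cond W × Fs,
        g (x.1, z) ∧ CLe c p z.1 ∧ ∃ u : Fs, u ∈ x.2.2.1 ∧ u <+: z.2) := by
  refine In.and ?_ ?_
  · refine In.all (P := fun (p : Cond W) (x : W × Fs) => x ∈ p.1 →
      ∃ z : Cond W × Fs, g (x.1, z)) ?_
    refine In.imp (In.fmem IF.snd (IF.comp IF.fst IF.fst)) ?_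
    refine In.ex (P := fun (y : Cond W × (W × Fs)) (z : Cond W × Fs) => g (y.2.1, z)) ?_
    exact In.comp hg (IF.pair (IF.comp IF.fst (IF.comp IF.snd IF.fst)) IF.snd)
  · refine In.all (P := fun (p : Cond W) (x : W × (W × Hc)) => x ∈ p.2 → ∃ z : Cond W × Fs,
      g (x.1, z) ∧ CLe c p z.1 ∧ ∃ u : Fs, u ∈ x.2.2.1 ∧ u <+: z.2) ?_
    refine In.imp (In.fmem IF.snd (IF.comp IF.snd IF.fst)) ?_
    refine In.ex (P := fun (y : Cond W × (W × (W × Hc))) (z : Cond W × Fs) =>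
      g (y.2.1, z) ∧ CLe c y.1 z.1 ∧ ∃ u : Fs, u ∈ y.2.2.2.1 ∧ u <+: z.2) ?_
    refine In.and (In.comp hg (IF.pair (IF.comp IF.fst (IF.comp IF.snd IF.fst)) IF.snd))
      (In.and (S8_cle hc (IF.comp IF.fst IF.fst) (IF.comp IF.fst IF.snd)) ?_)
    refine In.ex (P := fun (y : (Cond W × (W × (W × Hc))) × (Cond W × Fs)) (u : Fs) =>
      u ∈ y.1.2.2.2.1 ∧ u <+: y.2.2) ?_
    refine In.and (In.memL IF.snd ?_) (In.ipre IF.snd (IF.comp IF.snd (IF.comp IF.snd IF.fst)))
    exact IF.comp IF.fst (IF.comp IF.snd (IF.comp IF.snd (IF.comp IF.snd (IF.comp IF.fst IF.fst))))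

end aux8

/-- the order below a bounded condition depends only on the members of the family with small
index -/
theorem S8_cle_congr {W : Type v} [LinearOrder W] {c c₁ : W × Hc → ℕ → ℕ} {d : W}
    (h : ∀ κ : W × Hc, κ.1 < d → c κ = c₁ κ) {p q : Cond W} (hq : Bd d q) :
    CLe c p q ↔ CLe c₁ p q := by
  unfold CLe
  refine and_congr_right fun _ => and_congr_right fun _ => ?_
  constructor
  · intro h1 ν m h2 h3 κ h4
    rw [← h κ (hq.2 ν κ.1 κ.2 h4).2]
    exact h1 ν m h2 h3 κ h4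
  · intro h1 ν m h2 h3 κ h4
    rw [h κ (hq.2 ν κ.1 κ.2 h4).2]
    exact h1 ν m h2 h3 κ h4

section

variable {S : Set ZFSet.{0}} [Mdl S] {W : Type v} [LinearOrder W] [Cd S W] [Om1 S W]
variable {c : W × Hc → ℕ → ℕ} [hL : Fact (Luz S W c)] {N : Set ZFSet.{0}} [Mdl N] [Cd N W]
  [Om1 N W]
variable {A : W → Set ZFSet.{0}} [∀ d, Mdl (A d)] [∀ d, Cd (A d) W] [∀ d, Om1 (A d) W]
variable {c' : W × Hc → ℕ → ℕ} {f : W → Pl S W} {G : W → Set (Cond W)} {sp : W → ℕ → ℕ → ℕ}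

theorem SPk.cx_AN (K : SPk S c N A c' f G sp) (d : W) : Cx (A d) N W :=
  ⟨fun t => ((K.cxA d).eq t).symm.trans (K.cxN.eq t)⟩

theorem SPk.cx_AA (K : SPk S c N A c' f G sp) (d d' : W) : Cx (A d) (A d') W :=
  ⟨fun t => ((K.cxA d).eq t).symm.trans ((K.cxA d').eq t)⟩

/-- internal subsets in `N` of a set which is countable in `S` are in some `A d`, and in all later
ones.

Proof. Let `k : T → ℕ` be internal in `S` and injective on `B`.  The characteristic function `x` of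
`{k t | P t}` is internal in `N`, so a real of some `A d₀` (`K.real`, `mem_reals`), and of all later
ones (`K.mono`).  In `A d`: `P t ↔ t ∈ B ∧ x (k t) = 1`, as `B` and `k` are internal in `S`
(`In.lift`, `IF.lift`, `S ⊆ A d` from `K.extA` and `sub_ext`/`GExt`; `Cx` instances for `T`, `ℕ`). -/
theorem SPk.countable (K : SPk S c N A c' f G sp) {T : Type w} [Cd S T] [Cd N T]
    [∀ d, Cd (A d) T] (h1 : Cx S N T) (h2 : ∀ d, Cx S (A d) T) {P : T → Prop} (hP : In N P)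
    {B : Set T} (hB : ICt S B) (hBi : In S (fun t => t ∈ B)) (hPB : ∀ t, P t → t ∈ B) :
    ∃ d₀, ∀ d, d₀ ≤ d → In (A d) P := by
  classical
  obtain ⟨k, hk, hki⟩ := hB
  have hSN : S ⊆ N := GExt.sub K.gx
  have hkN : IF N k := IF.lift hSN hk
  obtain ⟨x, hx⟩ : ∃ x : ℕ → ℕ, x = fun n => if (∃ t, P t ∧ k t = n) then 1 else 0 := ⟨_, rfl⟩
  have hxN : IF N x := by
    rw [hx]
    refine IF.ite ?_ (IF.const 1) (IF.const 0)
    exact In.ex (P := fun (n : ℕ) (t : T) => P t ∧ k t = n)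
      ((hP.comp IF.snd).and (In.eq (IF.comp hkN IF.snd) IF.fst))
  obtain ⟨d₀, hd₀⟩ := K.real x (mem_reals.2 hxN)
  refine ⟨d₀, fun d hd => ?_⟩
  have hxd : IF (A d) x := mem_reals.1 (reals_mono_set (K.mono d₀ d hd) hd₀)
  have hSA : S ⊆ A d := by
    rw [K.extA d]
    exact sub_ext (po_pp (f d)) (gt_iff_gen.2 (K.gen d))
  have h2d : Cx S (A d) T := h2 d
  have hkd : IF (A d) k := IF.lift hSA hk
  have hBd : In (A d) (fun t => t ∈ B) := In.lift hSA hBi
  refine (hBd.and (In.eq (IF.comp hxd hkd) (IF.const 1))).congr fun t => ?_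
  constructor
  · intro h
    refine ⟨hPB t h, ?_⟩
    rw [hx]
    exact if_pos ⟨t, h, rfl⟩
  · rintro ⟨h3, h4⟩
    rw [hx] at h4
    by_cases h5 : ∃ t', P t' ∧ k t' = k t
    · obtain ⟨t', h6, h7⟩ := h5
      rw [← hki (hPB t' h6) h3 h7]
      exact h6
    · have h4' : (if (∃ t', P t' ∧ k t' = k t) then 1 else 0) = 1 := h4
      rw [if_neg h5] at h4'
      exact absurd h4' (by decide)

/-- every valid plan of `N` is small for all large `d`

Proof. By `Valid.bdd` the entries are bounded by some `ζ`, so `g` is a subset of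
`{x | x.1 < ζ ∧ Bd ζ x.2.1}`, which is countable in `S` (`ICt.conds`, `ICt.fs`); use
`SPk.countable` and the maximum of the bounds. -/
theorem SPk.exists_sm (K : SPk S c N A c' f G sp) {g : Pl N W} (hg : Valid c' g) :
    ∃ d₀, ∀ d, d₀ ≤ d → Sm (A d) g d := by
  obtain ⟨ζ, hζ⟩ := hg.bdd
  have hcN : Cx S N W := K.cxN
  have hcA : ∀ d, Cx S (A d) W := K.cxA
  obtain ⟨d₁, hd₁⟩ := K.countable (T := W × Cond W × Fs) inferInstance (fun d => by
      have := hcA d
      infer_instance) (P := fun x => x ∈ g) g.in_mem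
    (B := {x : W × Cond W × Fs | x.1 < ζ ∧ Bd ζ x.2.1})
    (((ICt.below (M := S) ζ).prod ((ICt.conds (M := S) ζ).prod ICt.fs)).mono
      fun x hx => ⟨hx.1, hx.2, Set.mem_univ _⟩)
    ((In.ltW IF.fst (IF.const ζ)).and (In.bd (IF.const ζ) (IF.comp IF.fst IF.snd)))
    (fun x hx => hζ x.1 x.2.1 x.2.2 hx)
  refine ⟨max d₁ ζ, fun d hd => ⟨hd₁ d ((le_max_left _ _).trans hd), fun ν q t h => ?_⟩⟩
  have h1 := hζ ν q t h
  exact ⟨h1.1.trans_le ((le_max_right _ _).trans hd), h1.2.mono ((le_max_right _ _).trans hd)⟩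

/-- `Pd c' g d` is a poset of `A d`: its definition and its order use only the members `c' κ` with
`κ.1 < d` (all indices of the conditions and of the entries of `g` are below `d`), `K.inA`. -/
theorem SPk.po_Pd (K : SPk S c N A c' f G sp) {g : Pl N W} {d : W} (hs : Sm (A d) g d) :
    Po (A d) (Pd c' g d) (CLe c') := by
  classical
  obtain ⟨c₁, hc₁⟩ : ∃ c₁ : W × Hc → ℕ → ℕ, c₁ = fun κ n => if κ.1 < d then c' κ n else 0 :=
    ⟨_, rfl⟩
  have he : ∀ κ : W × Hc, κ.1 < d → c' κ = c₁ κ := by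
    intro κ hκ
    funext n
    rw [hc₁]
    exact (if_pos hκ).symm
  have hint : IF (A d) (fun y : (W × Hc) × ℕ => c₁ y.1 y.2) := by
    refine IF.of_in ?_
    have h1 : In (A d) (fun y : ((W × Hc) × ℕ) × ℕ => y.1.1.1 < d ∧ c' y.1.1 y.1.2 = y.2) :=
      In.comp (f := fun y : ((W × Hc) × ℕ) × ℕ => (y.1.1, y.1.2, y.2)) (K.inA d)
        ((IF.comp IF.fst IF.fst).pair ((IF.comp IF.snd IF.fst).pair IF.snd))
    have h2 : In (A d) (fun y : ((W × Hc) × ℕ) × ℕ => ¬ y.1.1.1 < d ∧ 0 = y.2) :=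
      (In.ltW (IF.comp IF.fst (IF.comp IF.fst IF.fst)) (IF.const d)).not.and
        (In.eq (IF.const 0) IF.snd)
    refine (h1.or h2).congr fun y => ?_
    rw [hc₁]
    by_cases hy : y.1.1.1 < d
    · simp [hy]
    · simp [hy]
  have hV : In (A d) (fun p => p ∈ Pd c' g d) := by
    refine ((S8_pp hint hs.inA).and (In.bd (IF.const d) IF.id)).congr fun p => ?_
    refine and_congr_left fun _ => ?_
    constructor
    · intro h
      refine ⟨fun x hx => ?_, fun x hx => ?_⟩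
      · obtain ⟨q, m, h3⟩ := h.1 x.1 x.2 hx
        exact ⟨(q, m), h3⟩
      · obtain ⟨q, m, h3, h4, u, h5, h6⟩ := h.2 x.1 x.2 hx
        exact ⟨(q, m), h3, (S8_cle_congr he (hs.bd _ _ _ h3).2).1 h4, u, h5, h6⟩
    · intro h
      refine ⟨fun ν m hx => ?_, fun ν κ hx => ?_⟩
      · obtain ⟨z, h3⟩ := h.1 (ν, m) hx
        exact ⟨z.1, z.2, h3⟩
      · obtain ⟨z, h3, h4, u, h5, h6⟩ := h.2 (ν, κ) hx
        exact ⟨z.1, z.2, h3, (S8_cle_congr he (hs.bd _ _ _ h3).2).2 h4, u, h5, h6⟩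
  refine ⟨hV, ?_, fun p _ => CLe.refl p, fun _ _ _ _ _ _ h1 h2 => h1.trans h2⟩
  refine ((hV.comp IF.fst).and ((hV.comp IF.snd).and (S8_cle hint IF.fst IF.snd))).congr
    fun y => ?_
  refine and_congr_right fun _ => and_congr_right fun h => ?_
  exact S8_cle_congr he h.2

/-- `ICt.conds` in `A d` -/
theorem SPk.ct_Pd (K : SPk S c N A c' f G sp) {g : Pl N W} {d : W} : ICt (A d) (Pd c' g d) := by
  have _ := K.gx
  exact (ICt.conds (M := A d) d).mono fun p hp => hp.2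

end

end Pool.Agent.H.MP_20495c_lc
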