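import Pool.Agent.H.MP_20495c_lc.S.S8

/-!
# MP_20495c, block S, part 8b: the cut lemma (proof)

Let `N`, `A d`, `c'`, `sp` be as in the package of the step, `g` a valid plan of `N` (with respect
to `c'`) and `H` generic for `g` over `N`.  `Pd c' g d` is the set of the conditions of `g` with
indices below `d`.  For large `d` it is a countable poset of `A d`, `H ∩ Pd c' g d` is generic over
`A d`, and the two spare reals of index `d` are Cohen over the extension.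
-/

set_option autoImplicit false
set_option linter.unusedSectionVars false

namespace Pool.Agent.H.MP_20495c_lc

open Pool.Agent.H.MP_07d118_lc Pool.Agent.H.MP_a163f2_lc

universe u v w x

section aux

variable {N : Set ZFSet.{0}} [Mdl N] {W : Type v} [LinearOrder W] [Cd N W]
variable {c' : W × Hc → ℕ → ℕ}

theorem S8b_le {d : W} {p q : Cond W} (F : Finset (W × W × Hc)) (hq : Bd d q)
    (h : CLe c' p q) : CLe c' (p.1, p.2.filter (fun x => x.2.1 < d) ∪ F) q := by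
  refine ⟨h.1, fun x hx => ?_, h.2.2⟩
  exact Finset.mem_union_left _ (Finset.mem_filter.2 ⟨h.2.1 hx, (hq.2 x.1 x.2.1 x.2.2 hx).2⟩)

theorem S8b_mem {g : Pl N W} {d : W} (hb : ∀ ν q t, (ν, q, t) ∈ g → ν < d ∧ Bd d q)
    {p : Cond W} (hp : p ∈ PP c' g) (F : Finset (W × W × Hc))
    (hF : ∀ x ∈ F, x.2.1 < d ∧ ∃ κ : W × Hc, (x.1, κ) ∈ p.2 ∧ x.2.2.1 = κ.2.1) :
    ((p.1, p.2.filter (fun x => x.2.1 < d) ∪ F) : Cond W) ∈ Pd c' g d := by
  have hdom : ∀ ν ∈ g.dom, ν < d := by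
    rintro ν ⟨q, t, h⟩
    exact (hb ν q t h).1
  refine ⟨⟨hp.1, fun ν κ hκ => ?_⟩, fun ν m hm => hdom ν (hp.1 ν m hm), fun ν ξ h hκ => ?_⟩
  · rcases Finset.mem_union.1 hκ with h1 | h1
    · obtain ⟨q, t, h2, h3, h4⟩ := hp.2 ν κ (Finset.mem_filter.1 h1).1
      exact ⟨q, t, h2, S8b_le F (hb ν q t h2).2 h3, h4⟩
    · obtain ⟨-, κ', h2, h3⟩ := hF _ h1
      obtain ⟨q, t, h4, h5, u, h6, h7⟩ := hp.2 ν κ' h2
      refine ⟨q, t, h4, S8b_le F (hb ν q t h4).2 h5, u, ?_, h7⟩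
      have h8 : κ.2.1 = κ'.2.1 := h3
      rw [h8]
      exact h6
  · rcases Finset.mem_union.1 hκ with h1 | h1
    · obtain ⟨h2, h3⟩ := Finset.mem_filter.1 h1
      exact ⟨hdom ν (PP.dom2 hp h2), h3⟩
    · obtain ⟨h2, κ', h3, -⟩ := hF _ h1
      exact ⟨hdom ν (PP.dom2 hp h3), h2⟩

theorem S8b_getL {M : Type u} [SetStr M] [ZF M] [Std M] {T : Type w} [Cd M T] {m : T → List Fs}
    (hm : IF M m) {i : T → ℕ} (hi : IF M i) : IF M (fun t => (m t).getD (i t) []) :=
  IF.prim2 (F := fun (l : List (List ℕ)) (j : ℕ) => l.getD j []) (Primrec.list_getD []) hm hi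

theorem S8b_forall2_getD {R : (ℕ → ℕ) → Fs → Prop} {L : List (ℕ → ℕ)} {l : List Fs}
    (h : List.Forall₂ R L l) (i : ℕ) (hi : i < L.length) (x : ℕ → ℕ) :
    R (L.getD i x) (l.getD i []) := by
  have h1 : i < l.length := by rw [← h.length_eq]; exact hi
  rw [List.getD_eq_getElem _ _ hi, List.getD_eq_getElem _ _ h1]
  exact (List.forall₂_iff_get.1 h).2 i hi h1

end aux

section

variable {S : Set ZFSet.{0}} [Mdl S] {W : Type v} [LinearOrder W] [Cd S W] [Om1 S W]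
variable {c : W × Hc → ℕ → ℕ} [hL : Fact (Luz S W c)] {N : Set ZFSet.{0}} [Mdl N] [Cd N W]
  [Om1 N W]
variable {A : W → Set ZFSet.{0}} [∀ d, Mdl (A d)] [∀ d, Cd (A d) W] [∀ d, Om1 (A d) W]
variable {c' : W × Hc → ℕ → ℕ} {f : W → Pl S W} {G : W → Set (Cond W)} {sp : W → ℕ → ℕ → ℕ}

/-- **The cut lemma.**

Proof. The set of the `p' ∈ PP c' g` such that for some `q ∈ Pd c' g d`, `t`, `t'`: `(q, t, t') ∈ D`,
`CLe c' p' q`, `Pre (sp d 0) t`, `Pre (sp d 1) t'` is internal in `N` (lift `D` from `A d` to `N`); we show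
that it is dense, then `H` meets it.  Let `p ∈ PP c' g`.  All nodes of `g` are below `d` (`hs.bd`).  Let
`p₀ := (p.1, p.2.filter (κ.1 < d))`; it is in `Pd c' g d` (the entry `(ν, q, t)` of `g` which makes a
promise legal has `Bd d q`, so `CLe c' p₀ q`), and `CLe c' p p₀`.  Let `P` be the set of the dropped
promises `(ν, κ)`, `d ≤ κ.1`, and `L` the list of the distinct `κ` occurring in `P`.
Let `D' : ISet (A d) (List Fs)` be the set of the lists `s :: s' :: l`, `l.length = L.length`, such that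
either some `l_κ` is incomparable with `κ.2.2` (the prescribed initial segment of `c' κ`), or there
are `(q, t, t') ∈ D` with `q ∈ Pd c' g d`, `CLe c' q p₀`, `t <+: s`, `t' <+: s'`, such that no stem
`(ν, m) ∈ q.1`, `(ν, m) ∉ p.1`, with `(ν, κ) ∈ P` has `m` comparable with `l_κ`.  It is internal in
`A d` (`po_Pd`).
`DenseT (L.length + 2) D'`: given `s :: s' :: l` (otherwise lengthen `l_κ` such that it extends
`κ.2.2`; if this is impossible, it is incomparable), let `p₁` be `p₀` together with the promises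
`(ν, (ξ, (κ.2.1, l_κ)))` for `(ν, κ) ∈ P`, `ξ < d` arbitrary (`hd`); it is in `Pd c' g d` (legality depends
only on `κ.2.1` and on the entry of `g`) and `CLe c' p₁ p₀`.  `hD` gives `q ≤ p₁`, `t ⊇ s`, `t' ⊇ s'` with
`(q, t, t') ∈ D`.  For a new stem `(ν, m)` of `q` with `(ν, κ) ∈ P`, `m` is not an initial segment of
`c' (ξ, (κ.2.1, l_κ))`, which extends `l_κ` (`K.luz.pre`), so not an initial segment of `l_κ`.
Lengthen every `l_κ` by a digit different from all `m.getD l_κ.length 0`, `m` a new stem of `q`: the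
new `l_κ` is incomparable with all these `m`.
`K.mg` gives an element `s :: s' :: l` of `D'` with `Pre (sp d 0) s`, `Pre (sp d 1) s'`, `Pre (c' κ) l_κ`;
the first alternative is impossible by `K.luz.pre`.  With `q` from the second one,
`cup q p` is in `PP c' g` and below `q` and `p`: a new stem `(ν, m)` of `q` does not violate a
promise `(ν, κ)` of `p`: if `κ.1 < d` because `CLe c' q p₀`, and if `(ν, κ) ∈ P`, because `m` and the
initial segment `l_κ` of `c' κ` are incomparable. -/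
theorem SPk.cut (K : SPk S c N A c' f G sp) {g : Pl N W} (hg : Valid c' g) {d : W}
    (hs : Sm (A d) g d) (hd : ∃ η, η < d) {H : Set (Cond W)} (hH : Gen c' g H)
    (D : ISet (A d) (Cond W × Fs × Fs))
    (hD : ∀ p ∈ Pd c' g d, ∀ s s' : Fs, ∃ q ∈ Pd c' g d, ∃ t t' : Fs, CLe c' q p ∧ s <+: t ∧
      s' <+: t' ∧ (q, t, t') ∈ D) :
    ∃ q ∈ H ∩ Pd c' g d, ∃ t t' : Fs, (q, t, t') ∈ D ∧ Pre (sp d 0) t ∧ Pre (sp d 1) t' := by
  have cxAN : Cx (A d) N W := K.cx_AN d
  have hLN : Fact (Luz N W c') := ⟨K.luz⟩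
  have hb := hs.bd
  have hPd : In N (fun q : Cond W => q ∈ Pd c' g d) :=
    In.and (In.pp (IF.const g) IF.id) (In.bd (IF.const d) IF.id)
  have hDN : In N (fun z : Cond W × Fs × Fs => z ∈ D) := In.lift (K.subN d) D.2
  have hsp : ∀ i, IF N (sp d i) := fun i => mem_reals.1 (K.spN d i)
  have hE : In N (fun p' : Cond W => ∃ z : Cond W × Fs × Fs, z ∈ D ∧ z.1 ∈ Pd c' g d ∧
      CLe c' p' z.1 ∧ Pre (sp d 0) z.2.1 ∧ Pre (sp d 1) z.2.2) := by
    refine In.ex (P := fun (p' : Cond W) (z : Cond W × Fs × Fs) => z ∈ D ∧ z.1 ∈ Pd c' g d ∧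
      CLe c' p' z.1 ∧ Pre (sp d 0) z.2.1 ∧ Pre (sp d 1) z.2.2) ?_
    refine In.and (hDN.comp IF.snd) (In.and (hPd.comp (IF.comp IF.fst IF.snd))
      (In.and (In.cle IF.fst (IF.comp IF.fst IF.snd)) (In.and ?_ ?_)))
    · exact In.pre (x := fun _ => sp d 0) (IF.comp (hsp 0) IF.snd)
        (IF.comp IF.fst (IF.comp IF.snd IF.snd))
    · exact In.pre (x := fun _ => sp d 1) (IF.comp (hsp 1) IF.snd)
        (IF.comp IF.snd (IF.comp IF.snd IF.snd))
  suffices hmain : ∀ p ∈ PP c' g, ∃ p' ∈ PP c' g, CLe c' p' p ∧ p' ∈ ISet.mk hE by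
    obtain ⟨p', h1, z, h2, h3, h4, h5, h6⟩ := hH.meets (ISet.mk hE) hmain
    exact ⟨z.1, ⟨hH.up p' h1 z.1 h3.1 h4, h3⟩, z.2.1, z.2.2, h2, h5, h6⟩
  intro p hp
  obtain ⟨ξ, hξ⟩ := hd
  -- the dropped promises
  obtain ⟨P, hP⟩ : ∃ P : Finset (W × W × Hc), ∀ x, x ∈ P ↔ x ∈ p.2 ∧ ¬ x.2.1 < d :=
    ⟨p.2.filter (fun x => ¬ x.2.1 < d), fun x => Finset.mem_filter⟩
  obtain ⟨L, hLn, hLm⟩ : ∃ L : List (W × Hc), L.Nodup ∧ ∀ κ, κ ∈ L ↔ ∃ ν, (ν, κ) ∈ P := by
    refine ⟨(P.image (fun x => x.2)).toList, Finset.nodup_toList _, fun κ => ?_⟩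
    rw [Finset.mem_toList, Finset.mem_image]
    constructor
    · rintro ⟨x, hx, rfl⟩
      exact ⟨x.1, hx⟩
    · rintro ⟨ν, hν⟩
      exact ⟨_, hν, rfl⟩
  obtain ⟨κf, hκf⟩ : ∃ κf : ℕ → W × Hc, ∀ i (hi : i < L.length), κf i = L[i] :=
    ⟨fun i => L.getD i (d, default), fun i hi => List.getD_eq_getElem _ _ hi⟩
  have hκf' : ∀ κ ∈ L, ∃ i, i < L.length ∧ κf i = κ := by
    intro κ hκ
    obtain ⟨i, hi, e⟩ := List.mem_iff_getElem.1 hκ
    exact ⟨i, hi, by rw [hκf i hi, e]⟩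
  obtain ⟨Q, hQ⟩ : ∃ Q : Finset (W × ℕ), ∀ ν i, (ν, i) ∈ Q ↔ i < L.length ∧ (ν, κf i) ∈ P := by
    classical
    refine ⟨((P.image (fun x => x.1)) ×ˢ Finset.range L.length).filter
      (fun y => (y.1, κf y.2) ∈ P), fun ν i => ?_⟩
    rw [Finset.mem_filter, Finset.mem_product, Finset.mem_range, Finset.mem_image]
    constructor
    · rintro ⟨⟨-, h1⟩, h2⟩
      exact ⟨h1, h2⟩
    · rintro ⟨h1, h2⟩
      exact ⟨⟨⟨_, h2, rfl⟩, h1⟩, h2⟩
  obtain ⟨C, hC⟩ : ∃ C : List Fs, ∀ i, i < L.length → C.getD i [] = (κf i).2.2 := by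
    refine ⟨L.map (fun κ => κ.2.2), fun i hi => ?_⟩
    rw [List.getD_eq_getElem _ _ (by simpa using hi), List.getElem_map, hκf i hi]
  obtain ⟨p₀, hp₀⟩ : ∃ p₀ : Cond W, p₀ = (p.1, p.2.filter (fun x => x.2.1 < d) ∪ ∅) := ⟨_, rfl⟩
  have hp₀P : p₀ ∈ Pd c' g d := by
    rw [hp₀]
    exact S8b_mem hb hp ∅ (fun x hx => by simp at hx)
  have hD' : In (A d) (fun T : List Fs =>
      (∃ i : ℕ, i < L.length ∧ ¬ (T.getD (i + 2) [] <+: C.getD i []) ∧
        ¬ (C.getD i [] <+: T.getD (i + 2) [])) ∨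
      ∃ z : Cond W × Fs × Fs, z ∈ D ∧ (z.1 ∈ Pd c' g d ∧ p₀ ∈ Pd c' g d ∧ CLe c' z.1 p₀) ∧
        z.2.1 <+: T.getD 0 [] ∧ z.2.2 <+: T.getD 1 [] ∧ ∀ x : W × Fs, x ∈ z.1.1 → ¬ x ∈ p.1 →
          ∀ i : ℕ, (x.1, i) ∈ Q → ¬ (x.2 <+: T.getD (i + 2) []) ∧
            ¬ (T.getD (i + 2) [] <+: x.2)) := by
    refine In.or ?_ ?_
    · refine In.ex (P := fun (T : List Fs) (i : ℕ) => i < L.length ∧
        ¬ (T.getD (i + 2) [] <+: C.getD i []) ∧ ¬ (C.getD i [] <+: T.getD (i + 2) [])) ?_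
      have e1 : IF (A d) (fun y : List Fs × ℕ => y.1.getD (y.2 + 2) []) :=
        S8b_getL IF.fst (IF.succ' (IF.succ' IF.snd))
      have e2 : IF (A d) (fun y : List Fs × ℕ => C.getD y.2 []) :=
        S8b_getL (IF.const C) IF.snd
      exact In.and (In.lt IF.snd (IF.const L.length))
        (In.and (In.ipre e1 e2).not (In.ipre e2 e1).not)
    · refine In.ex (P := fun (T : List Fs) (z : Cond W × Fs × Fs) => z ∈ D ∧
        (z.1 ∈ Pd c' g d ∧ p₀ ∈ Pd c' g d ∧ CLe c' z.1 p₀) ∧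
        z.2.1 <+: T.getD 0 [] ∧ z.2.2 <+: T.getD 1 [] ∧ ∀ x : W × Fs, x ∈ z.1.1 → ¬ x ∈ p.1 →
          ∀ i : ℕ, (x.1, i) ∈ Q → ¬ (x.2 <+: T.getD (i + 2) []) ∧
            ¬ (T.getD (i + 2) [] <+: x.2)) ?_
      refine In.and (D.in_mem.comp IF.snd) (In.and ?_ (In.and ?_ (In.and ?_ ?_)))
      · exact (K.po_Pd hs).inle.comp
          (f := fun y : List Fs × (Cond W × Fs × Fs) => (y.2.1, p₀))
          ((IF.comp IF.fst IF.snd).pair (IF.const p₀))
      · exact In.ipre (IF.comp IF.fst (IF.comp IF.snd IF.snd)) (S8b_getL IF.fst (IF.const 0))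
      · exact In.ipre (IF.comp IF.snd (IF.comp IF.snd IF.snd)) (S8b_getL IF.fst (IF.const 1))
      · refine In.all (P := fun (y : List Fs × (Cond W × Fs × Fs)) (x : W × Fs) =>
          x ∈ y.2.1.1 → ¬ x ∈ p.1 → ∀ i : ℕ, (x.1, i) ∈ Q →
            ¬ (x.2 <+: y.1.getD (i + 2) []) ∧ ¬ (y.1.getD (i + 2) [] <+: x.2)) ?_
        refine In.imp (In.fmem IF.snd (IF.comp IF.fst (IF.comp IF.fst (IF.comp IF.snd IF.fst))))
          (In.imp ((In.finset p.1).comp IF.snd).not ?_)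
        refine In.all (P := fun (y : (List Fs × (Cond W × Fs × Fs)) × (W × Fs)) (i : ℕ) =>
          (y.2.1, i) ∈ Q →
            ¬ (y.2.2 <+: y.1.1.getD (i + 2) []) ∧ ¬ (y.1.1.getD (i + 2) [] <+: y.2.2)) ?_
        have e1 : IF (A d) (fun y : ((List Fs × (Cond W × Fs × Fs)) × (W × Fs)) × ℕ =>
            y.1.1.1.getD (y.2 + 2) []) :=
          S8b_getL (IF.comp IF.fst (IF.comp IF.fst IF.fst)) (IF.succ' (IF.succ' IF.snd))
        have e2 : IF (A d) (fun y : ((List Fs × (Cond W × Fs × Fs)) × (W × Fs)) × ℕ =>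
            y.1.2.2) := IF.comp IF.snd (IF.comp IF.snd IF.fst)
        have e3 : IF (A d) (fun y : ((List Fs × (Cond W × Fs × Fs)) × (W × Fs)) × ℕ =>
            (y.1.2.1, y.2)) := (IF.comp IF.fst (IF.comp IF.snd IF.fst)).pair IF.snd
        exact In.imp ((In.finset Q).comp e3)
          (In.and (In.ipre e2 e1).not (In.ipre e1 e2).not)
  have hdense : DenseT (L.length + 2) (ISet.mk hD').1 := by
    intro s hs'
    obtain ⟨s₀, s₁, l, rfl⟩ : ∃ s₀ s₁ l, s = s₀ :: s₁ :: l := by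
      rcases s with _ | ⟨s₀, _ | ⟨s₁, l⟩⟩
      · simp at hs'
      · simp at hs'
      · exact ⟨s₀, s₁, l, rfl⟩
    have hl : l.length = L.length := by simpa using hs'
    by_cases hcomp : ∃ i : ℕ, i < L.length ∧ ¬ (l.getD i [] <+: C.getD i []) ∧
        ¬ (C.getD i [] <+: l.getD i [])
    · refine ⟨s₀ :: s₁ :: l, Or.inl ?_, List.forall₂_same.2 fun a _ => List.prefix_refl a⟩
      obtain ⟨i, h1, h2, h3⟩ := hcomp
      exact ⟨i, h1, by simpa using h2, by simpa using h3⟩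
    · obtain ⟨lam, hlam⟩ : ∃ lam : ℕ → Fs, ∀ i, i < L.length → l.getD i [] <+: lam i ∧
          C.getD i [] <+: lam i := by
        classical
        refine ⟨fun i => if l.getD i [] <+: C.getD i [] then C.getD i [] else l.getD i [],
          fun i hi => ?_⟩
        by_cases h1 : l.getD i [] <+: C.getD i []
        · simp only [h1, if_true]
          exact ⟨trivial, List.prefix_refl _⟩
        · simp only [h1, if_false]
          refine ⟨List.prefix_refl _, ?_⟩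
          by_contra h2
          exact hcomp ⟨i, hi, h1, h2⟩
      obtain ⟨F, hF⟩ : ∃ F : Finset (W × W × Hc), ∀ x, x ∈ F ↔ ∃ y ∈ Q,
          (y.1, (ξ, ((κf y.2).2.1, lam y.2))) = x :=
        ⟨Q.image (fun y => (y.1, (ξ, ((κf y.2).2.1, lam y.2)))), fun x => Finset.mem_image⟩
      have hF' : ∀ x ∈ F, x.2.1 < d ∧ ∃ κ : W × Hc, (x.1, κ) ∈ p.2 ∧ x.2.2.1 = κ.2.1 := by
        intro x hx
        obtain ⟨⟨ν, i⟩, hy, rfl⟩ := (hF x).1 hx
        exact ⟨hξ, κf i, ((hP _).1 ((hQ ν i).1 hy).2).1, rfl⟩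
      obtain ⟨q, hq, t, t', hle, ht, ht', hqD⟩ := hD _ (S8b_mem hb hp F hF') s₀ s₁
      have hle0 : CLe c' q p₀ := by
        refine hle.trans ?_
        rw [hp₀]
        refine ⟨fun _ h => h, fun x hx => ?_, fun ν m hm hm' => absurd hm hm'⟩
        rcases Finset.mem_union.1 hx with h | h
        · exact Finset.mem_union_left _ h
        · simp at h
      obtain ⟨a, ha⟩ : ∃ a : ℕ, ∀ x ∈ q.1, a ∉ x.2 := by
        refine ⟨(q.1.sup fun x => x.2.sum) + 1, fun x hx h => ?_⟩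
        have h1 := List.single_le_sum (l := x.2) (fun _ _ => Nat.zero_le _) _ h
        have h2 := Finset.le_sup (f := fun x : W × Fs => x.2.sum) hx
        omega
      refine ⟨t :: t' :: (List.range L.length).map (fun i => lam i ++ [a]),
        Or.inr ⟨(q, t, t'), hqD, ⟨hq, hp₀P, hle0⟩, List.prefix_refl _, List.prefix_refl _, ?_⟩,
        List.Forall₂.cons ht (List.Forall₂.cons ht' ?_)⟩
      · intro x hx hxp i hi
        obtain ⟨hin, hiP⟩ := (hQ x.1 i).1 hi
        have e : (t :: t' :: (List.range L.length).map (fun i => lam i ++ [a])).getD (i + 2) [] =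
            lam i ++ [a] := by
          simp [hin]
        rw [e]
        have hnp : ¬ Pre (c' (ξ, ((κf i).2.1, lam i))) x.2 :=
          hle.2.2 x.1 x.2 hx hxp _ (Finset.mem_union_right _ ((hF _).2 ⟨_, hi, rfl⟩))
        have hpre : Pre (c' (ξ, ((κf i).2.1, lam i))) (lam i) := K.luz.pre ξ _ _
        constructor
        · intro h
          rcases List.prefix_concat_iff.1 h with h | h
          · exact ha x hx (by rw [h]; simp)
          · exact hnp (hpre.of_prefix h)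
        · intro h
          exact ha x hx (h.subset (by simp))
      · rw [List.forall₂_iff_get]
        refine ⟨by simp [hl], fun i h1 h2 => ?_⟩
        have h3 := (hlam i (by omega)).1
        rw [List.getD_eq_getElem _ _ h1] at h3
        simp only [List.get_eq_getElem, List.getElem_map, List.getElem_range]
        exact h3.trans (List.prefix_append _ _)
  obtain ⟨T, hT, hT2⟩ := K.mg d L hLn (by
    intro κ hκ
    obtain ⟨ν, hν⟩ := (hLm κ).1 hκ
    exact not_lt.1 ((hP _).1 hν).2) (ISet.mk hD') hdense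
  obtain ⟨s₀, s₁, l, rfl⟩ : ∃ s₀ s₁ l, T = s₀ :: s₁ :: l := by
    have h1 := hT2.length_eq
    rcases T with _ | ⟨s₀, _ | ⟨s₁, l⟩⟩
    · simp at h1
    · simp at h1
    · exact ⟨s₀, s₁, l, rfl⟩
  rw [List.forall₂_cons, List.forall₂_cons] at hT2
  obtain ⟨h0, h1, h2⟩ := hT2
  have hpi : ∀ i, i < L.length → Pre (c' (κf i)) (l.getD i []) := by
    intro i hi
    have h3 := S8b_forall2_getD h2 i (by simpa using hi) (fun _ => 0)
    rw [List.getD_eq_getElem _ _ (by simpa using hi), List.getElem_map, ← hκf i hi] at h3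
    exact h3
  rcases hT with ⟨i, hi, h3, h4⟩ | ⟨⟨q, u, u'⟩, hqD, ⟨hq, -, hle⟩, hu, hu', hno⟩
  · exfalso
    have h5 : Pre (c' (κf i)) (C.getD i []) := by
      rw [hC i hi]
      exact K.luz.pre (κf i).1 (κf i).2.1 (κf i).2.2
    rcases (hpi i hi).comparable h5 with h6 | h6
    · exact h3 (by simpa using h6)
    · exact h4 (by simpa using h6)
  · have hcq : CLe c' (cup q p) q := by
      refine ⟨fun x hx => mem_cup1.2 (Or.inl hx), fun x hx => mem_cup2.2 (Or.inl hx),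
        fun ν m hm hm' κ hκ => ?_⟩
      rcases mem_cup1.1 hm with h | h
      · exact absurd h hm'
      · refine absurd (hle.1 ?_) hm'
        rw [hp₀]
        exact h
    have hcp : CLe c' (cup q p) p := by
      refine ⟨fun x hx => mem_cup1.2 (Or.inr hx), fun x hx => mem_cup2.2 (Or.inr hx),
        fun ν m hm hm' κ hκ => ?_⟩
      have hmq : (ν, m) ∈ q.1 := (mem_cup1.1 hm).resolve_right hm'
      by_cases hκd : κ.1 < d
      · refine hle.2.2 ν m hmq ?_ κ ?_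
        · rw [hp₀]
          exact hm'
        · rw [hp₀]
          exact Finset.mem_union_left _ (Finset.mem_filter.2 ⟨hκ, hκd⟩)
      · have hκP : (ν, κ) ∈ P := (hP _).2 ⟨hκ, hκd⟩
        obtain ⟨i, hi, e⟩ := hκf' κ ((hLm κ).2 ⟨ν, hκP⟩)
        have h3 := hno (ν, m) hmq hm' i ((hQ ν i).2 ⟨hi, by rw [e]; exact hκP⟩)
        have h4 := hpi i hi
        rw [e] at h4
        intro h5
        rcases h5.comparable h4 with h6 | h6
        · exact h3.1 (by simpa using h6)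
        · exact h3.2 (by simpa using h6)
    exact ⟨cup q p, PP_cup hq.1 hp hcq hcp, hcp, (q, u, u'), hqD, hq, hcq,
      h0.of_prefix (by simpa using hu), h1.of_prefix (by simpa using hu')⟩

end

end Pool.Agent.H.MP_20495c_lc
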