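import Pool.Agent.H.MP_20495c_lc.S.S8b

/-!
# MP_20495c, block S, part 8c: consequences of the cut lemma

Let `N`, `A d`, `c'`, `sp` be as in the package of the step, `g` a valid plan of `N` (with respect
to `c'`) and `H` generic for `g` over `N`.  `Pd c' g d` is the set of the conditions of `g` with
indices below `d`.  For large `d` it is a countable poset of `A d`, `H ∩ Pd c' g d` is generic over
`A d`, and the two spare reals of index `d` are Cohen over the extension.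
-/

set_option autoImplicit false
set_option linter.unusedSectionVars false

namespace Pool.Agent.H.MP_20495c_lc

open Pool.Agent.H.MP_07d118_lc Pool.Agent.H.MP_a163f2_lc

universe u v w x

section

variable {S : Set ZFSet.{0}} [Mdl S] {W : Type v} [LinearOrder W] [Cd S W] [Om1 S W]
variable {c : W × Hc → ℕ → ℕ} [hL : Fact (Luz S W c)] {N : Set ZFSet.{0}} [Mdl N] [Cd N W]
  [Om1 N W]
variable {A : W → Set ZFSet.{0}} [∀ d, Mdl (A d)] [∀ d, Cd (A d) W] [∀ d, Om1 (A d) W]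
variable {c' : W × Hc → ℕ → ℕ} {f : W → Pl S W} {G : W → Set (Cond W)} {sp : W → ℕ → ℕ → ℕ}

/-- the part of the generic filter below `d` is generic over `A d` (from `SPk.cut`; `cup` for `dir`) -/
theorem SPk.gt_Pd (K : SPk S c N A c' f G sp) {g : Pl N W} (hg : Valid c' g) {d : W}
    (hs : Sm (A d) g d) (hd : ∃ η, η < d) {H : Set (Cond W)} (hH : Gen c' g H) :
    Gt (A d) (Pd c' g d) (CLe c') (H ∩ Pd c' g d) := by
  have : Fact (Luz N W c') := ⟨K.luz⟩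
  refine ⟨fun p hp => hp.2, ⟨(∅, ∅), hH.empty_mem, empty_PP g, ?_⟩, ?_, ?_, ?_⟩
  · exact ⟨fun ν m h => by simp at h, fun ν ξ h h' => by simp at h'⟩
  · intro p hp q hq hle
    exact ⟨hH.up p hp.1 q hq.1 hle, hq⟩
  · intro p hp q hq
    obtain ⟨h1, h2, h3⟩ := hH.cup_mem hp.1 hq.1
    exact ⟨cup p q, ⟨h1, hH.sub _ h1, hp.2.2.cup hq.2.2⟩, h2, h3⟩
  · intro D hD
    obtain ⟨q, h1, t, t', h2, -, -⟩ := K.cut hg hs hd hH
      (ISet.mk (P := fun y : Cond W × Fs × Fs => y.1 ∈ D) (D.in_mem.comp IF.fst)) (by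
        intro p hp s s'
        obtain ⟨q, hq, h1, h2⟩ := hD p hp
        exact ⟨q, hq, s, s', h1, List.prefix_rfl, List.prefix_rfl, h2⟩)
    exact ⟨q, h1, h2⟩

set_option synthInstance.maxSize 1000 in
/-- the spare reals are Cohen over the extension of `A d`

Proof. Let `D : ISet (ext ..) (Fs × Fs)` be dense, `R : ISet (A d) ((Fs × Fs) × Cond W)` a name of it
(`in_ext_iff`).  Apply `SPk.cut` to the set of the `(q, t, t')` such that either
`∃ q₀ ∈ Pd, CLe c' q q₀ ∧ ((t, t'), q₀) ∈ R`, or no `q' ≤ q` in `Pd`, `u ⊇ t`, `u' ⊇ t'`, `q₀ ∈ Pd` have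
`CLe c' q' q₀`, `((u, u'), q₀) ∈ R`.  The second case contradicts the density of `D`. -/
theorem SPk.coh2 (K : SPk S c N A c' f G sp) {g : Pl N W} (hg : Valid c' g) {d : W}
    (hs : Sm (A d) g d) (hd : ∃ η, η < d) {H : Set (Cond W)} (hH : Gen c' g H)
    [Mdl (ext (A d) (H ∩ Pd c' g d))] :
    Coh2 (ext (A d) (H ∩ Pd c' g d)) (sp d 0) (sp d 1) := by
  have : Fact (Luz N W c') := ⟨K.luz⟩
  have hP := K.po_Pd hs
  have hG := K.gt_Pd hg hs hd hH
  intro D hD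
  obtain ⟨R, hR⟩ := (in_ext_iff hP hG (A := fun t : Fs × Fs => t ∈ D)).1 D.in_mem
  obtain ⟨q, hq, t, t', h1, h2, h3⟩ := K.cut hg hs hd hH
    (ISet.mk (P := fun y : Cond W × Fs × Fs =>
      (∃ q₀ : Cond W, (y.1 ∈ Pd c' g d ∧ q₀ ∈ Pd c' g d ∧ CLe c' y.1 q₀) ∧
        ((y.2.1, y.2.2), q₀) ∈ R) ∨
      ∀ x : Cond W × Fs × Fs, (x.1 ∈ Pd c' g d ∧ y.1 ∈ Pd c' g d ∧ CLe c' x.1 y.1) →
        y.2.1 <+: x.2.1 → y.2.2 <+: x.2.2 → ∀ q₀ : Cond W,
          (x.1 ∈ Pd c' g d ∧ q₀ ∈ Pd c' g d ∧ CLe c' x.1 q₀) → ¬ ((x.2.1, x.2.2), q₀) ∈ R)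
      (by
        refine In.or ?_ ?_
        · refine In.ex (P := fun (y : Cond W × Fs × Fs) (q₀ : Cond W) =>
            (y.1 ∈ Pd c' g d ∧ q₀ ∈ Pd c' g d ∧ CLe c' y.1 q₀) ∧ ((y.2.1, y.2.2), q₀) ∈ R) ?_
          refine In.and ?_ ?_
          · exact hP.inle.comp ((IF.comp IF.fst IF.fst).pair IF.snd)
          · exact R.in_mem.comp (((IF.comp IF.fst (IF.comp IF.snd IF.fst)).pair
              (IF.comp IF.snd (IF.comp IF.snd IF.fst))).pair IF.snd)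
        · refine In.all (P := fun (y x : Cond W × Fs × Fs) =>
            (x.1 ∈ Pd c' g d ∧ y.1 ∈ Pd c' g d ∧ CLe c' x.1 y.1) →
            y.2.1 <+: x.2.1 → y.2.2 <+: x.2.2 → ∀ q₀ : Cond W,
              (x.1 ∈ Pd c' g d ∧ q₀ ∈ Pd c' g d ∧ CLe c' x.1 q₀) →
              ¬ ((x.2.1, x.2.2), q₀) ∈ R) ?_
          refine In.imp ?_ (In.imp ?_ (In.imp ?_ ?_))
          · exact hP.inle.comp ((IF.comp IF.fst IF.snd).pair (IF.comp IF.fst IF.fst))
          · exact In.ipre (IF.comp IF.fst (IF.comp IF.snd IF.fst))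
              (IF.comp IF.fst (IF.comp IF.snd IF.snd))
          · exact In.ipre (IF.comp IF.snd (IF.comp IF.snd IF.fst))
              (IF.comp IF.snd (IF.comp IF.snd IF.snd))
          · refine In.all (P := fun (z : (Cond W × Fs × Fs) × (Cond W × Fs × Fs))
              (q₀ : Cond W) => (z.2.1 ∈ Pd c' g d ∧ q₀ ∈ Pd c' g d ∧ CLe c' z.2.1 q₀) →
              ¬ ((z.2.2.1, z.2.2.2), q₀) ∈ R) ?_
            refine In.imp ?_ (In.not ?_)
            · exact hP.inle.comp ((IF.comp IF.fst (IF.comp IF.snd IF.fst)).pair IF.snd)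
            · exact R.in_mem.comp (((IF.comp IF.fst (IF.comp IF.snd (IF.comp IF.snd
                IF.fst))).pair (IF.comp IF.snd (IF.comp IF.snd (IF.comp IF.snd
                IF.fst)))).pair IF.snd))) (by
      intro p hp s s'
      by_cases h : ∃ x : Cond W × Fs × Fs, (x.1 ∈ Pd c' g d ∧ p ∈ Pd c' g d ∧ CLe c' x.1 p) ∧
          s <+: x.2.1 ∧ s' <+: x.2.2 ∧ ∃ q₀ : Cond W,
            (x.1 ∈ Pd c' g d ∧ q₀ ∈ Pd c' g d ∧ CLe c' x.1 q₀) ∧ ((x.2.1, x.2.2), q₀) ∈ R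
      · obtain ⟨x, h1, h2, h3, h4⟩ := h
        exact ⟨x.1, h1.1, x.2.1, x.2.2, h1.2.2, h2, h3, Or.inl h4⟩
      · exact ⟨p, hp, s, s', CLe.refl p, List.prefix_rfl, List.prefix_rfl,
          Or.inr fun x h1 h2 h3 q₀ h4 h5 => h ⟨x, h1, h2, h3, q₀, h4, h5⟩⟩)
  rcases h1 with ⟨q₀, h4, h5⟩ | h4
  · exact ⟨t, t', (hR (t, t')).2 ⟨q₀, hG.up q hq q₀ h4.2.1 h4.2.2, h5⟩, h2, h3⟩
  · exfalso
    obtain ⟨u, u', h5, h6, h7⟩ := hD t t'
    obtain ⟨p, hp, h8⟩ := (hR (u, u')).1 h7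
    obtain ⟨r, hr, h9, h10⟩ := hG.dir q hq p hp
    exact h4 (r, u, u') ⟨hr.2, hq.2, h9⟩ h5 h6 p ⟨hr.2, hp.2, h10⟩ h8

/-- every real of the extension by `g` is in the small extensions for all large `d`

Proof. `x = ev n H` with a bounded name `n`; by `SPk.countable` `n` is internal in `A d` for all
large `d`, and its conditions are in `Pd c' g d`.  `x i = k` iff some `(q, t) ∈ n` has
`q ∈ H ∩ Pd c' g d`, `i < t.length`, `t.getD i 0 = k`; use `reals_ext_iff`. -/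
theorem SPk.real_Pd (K : SPk S c N A c' f G sp) {g : Pl N W} (hg : Valid c' g)
    {H : Set (Cond W)} (hH : Gen c' g H) {x : ℕ → ℕ} (hx : x ∈ RR c' g H) :
    ∃ d₀, ∀ d, d₀ ≤ d → Sm (A d) g d → x ∈ Reals (ext (A d) (H ∩ Pd c' g d)) := by
  have : Fact (Luz N W c') := ⟨K.luz⟩
  obtain ⟨n, hn, rfl⟩ := hx
  obtain ⟨ζ, hζ⟩ := hn.bdd
  have hcN : Cx S N W := K.cxN
  have hcA : ∀ d, Cx S (A d) W := K.cxA
  obtain ⟨d₀, h0⟩ := K.countable (T := Cond W × Fs) inferInstance (fun d => inferInstance)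
    (P := fun x => x ∈ n) n.in_mem (B := {x : Cond W × Fs | Bd ζ x.1})
    (((ICt.conds ζ).prod ICt.fs).mono fun x hx => ⟨hx, Set.mem_univ _⟩)
    (In.bd (IF.const ζ) IF.fst) (fun x hx => hζ x.1 x.2 hx)
  obtain ⟨α, hα⟩ := Om1.bdd (M := S) (W := W) (fun _ : ℕ => max d₀ ζ) (IF.const _)
  have hα' : max d₀ ζ < α := hα 0
  refine ⟨α, fun d hd hs => ?_⟩
  have hdd : d₀ ≤ d := ((le_max_left _ _).trans hα'.le).trans hd
  have hζd : ζ < d := ((le_max_right _ _).trans_lt hα').trans_le hd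
  have hex : ∃ η, η < d := ⟨ζ, hζd⟩
  have hP := K.po_Pd hs
  have hG := K.gt_Pd hg hs hex hH
  refine (reals_ext_iff hP hG).2 ⟨ISet.mk (P := fun y : Cond W × ℕ × ℕ =>
    ∃ t : Fs, (y.1, t) ∈ n ∧ y.2.1 < t.length ∧ t.getD y.2.1 0 = y.2.2) ?_, fun i k => ?_⟩
  · refine In.ex (P := fun (y : Cond W × ℕ × ℕ) (t : Fs) => (y.1, t) ∈ n ∧
      y.2.1 < t.length ∧ t.getD y.2.1 0 = y.2.2) ?_
    refine In.and ?_ (In.and ?_ ?_)
    · exact (h0 d hdd).comp ((IF.comp IF.fst IF.fst).pair IF.snd)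
    · exact In.lt (IF.comp IF.fst (IF.comp IF.snd IF.fst)) (IF.length IF.snd)
    · exact In.eq (IF.getD IF.snd (IF.comp IF.fst (IF.comp IF.snd IF.fst)))
        (IF.comp IF.snd (IF.comp IF.snd IF.fst))
  · constructor
    · rintro rfl
      obtain ⟨q, t, h1, h2, h3, h4⟩ := ev_witness hH hn (i + 1)
      refine ⟨q, ⟨h2, hH.sub q h2, (hζ q t h1).mono hζd.le⟩, t, h1, h3, ?_⟩
      exact pre_getD.1 h4 i h3
    · rintro ⟨q, hq, t, h1, h2, h3⟩
      have h4 := ev_pre hH hn h1 hq.1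
      have h5 : t.getD i 0 = k := h3
      rw [← h5]
      exact (pre_getD.1 h4 i h2).symm

/-- `ext_min` -/
theorem SPk.ext_sub (K : SPk S c N A c' f G sp) {g : Pl N W} (hg : Valid c' g) {d : W}
    (hs : Sm (A d) g d) (hd : ∃ η, η < d) {H : Set (Cond W)} (hH : Gen c' g H)
    [Mdl (ext N H)] : ext (A d) (H ∩ Pd c' g d) ⊆ ext N H := by
  have : Fact (Luz N W c') := ⟨K.luz⟩
  have hcA : Cx (A d) N W := K.cx_AN d
  have hPN : Po N (PP c' g) (CLe c') := po_pp g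
  have hGN : Gt N (PP c' g) (CLe c') H := gt_iff_gen.2 hH
  have hs1 : N ⊆ ext N H := sub_ext hPN hGN
  have hP := K.po_Pd hs
  have hG := K.gt_Pd hg hs hd hH
  let _ : Cd (ext N H) (Cond W) := CdUp hs1 (Cond W)
  have : Cx N (ext N H) (Cond W) := cx_up hs1 (Cond W)
  have : Cx (A d) (ext N H) (Cond W) := cx_trans (N := N) inferInstance inferInstance
  refine ext_min hP hG ((K.subN d).trans hs1) ?_
  exact In.and (in_gen hPN hGN) (In.lift hs1 (In.lift (K.subN d) hP.inV))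

end

end Pool.Agent.H.MP_20495c_lc
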